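import Pool.Agent.EDG.GEO1

/-! Enlarging triangles. -/

set_option autoImplicit false

namespace Pool.Agent.EDG

open Set

theorem cr_def (u v : Pl) : cr u v = u.1 * v.2 - u.2 * v.1 := rfl

/-- Small perturbations of a triangle stay away from a closed set. -/
theorem geo_near (A B C : Pl) (O : Set Pl) (hO : IsClosed O) (hd : Disjoint O (tri A B C)) :
    ∃ δ : ℝ, 0 < δ ∧ ∀ P Q R : Pl, dist P A < δ → dist Q B < δ → dist R C < δ →
      Disjoint O (tri P Q R) := by
  obtain ⟨δ, hδ, hdis⟩ := (hd.symm).exists_thickenings (tri_compact A B C) hO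
  refine ⟨δ, hδ, fun P Q R hP hQ hR => ?_⟩
  rw [Set.disjoint_left]
  intro z hzO hz
  obtain ⟨α, β, γ, h1, h2, h3, h4, rfl⟩ := (tri_mem_iff P Q R z).1 hz
  have hmem : α • A + β • B + γ • C ∈ tri A B C :=
    (tri_mem_iff A B C _).2 ⟨α, β, γ, h1, h2, h3, h4, rfl⟩
  have hdist : dist (α • P + β • Q + γ • R) (α • A + β • B + γ • C) < δ := by
    rw [dist_eq_norm] at *
    have e : α • P + β • Q + γ • R - (α • A + β • B + γ • C) =
        α • (P - A) + β • (Q - B) + γ • (R - C) := by module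
    rw [e]
    have n1 : ‖α • (P - A) + β • (Q - B) + γ • (R - C)‖ ≤
        α * ‖P - A‖ + β * ‖Q - B‖ + γ * ‖R - C‖ := by
      refine (norm_add₃_le).trans ?_
      rw [norm_smul, norm_smul, norm_smul, Real.norm_of_nonneg h1, Real.norm_of_nonneg h2,
        Real.norm_of_nonneg h3]
    refine n1.trans_lt ?_
    have m1 : α * ‖P - A‖ ≤ α * max ‖P - A‖ (max ‖Q - B‖ ‖R - C‖) :=
      mul_le_mul_of_nonneg_left (le_max_left _ _) h1
    have m2 : β * ‖Q - B‖ ≤ β * max ‖P - A‖ (max ‖Q - B‖ ‖R - C‖) :=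
      mul_le_mul_of_nonneg_left ((le_max_left _ _).trans (le_max_right _ _)) h2
    have m3 : γ * ‖R - C‖ ≤ γ * max ‖P - A‖ (max ‖Q - B‖ ‖R - C‖) :=
      mul_le_mul_of_nonneg_left ((le_max_right _ _).trans (le_max_right _ _)) h3
    have m4 : max ‖P - A‖ (max ‖Q - B‖ ‖R - C‖) < δ := max_lt hP (max_lt hQ hR)
    have m5 : α * max ‖P - A‖ (max ‖Q - B‖ ‖R - C‖) + β * max ‖P - A‖ (max ‖Q - B‖ ‖R - C‖) +
        γ * max ‖P - A‖ (max ‖Q - B‖ ‖R - C‖) = max ‖P - A‖ (max ‖Q - B‖ ‖R - C‖) := by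
      rw [← add_mul, ← add_mul, h4, one_mul]
    linarith
  have t1 : α • P + β • Q + γ • R ∈ Metric.thickening δ (tri A B C) :=
    Metric.mem_thickening_iff.2 ⟨_, hmem, hdist⟩
  have t2 : α • P + β • Q + γ • R ∈ Metric.thickening δ O :=
    Metric.self_subset_thickening hδ O hzO
  exact Set.disjoint_left.1 hdis t1 t2

/-- A small positive number making a vector short. -/
theorem geo_small (v : Pl) {δ : ℝ} (hδ : 0 < δ) : ∃ e : ℝ, 0 < e ∧ ∀ t : ℝ, 0 ≤ t → t ≤ e →
    ‖t • v‖ < δ := by
  refine ⟨δ / (2 * (‖v‖ + 1)), by positivity, fun t h0 ht => ?_⟩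
  rw [norm_smul, Real.norm_of_nonneg h0]
  have h1 : t * ‖v‖ ≤ δ / (2 * (‖v‖ + 1)) * (‖v‖ + 1) :=
    mul_le_mul ht (by linarith) (norm_nonneg _) (by positivity)
  have h2 : δ / (2 * (‖v‖ + 1)) * (‖v‖ + 1) = δ / 2 := by
    have : ‖v‖ + 1 ≠ 0 := by positivity
    field_simp
  linarith

theorem geo_side (A B C : Pl) (h : ND A B C) (O : Set Pl) (hO : IsClosed O)
    (hd : Disjoint O (tri A B C)) : ∃ X : Pl, ND A B X ∧ Disjoint O (tri A B X) ∧
      tri A B C \ segment ℝ A B ⊆ interior (tri A B X) ∧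
      segment ℝ A X ∩ tri A B C = {A} ∧ segment ℝ X B ∩ tri A B C = {B} := by
  obtain ⟨δ, hδ, hnear⟩ := geo_near A B C O hO hd
  obtain ⟨e, he, hsmall⟩ := geo_small ((C - A) + (C - B)) hδ
  have hX : dist (C + e • ((C - A) + (C - B))) C < δ := by
    rw [dist_eq_norm, add_sub_cancel_left]
    exact hsmall e he.le le_rfl
  have hD : (1 + 2 * e) ≠ 0 := by positivity
  have hcr : cr (B - A) (C - A) ≠ 0 := h
  refine ⟨C + e • ((C - A) + (C - B)), ?_, hnear _ _ _ (by simpa using hδ) (by simpa using hδ) hX,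
    ?_, ?_, ?_⟩
  · have e1 : cr (B - A) (C + e • ((C - A) + (C - B)) - A) = (1 + 2 * e) * cr (B - A) (C - A) := by
      simp only [cr_def, Prod.fst_sub, Prod.snd_sub, Prod.fst_add, Prod.snd_add, Prod.smul_fst,
        Prod.smul_snd, smul_eq_mul]
      ring
    unfold ND
    rw [e1]
    exact mul_ne_zero hD hcr
  · have hND : ND A B (C + e • ((C - A) + (C - B))) := by
      have e1 : cr (B - A) (C + e • ((C - A) + (C - B)) - A) =
          (1 + 2 * e) * cr (B - A) (C - A) := by
        simp only [cr_def, Prod.fst_sub, Prod.snd_sub, Prod.fst_add, Prod.snd_add, Prod.smul_fst,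
          Prod.smul_snd, smul_eq_mul]
        ring
      unfold ND
      rw [e1]
      exact mul_ne_zero hD hcr
    rintro z ⟨hz, hzs⟩
    obtain ⟨α, β, γ, h1, h2, h3, h4, rfl⟩ := (tri_mem_iff A B C z).1 hz
    have hγ : 0 < γ := by
      rcases h3.lt_or_eq with h5 | h5
      · exact h5
      · exfalso
        apply hzs
        rw [← h5] at h4 ⊢
        exact ⟨α, β, h1, h2, by linarith, by simp⟩
    rw [tri_interior _ _ _ _ hND]
    refine ⟨α + γ * (e / (1 + 2 * e)), β + γ * (e / (1 + 2 * e)), γ / (1 + 2 * e), by positivity,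
      by positivity, by positivity, ?_, ?_⟩
    · field_simp
      linear_combination (1 + 2 * e) * h4
    · ext
      · simp only [Prod.fst_sub, Prod.fst_add, Prod.smul_fst, smul_eq_mul]
        field_simp
        ring
      · simp only [Prod.snd_sub, Prod.snd_add, Prod.smul_snd, smul_eq_mul]
        field_simp
        ring
  · apply Set.Subset.antisymm
    · rintro w ⟨⟨s, t, hs, ht, hst, hw⟩, hw2⟩
      obtain ⟨α, β, γ, h1, h2, h3, h4, h5⟩ := (tri_mem_iff A B C w).1 hw2
      have e1 : cr (w - A) (C - A) = β * cr (B - A) (C - A) := by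
        rw [h5]
        have hα : α = 1 - β - γ := by linarith
        rw [hα]
        simp only [cr_def, Prod.fst_sub, Prod.snd_sub, Prod.fst_add, Prod.snd_add, Prod.smul_fst,
          Prod.smul_snd, smul_eq_mul]
        ring
      have e2 : cr (w - A) (C - A) = -(t * e) * cr (B - A) (C - A) := by
        rw [← hw]
        have hs' : s = 1 - t := by linarith
        rw [hs']
        simp only [cr_def, Prod.fst_sub, Prod.snd_sub, Prod.fst_add, Prod.snd_add, Prod.smul_fst,
          Prod.smul_snd, smul_eq_mul]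
        ring
      have e3 : β = -(t * e) := mul_right_cancel₀ hcr (e1.symm.trans e2)
      have e4 : t = 0 := by
        have : 0 ≤ t * e := by positivity
        have h6 : t * e = 0 := by linarith
        rcases mul_eq_zero.1 h6 with h7 | h7
        · exact h7
        · exact absurd h7 he.ne'
      have e5 : s = 1 := by linarith
      rw [mem_singleton_iff, ← hw, e4, e5]
      simp
    · rintro w rfl
      exact ⟨left_mem_segment _ _ _, (tri_mem_iff _ _ _ _).2 ⟨1, 0, 0, by norm_num, le_rfl, le_rfl,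
        by norm_num, by simp⟩⟩
  · apply Set.Subset.antisymm
    · rintro w ⟨⟨s, t, hs, ht, hst, hw⟩, hw2⟩
      obtain ⟨α, β, γ, h1, h2, h3, h4, h5⟩ := (tri_mem_iff A B C w).1 hw2
      have e1 : cr (w - B) (C - B) = α * cr (A - B) (C - B) := by
        rw [h5]
        have hβ : β = 1 - α - γ := by linarith
        rw [hβ]
        simp only [cr_def, Prod.fst_sub, Prod.snd_sub, Prod.fst_add, Prod.snd_add, Prod.smul_fst,
          Prod.smul_snd, smul_eq_mul]
        ring
      have e2 : cr (w - B) (C - B) = -(s * e) * cr (A - B) (C - B) := by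
        rw [← hw]
        have ht' : t = 1 - s := by linarith
        rw [ht']
        simp only [cr_def, Prod.fst_sub, Prod.snd_sub, Prod.fst_add, Prod.snd_add, Prod.smul_fst,
          Prod.smul_snd, smul_eq_mul]
        ring
      have hcr2 : cr (A - B) (C - B) ≠ 0 := by
        have e0 : cr (A - B) (C - B) = - cr (B - A) (C - A) := by
          simp only [cr_def, Prod.fst_sub, Prod.snd_sub]
          ring
        rw [e0]
        exact neg_ne_zero.2 hcr
      have e3 : α = -(s * e) := mul_right_cancel₀ hcr2 (e1.symm.trans e2)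
      have e4 : s = 0 := by
        have : 0 ≤ s * e := by positivity
        have h6 : s * e = 0 := by linarith
        rcases mul_eq_zero.1 h6 with h7 | h7
        · exact h7
        · exact absurd h7 he.ne'
      have e5 : t = 1 := by linarith
      rw [mem_singleton_iff, ← hw, e4, e5]
      simp
    · rintro w rfl
      exact ⟨right_mem_segment _ _ _, (tri_mem_iff _ _ _ _).2 ⟨0, 1, 0, le_rfl, by norm_num, le_rfl,
        by norm_num, by simp⟩⟩

theorem geo_corner (A B C : Pl) (h : ND A B C) (O : Set Pl) (hO : IsClosed O)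
    (hd : Disjoint O (tri A B C)) : ∃ X W : Pl, ND A X W ∧ Disjoint O (tri A X W) ∧
      tri A B C \ {A} ⊆ interior (tri A X W) := by
  have hd' : Disjoint O (tri A C B) := by
    have e : tri A C B = tri A B C := by
      unfold tri
      congr 1
      ext z
      simp only [mem_insert_iff, mem_singleton_iff]
      tauto
    rw [e]; exact hd
  obtain ⟨δ, hδ, hnear⟩ := geo_near A C B O hO hd'
  obtain ⟨e₁, he₁, hs1⟩ := geo_small ((C - A) + (C - B)) hδ
  obtain ⟨e₂, he₂, hs2⟩ := geo_small ((B - A) + (B - C)) hδ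
  obtain ⟨e, he, h12⟩ : ∃ e : ℝ, 0 < e ∧ e ≤ e₁ ∧ e ≤ e₂ :=
    ⟨min e₁ e₂, lt_min he₁ he₂, min_le_left _ _, min_le_right _ _⟩
  have hcr : cr (B - A) (C - A) ≠ 0 := h
  have hDD : (1 + e) * (1 + 3 * e) ≠ 0 := by positivity
  have hND : ND A (C + e • ((C - A) + (C - B))) (B + e • ((B - A) + (B - C))) := by
    have e1 : cr (C + e • ((C - A) + (C - B)) - A) (B + e • ((B - A) + (B - C)) - A) =
        -((1 + e) * (1 + 3 * e)) * cr (B - A) (C - A) := by
      simp only [cr_def, Prod.fst_sub, Prod.snd_sub, Prod.fst_add, Prod.snd_add, Prod.smul_fst,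
        Prod.smul_snd, smul_eq_mul]
      ring
    unfold ND
    rw [e1]
    exact mul_ne_zero (neg_ne_zero.2 hDD) hcr
  refine ⟨C + e • ((C - A) + (C - B)), B + e • ((B - A) + (B - C)), hND,
    hnear _ _ _ (by simpa using hδ) ?_ ?_, ?_⟩
  · rw [dist_eq_norm, add_sub_cancel_left]; exact hs1 e he.le h12.1
  · rw [dist_eq_norm, add_sub_cancel_left]; exact hs2 e he.le h12.2
  rintro z ⟨hz, hzs⟩
  obtain ⟨α, β, γ, h1, h2, h3, h4, rfl⟩ := (tri_mem_iff A B C z).1 hz
  have hβγ : 0 < β + γ := by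
    rcases (add_nonneg h2 h3).lt_or_eq with h5 | h5
    · exact h5
    · exfalso
      apply hzs
      have hβ : β = 0 := by linarith
      have hγ : γ = 0 := by linarith
      have hα : α = 1 := by linarith
      rw [mem_singleton_iff, hα, hβ, hγ]
      simp
  rw [tri_interior _ _ _ _ hND]
  refine ⟨α + (β + γ) * ((e + 3 * e ^ 2) / ((1 + e) * (1 + 3 * e))),
    (β * e + γ * (1 + 2 * e)) / ((1 + e) * (1 + 3 * e)),
    (β * (1 + 2 * e) + γ * e) / ((1 + e) * (1 + 3 * e)), by positivity, ?_, ?_, ?_, ?_⟩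
  · apply div_pos _ (by positivity)
    have : 0 < (β + γ) * e := mul_pos hβγ he
    nlinarith [mul_nonneg h3 he.le]
  · apply div_pos _ (by positivity)
    have : 0 < (β + γ) * e := mul_pos hβγ he
    nlinarith [mul_nonneg h2 he.le]
  · field_simp
    linear_combination (1 + e) * (1 + 3 * e) * h4
  · ext
    · simp only [Prod.fst_sub, Prod.fst_add, Prod.smul_fst, smul_eq_mul]
      field_simp
      ring
    · simp only [Prod.snd_sub, Prod.snd_add, Prod.smul_snd, smul_eq_mul]
      field_simp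
      ring

theorem geo_all (A B C : Pl) (h : ND A B C) (O : Set Pl) (hO : IsClosed O)
    (hd : Disjoint O (tri A B C)) : ∃ P Q R : Pl, ND P Q R ∧ Disjoint O (tri P Q R) ∧
      tri A B C ⊆ interior (tri P Q R) := by
  obtain ⟨δ, hδ, hnear⟩ := geo_near A B C O hO hd
  obtain ⟨e₁, he₁, hs1⟩ := geo_small ((A - B) + (A - C)) hδ
  obtain ⟨e₂, he₂, hs2⟩ := geo_small ((B - A) + (B - C)) hδ
  obtain ⟨e₃, he₃, hs3⟩ := geo_small ((C - A) + (C - B)) hδ
  obtain ⟨e, he, h12, h13, h14⟩ : ∃ e : ℝ, 0 < e ∧ e ≤ e₁ ∧ e ≤ e₂ ∧ e ≤ e₃ :=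
    ⟨min e₁ (min e₂ e₃), lt_min he₁ (lt_min he₂ he₃), min_le_left _ _,
      (min_le_right _ _).trans (min_le_left _ _), (min_le_right _ _).trans (min_le_right _ _)⟩
  have hcr : cr (B - A) (C - A) ≠ 0 := h
  have hND : ND (A + e • ((A - B) + (A - C))) (B + e • ((B - A) + (B - C)))
      (C + e • ((C - A) + (C - B))) := by
    have e1 : cr (B + e • ((B - A) + (B - C)) - (A + e • ((A - B) + (A - C))))
        (C + e • ((C - A) + (C - B)) - (A + e • ((A - B) + (A - C)))) =
        (1 + 3 * e) ^ 2 * cr (B - A) (C - A) := by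
      simp only [cr_def, Prod.fst_sub, Prod.snd_sub, Prod.fst_add, Prod.snd_add, Prod.smul_fst,
        Prod.smul_snd, smul_eq_mul]
      ring
    unfold ND
    rw [e1]
    exact mul_ne_zero (by positivity) hcr
  refine ⟨_, _, _, hND, hnear _ _ _ ?_ ?_ ?_, ?_⟩
  · rw [dist_eq_norm, add_sub_cancel_left]; exact hs1 e he.le h12
  · rw [dist_eq_norm, add_sub_cancel_left]; exact hs2 e he.le h13
  · rw [dist_eq_norm, add_sub_cancel_left]; exact hs3 e he.le h14
  rintro z hz
  obtain ⟨α, β, γ, h1, h2, h3, h4, rfl⟩ := (tri_mem_iff A B C z).1 hz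
  rw [tri_interior _ _ _ _ hND]
  have hα : α = 1 - β - γ := by linarith
  refine ⟨(α + e) / (1 + 3 * e), (β + e) / (1 + 3 * e), (γ + e) / (1 + 3 * e), by positivity,
    by positivity, by positivity, ?_, ?_⟩
  · field_simp
    linear_combination h4
  · rw [hα]
    ext
    · simp only [Prod.fst_sub, Prod.fst_add, Prod.smul_fst, smul_eq_mul]
      field_simp
      ring
    · simp only [Prod.snd_sub, Prod.snd_add, Prod.smul_snd, smul_eq_mul]
      field_simp
      ring

end Pool.Agent.EDG
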