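import Pool.Agent.EDG.Pre

/-! Triangles: barycentric coordinates, interior, frontier, local structure. -/

set_option autoImplicit false

namespace Pool.Agent.EDG

open Set

/-- second barycentric coordinate -/
noncomputable def g1b (A B C z : Pl) : ℝ := cr (z - A) (C - A) / cr (B - A) (C - A)

/-- third barycentric coordinate -/
noncomputable def g1c (A B C z : Pl) : ℝ := cr (B - A) (z - A) / cr (B - A) (C - A)

/-- first barycentric coordinate -/
noncomputable def g1a (A B C z : Pl) : ℝ := 1 - g1b A B C z - g1c A B C z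

theorem g1b_continuous (A B C : Pl) : Continuous (g1b A B C) := by
  unfold g1b cr
  fun_prop

theorem g1c_continuous (A B C : Pl) : Continuous (g1c A B C) := by
  unfold g1c cr
  fun_prop

theorem g1a_continuous (A B C : Pl) : Continuous (g1a A B C) := by
  unfold g1a
  exact (continuous_const.sub (g1b_continuous A B C)).sub (g1c_continuous A B C)

theorem g1_eq {A B C : Pl} (h : ND A B C) (z : Pl) :
    z = g1a A B C z • A + g1b A B C z • B + g1c A B C z • C := by
  unfold ND at h
  have hD : cr (B - A) (C - A) ≠ 0 := h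
  unfold g1a g1b g1c
  ext
  · simp only [Prod.fst_add, Prod.smul_fst, smul_eq_mul]
    field_simp
    unfold cr
    simp only [Prod.fst_sub, Prod.snd_sub]
    ring
  · simp only [Prod.snd_add, Prod.smul_snd, smul_eq_mul]
    field_simp
    unfold cr
    simp only [Prod.fst_sub, Prod.snd_sub]
    ring

theorem g1b_eval {A B C : Pl} (h : ND A B C) {α β γ : ℝ} (hs : α + β + γ = 1) :
    g1b A B C (α • A + β • B + γ • C) = β := by
  have hD : cr (B - A) (C - A) ≠ 0 := h
  obtain rfl : α = 1 - β - γ := by linarith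
  unfold g1b
  rw [div_eq_iff hD]
  unfold cr
  simp only [Prod.fst_sub, Prod.snd_sub, Prod.fst_add, Prod.snd_add, Prod.smul_fst, Prod.smul_snd,
    smul_eq_mul]
  ring

theorem g1c_eval {A B C : Pl} (h : ND A B C) {α β γ : ℝ} (hs : α + β + γ = 1) :
    g1c A B C (α • A + β • B + γ • C) = γ := by
  have hD : cr (B - A) (C - A) ≠ 0 := h
  obtain rfl : α = 1 - β - γ := by linarith
  unfold g1c
  rw [div_eq_iff hD]
  unfold cr
  simp only [Prod.fst_sub, Prod.snd_sub, Prod.fst_add, Prod.snd_add, Prod.smul_fst, Prod.smul_snd,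
    smul_eq_mul]
  ring

theorem g1a_eval {A B C : Pl} (h : ND A B C) {α β γ : ℝ} (hs : α + β + γ = 1) :
    g1a A B C (α • A + β • B + γ • C) = α := by
  unfold g1a
  rw [g1b_eval h hs, g1c_eval h hs]
  linarith

theorem tri_mem_iff (A B C z : Pl) : z ∈ tri A B C ↔
    ∃ α β γ : ℝ, 0 ≤ α ∧ 0 ≤ β ∧ 0 ≤ γ ∧ α + β + γ = 1 ∧ z = α • A + β • B + γ • C := by
  unfold tri
  constructor
  · intro hz
    have hsub : convexHull ℝ {A, B, C} ⊆ {z : Pl | ∃ α β γ : ℝ, 0 ≤ α ∧ 0 ≤ β ∧ 0 ≤ γ ∧
        α + β + γ = 1 ∧ z = α • A + β • B + γ • C} := by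
      refine convexHull_min ?_ ?_
      · rintro w (rfl | rfl | rfl)
        · exact ⟨1, 0, 0, by norm_num, le_rfl, le_rfl, by norm_num, by simp⟩
        · exact ⟨0, 1, 0, le_rfl, by norm_num, le_rfl, by norm_num, by simp⟩
        · exact ⟨0, 0, 1, le_rfl, le_rfl, by norm_num, by norm_num, by simp⟩
      · rintro x ⟨a1, b1, c1, ha1, hb1, hc1, hs1, rfl⟩ y ⟨a2, b2, c2, ha2, hb2, hc2, hs2, rfl⟩ s t hs ht hst
        refine ⟨s * a1 + t * a2, s * b1 + t * b2, s * c1 + t * c2, by positivity, by positivity,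
          by positivity, ?_, ?_⟩
        · calc s * a1 + t * a2 + (s * b1 + t * b2) + (s * c1 + t * c2)
              = s * (a1 + b1 + c1) + t * (a2 + b2 + c2) := by ring
            _ = 1 := by rw [hs1, hs2]; linarith
        · module
    exact hsub hz
  · rintro ⟨α, β, γ, hα, hβ, hγ, hs, rfl⟩
    have hc := convex_convexHull ℝ ({A, B, C} : Set Pl)
    have hA : A ∈ convexHull ℝ ({A, B, C} : Set Pl) := subset_convexHull ℝ _ (by simp)
    have hB : B ∈ convexHull ℝ ({A, B, C} : Set Pl) := subset_convexHull ℝ _ (by simp)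
    have hC : C ∈ convexHull ℝ ({A, B, C} : Set Pl) := subset_convexHull ℝ _ (by simp)
    have h1 := hc.sum_mem (t := Finset.univ) (w := ![α, β, γ]) (z := ![A, B, C])
      (by intro i _; fin_cases i <;> simpa) (by simp [Fin.sum_univ_three, hs])
      (by intro i _; fin_cases i <;> simpa)
    simpa [Fin.sum_univ_three] using h1

theorem tri_compact (A B C : Pl) : IsCompact (tri A B C) :=
  (Set.toFinite ({A, B, C} : Set Pl)).isCompact_convexHull ℝ

theorem g1_mem {A B C : Pl} (h : ND A B C) (z : Pl) :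
    z ∈ tri A B C ↔ 0 ≤ g1a A B C z ∧ 0 ≤ g1b A B C z ∧ 0 ≤ g1c A B C z := by
  rw [tri_mem_iff]
  constructor
  · rintro ⟨α, β, γ, hα, hβ, hγ, hs, rfl⟩
    rw [g1a_eval h hs, g1b_eval h hs, g1c_eval h hs]
    exact ⟨hα, hβ, hγ⟩
  · rintro ⟨h1, h2, h3⟩
    exact ⟨_, _, _, h1, h2, h3, by unfold g1a; ring, g1_eq h z⟩

theorem g1_interior {A B C : Pl} (h : ND A B C) (z : Pl) :
    z ∈ interior (tri A B C) ↔ 0 < g1a A B C z ∧ 0 < g1b A B C z ∧ 0 < g1c A B C z := by
  constructor
  · intro hz
    have hD : cr (B - A) (C - A) ≠ 0 := h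
    have key : ∀ v : Pl, ∃ s : ℝ, 0 < s ∧ z + s • v ∈ tri A B C := by
      intro v
      have hn : tri A B C ∈ nhds z := mem_interior_iff_mem_nhds.mp hz
      have hc : Filter.Tendsto (fun s : ℝ => z + s • v) (nhdsWithin 0 (Ioi 0)) (nhds z) := by
        have : Continuous (fun s : ℝ => z + s • v) := by fun_prop
        have h0 := this.tendsto 0
        simp only [zero_smul, add_zero] at h0
        exact h0.mono_left nhdsWithin_le_nhds
      have he := (hc.eventually hn).and self_mem_nhdsWithin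
      obtain ⟨s, hs1, hs2⟩ := he.exists
      exact ⟨s, hs2, hs1⟩
    have hB : ∀ (s : ℝ) (v : Pl), g1b A B C (z + s • v) = g1b A B C z + s * (cr v (C - A) /
        cr (B - A) (C - A)) := by
      intro s v
      unfold g1b
      field_simp
      unfold cr
      simp only [Prod.fst_sub, Prod.snd_sub, Prod.fst_add, Prod.snd_add, Prod.smul_fst,
        Prod.smul_snd, smul_eq_mul]
      ring
    have hC : ∀ (s : ℝ) (v : Pl), g1c A B C (z + s • v) = g1c A B C z + s * (cr (B - A) v /
        cr (B - A) (C - A)) := by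
      intro s v
      unfold g1c
      field_simp
      unfold cr
      simp only [Prod.fst_sub, Prod.snd_sub, Prod.fst_add, Prod.snd_add, Prod.smul_fst,
        Prod.smul_snd, smul_eq_mul]
      ring
    have e1 : cr (A - B) (C - A) / cr (B - A) (C - A) = -1 := by
      rw [div_eq_iff hD]; unfold cr; simp only [Prod.fst_sub, Prod.snd_sub]; ring
    have e2 : cr (B - A) (A - B) / cr (B - A) (C - A) = 0 := by
      rw [div_eq_iff hD]; unfold cr; simp only [Prod.fst_sub, Prod.snd_sub]; ring
    have e3 : cr (A - C) (C - A) / cr (B - A) (C - A) = 0 := by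
      rw [div_eq_iff hD]; unfold cr; simp only [Prod.fst_sub, Prod.snd_sub]; ring
    have e4 : cr (B - A) (A - C) / cr (B - A) (C - A) = -1 := by
      rw [div_eq_iff hD]; unfold cr; simp only [Prod.fst_sub, Prod.snd_sub]; ring
    have e5 : cr (B - A) (C - A) / cr (B - A) (C - A) = 1 := div_self hD
    have e6 : cr (B - A) (B - A) / cr (B - A) (C - A) = 0 := by
      rw [div_eq_iff hD]; unfold cr; simp only [Prod.fst_sub, Prod.snd_sub]; ring
    refine ⟨?_, ?_, ?_⟩
    · obtain ⟨s, hs, hm⟩ := key (B - A)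
      have h1 := ((g1_mem h _).mp hm).1
      unfold g1a at h1 ⊢
      rw [hB, hC, e5, e6] at h1
      linarith
    · obtain ⟨s, hs, hm⟩ := key (A - B)
      have h1 := ((g1_mem h _).mp hm).2.1
      rw [hB, e1] at h1
      linarith
    · obtain ⟨s, hs, hm⟩ := key (A - C)
      have h1 := ((g1_mem h _).mp hm).2.2
      rw [hC, e4] at h1
      linarith
  · rintro ⟨h1, h2, h3⟩
    rw [mem_interior]
    refine ⟨{w | 0 < g1a A B C w ∧ 0 < g1b A B C w ∧ 0 < g1c A B C w}, ?_, ?_, ⟨h1, h2, h3⟩⟩
    · rintro w ⟨k1, k2, k3⟩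
      exact (g1_mem h w).mpr ⟨k1.le, k2.le, k3.le⟩
    · exact (isOpen_lt continuous_const (g1a_continuous A B C)).inter
        ((isOpen_lt continuous_const (g1b_continuous A B C)).inter
          (isOpen_lt continuous_const (g1c_continuous A B C)))

theorem tri_interior (A B C z : Pl) (h : ND A B C) : z ∈ interior (tri A B C) ↔
    ∃ α β γ : ℝ, 0 < α ∧ 0 < β ∧ 0 < γ ∧ α + β + γ = 1 ∧ z = α • A + β • B + γ • C := by
  rw [g1_interior h]
  constructor
  · rintro ⟨h1, h2, h3⟩
    exact ⟨_, _, _, h1, h2, h3, by unfold g1a; ring, g1_eq h z⟩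
  · rintro ⟨α, β, γ, hα, hβ, hγ, hs, rfl⟩
    rw [g1a_eval h hs, g1b_eval h hs, g1c_eval h hs]
    exact ⟨hα, hβ, hγ⟩

theorem tri_frontier (A B C : Pl) (h : ND A B C) : frontier (tri A B C) =
    segment ℝ A B ∪ segment ℝ B C ∪ segment ℝ C A := by
  rw [(tri_compact A B C).isClosed.frontier_eq]
  ext z
  rw [mem_sdiff, g1_interior h, g1_mem h]
  have hseg : ∀ (P Q R : Pl) (x y : ℝ), 0 ≤ x → 0 ≤ y → x + y = 1 → z = x • P + y • Q →
      z ∈ segment ℝ P Q := fun P Q R x y hx hy hxy hz => ⟨x, y, hx, hy, hxy, hz.symm⟩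
  constructor
  · rintro ⟨⟨h1, h2, h3⟩, h4⟩
    have hz := g1_eq h z
    have hs : g1a A B C z + g1b A B C z + g1c A B C z = 1 := by unfold g1a; ring
    by_cases hc : g1c A B C z = 0
    · rw [hc] at hz hs
      left; left
      exact hseg A B C _ _ h1 h2 (by linarith) (by rw [zero_smul, add_zero] at hz; exact hz)
    · by_cases ha : g1a A B C z = 0
      · rw [ha] at hz hs
        left; right
        exact hseg B C A _ _ h2 h3 (by linarith) (by rw [zero_smul, zero_add] at hz; exact hz)
      · have hb : g1b A B C z = 0 := by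
          by_contra hb
          exact h4 ⟨lt_of_le_of_ne h1 (Ne.symm ha), lt_of_le_of_ne h2 (Ne.symm hb),
            lt_of_le_of_ne h3 (Ne.symm hc)⟩
        rw [hb] at hz hs
        right
        exact hseg C A B _ _ h3 h1 (by linarith)
          (by rw [zero_smul, add_zero] at hz; rw [add_comm]; exact hz)
  · rintro ((⟨x, y, hx, hy, hxy, rfl⟩ | ⟨x, y, hx, hy, hxy, rfl⟩) | ⟨x, y, hx, hy, hxy, rfl⟩)
    · have e : x • A + y • B = x • A + y • B + (0 : ℝ) • C := by simp
      have hs : x + y + 0 = 1 := by linarith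
      rw [e, g1a_eval h hs, g1b_eval h hs, g1c_eval h hs]
      exact ⟨⟨hx, hy, le_rfl⟩, fun hh => lt_irrefl _ hh.2.2⟩
    · have e : x • B + y • C = (0 : ℝ) • A + x • B + y • C := by simp
      have hs : 0 + x + y = 1 := by linarith
      rw [e, g1a_eval h hs, g1b_eval h hs, g1c_eval h hs]
      exact ⟨⟨le_rfl, hx, hy⟩, fun hh => lt_irrefl _ hh.1⟩
    · have e : x • C + y • A = y • A + (0 : ℝ) • B + x • C := by
        rw [zero_smul, add_zero, add_comm]
      have hs : y + 0 + x = 1 := by linarith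
      rw [e, g1a_eval h hs, g1b_eval h hs, g1c_eval h hs]
      exact ⟨⟨hy, le_rfl, hx⟩, fun hh => lt_irrefl _ hh.2.1⟩

/-- Near a corner a triangle is a cone. -/
theorem loc_corner (A B C : Pl) (h : ND A B C) (O : Set Pl) (hO : IsClosed O)
    (hd : Disjoint O (tri A B C)) : ∃ n K, Loc (O ∪ tri A B C) A n K := by
  have hD : cr (B - A) (C - A) ≠ 0 := h
  refine ⟨-((B - A) + (C - A)), {v | 0 ≤ cr v (C - A) / cr (B - A) (C - A) ∧
    0 ≤ cr (B - A) v / cr (B - A) (C - A)}, ?_⟩
  have hrep : ∀ v : Pl, v = (cr v (C - A) / cr (B - A) (C - A)) • (B - A) +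
      (cr (B - A) v / cr (B - A) (C - A)) • (C - A) := by
    intro v
    ext
    · simp only [Prod.fst_add, Prod.smul_fst, smul_eq_mul]
      field_simp
      unfold cr
      simp only [Prod.fst_sub, Prod.snd_sub]
      ring
    · simp only [Prod.snd_add, Prod.smul_snd, smul_eq_mul]
      field_simp
      unfold cr
      simp only [Prod.fst_sub, Prod.snd_sub]
      ring
  have hadd1 : ∀ a b : Pl, cr (a + b) (C - A) = cr a (C - A) + cr b (C - A) := by
    intro a b; unfold cr; simp only [Prod.fst_add, Prod.snd_add]; ring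
  have hadd2 : ∀ a b : Pl, cr (B - A) (a + b) = cr (B - A) a + cr (B - A) b := by
    intro a b; unfold cr; simp only [Prod.fst_add, Prod.snd_add]; ring
  have hsm1 : ∀ (s : ℝ) (a : Pl), cr (s • a) (C - A) = s * cr a (C - A) := by
    intro s a; unfold cr; simp only [Prod.smul_fst, Prod.smul_snd, smul_eq_mul]; ring
  have hsm2 : ∀ (s : ℝ) (a : Pl), cr (B - A) (s • a) = s * cr (B - A) a := by
    intro s a; unfold cr; simp only [Prod.smul_fst, Prod.smul_snd, smul_eq_mul]; ring
  have hneg1 : ∀ a : Pl, cr (-a) (C - A) = - cr a (C - A) := by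
    intro a; unfold cr; simp only [Prod.fst_neg, Prod.snd_neg]; ring
  have hneg2 : ∀ a : Pl, cr (B - A) (-a) = - cr (B - A) a := by
    intro a; unfold cr; simp only [Prod.fst_neg, Prod.snd_neg]; ring
  have c1 : Continuous (fun v : Pl => cr v (C - A) / cr (B - A) (C - A)) := by
    unfold cr; fun_prop
  have c2 : Continuous (fun v : Pl => cr (B - A) v / cr (B - A) (C - A)) := by
    unfold cr; fun_prop
  constructor
  · exact (isClosed_le continuous_const c1).inter (isClosed_le continuous_const c2)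
  · rintro a ⟨ha1, ha2⟩ b ⟨hb1, hb2⟩
    constructor
    · rw [hadd1, add_div]; exact add_nonneg ha1 hb1
    · rw [hadd2, add_div]; exact add_nonneg ha2 hb2
  · rintro a ⟨ha1, ha2⟩ s hs
    constructor
    · rw [hsm1, mul_div_assoc]; exact mul_nonneg hs ha1
    · rw [hsm2, mul_div_assoc]; exact mul_nonneg hs ha2
  · rintro a ⟨ha1, ha2⟩ ⟨hb1, hb2⟩
    rw [hneg1, neg_div] at hb1
    rw [hneg2, neg_div] at hb2
    rw [hrep a, show cr a (C - A) / cr (B - A) (C - A) = 0 by linarith,
      show cr (B - A) a / cr (B - A) (C - A) = 0 by linarith]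
    simp
  · have e1 : cr (B - A + (C - A)) (C - A) = cr (B - A) (C - A) := by
      unfold cr; simp only [Prod.fst_sub, Prod.snd_sub, Prod.fst_add, Prod.snd_add]; ring
    have e2 : cr (B - A) (B - A + (C - A)) = cr (B - A) (C - A) := by
      unfold cr; simp only [Prod.fst_sub, Prod.snd_sub, Prod.fst_add, Prod.snd_add]; ring
    rw [neg_neg]
    constructor
    · rw [e1, div_self hD]; norm_num
    · rw [e2, div_self hD]; norm_num
  · intro h0
    apply hD
    have h1 : B - A = -(C - A) := by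
      have := neg_eq_zero.mp h0
      exact eq_neg_of_add_eq_zero_left this
    rw [h1]
    unfold cr; simp only [Prod.fst_neg, Prod.snd_neg]; ring
  · have hA : A ∉ O := fun hA => (disjoint_left.mp hd hA) (by
      rw [tri_mem_iff]; exact ⟨1, 0, 0, by norm_num, le_rfl, le_rfl, by norm_num, by simp⟩)
    have ho : IsOpen (Oᶜ ∩ {z | 0 < g1a A B C z}) :=
      hO.isOpen_compl.inter (isOpen_lt continuous_const (g1a_continuous A B C))
    have hm : A ∈ Oᶜ ∩ {z | 0 < g1a A B C z} := by
      refine ⟨hA, ?_⟩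
      show 0 < g1a A B C A
      unfold g1a g1b g1c
      rw [sub_self]
      unfold cr
      simp
    obtain ⟨ε, hε, hball⟩ := Metric.isOpen_iff.mp ho A hm
    refine ⟨ε, hε, fun z hz => ?_⟩
    have hz' := hball (Metric.mem_ball.mpr hz)
    have hzO : z ∉ O := hz'.1
    have hza : 0 < g1a A B C z := hz'.2
    constructor
    · rintro (hh | hh)
      · exact absurd hh hzO
      · have := (g1_mem h z).mp hh
        exact ⟨this.2.1, this.2.2⟩
    · rintro ⟨k1, k2⟩
      right
      exact (g1_mem h z).mpr ⟨hza.le, k1, k2⟩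

/-- Near an endpoint a segment is a ray. -/
theorem loc_end (A X : Pl) (h : A ≠ X) (F : Set Pl) (hF : IsClosed F) (hX : X ∉ F) :
    ∃ n K, Loc (F ∪ segment ℝ A X) X n K := by
  have hv : A - X ≠ 0 := sub_ne_zero.mpr h
  refine ⟨X - A, {w | ∃ s : ℝ, 0 ≤ s ∧ w = s • (A - X)}, ?_⟩
  have hpos : 0 < (A - X).1 ^ 2 + (A - X).2 ^ 2 := by
    by_contra hc
    apply hv
    have h1 : (A - X).1 ^ 2 = 0 := by nlinarith [sq_nonneg (A - X).1, sq_nonneg (A - X).2]
    have h2 : (A - X).2 ^ 2 = 0 := by nlinarith [sq_nonneg (A - X).1, sq_nonneg (A - X).2]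
    ext
    · exact pow_eq_zero_iff (two_ne_zero) |>.mp h1
    · exact pow_eq_zero_iff (two_ne_zero) |>.mp h2
  constructor
  · have : {w : Pl | ∃ s : ℝ, 0 ≤ s ∧ w = s • (A - X)} =
        {w | cr (A - X) w = 0} ∩ {w | 0 ≤ (A - X).1 * w.1 + (A - X).2 * w.2} := by
      ext w
      constructor
      · rintro ⟨s, hs, rfl⟩
        constructor
        · show cr (A - X) (s • (A - X)) = 0
          unfold cr; simp only [Prod.smul_fst, Prod.smul_snd, smul_eq_mul]; ring
        · show 0 ≤ (A - X).1 * (s • (A - X)).1 + (A - X).2 * (s • (A - X)).2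
          simp only [Prod.smul_fst, Prod.smul_snd, smul_eq_mul]
          nlinarith
      · rintro ⟨h1, h2⟩
        have h1' : (A - X).1 * w.2 - (A - X).2 * w.1 = 0 := h1
        have h2' : 0 ≤ (A - X).1 * w.1 + (A - X).2 * w.2 := h2
        refine ⟨((A - X).1 * w.1 + (A - X).2 * w.2) / ((A - X).1 ^ 2 + (A - X).2 ^ 2),
          div_nonneg h2' hpos.le, ?_⟩
        ext
        · simp only [Prod.smul_fst, smul_eq_mul]
          rw [div_mul_eq_mul_div, eq_div_iff hpos.ne']
          linear_combination (-(A - X).2) * h1'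
        · simp only [Prod.smul_snd, smul_eq_mul]
          rw [div_mul_eq_mul_div, eq_div_iff hpos.ne']
          linear_combination ((A - X).1) * h1'
    rw [this]
    refine IsClosed.inter (isClosed_eq ?_ continuous_const) (isClosed_le continuous_const ?_)
    · unfold cr; fun_prop
    · fun_prop
  · rintro a ⟨s, hs, rfl⟩ b ⟨t, ht, rfl⟩
    exact ⟨s + t, add_nonneg hs ht, by rw [add_smul]⟩
  · rintro a ⟨s, hs, rfl⟩ t ht
    exact ⟨t * s, mul_nonneg ht hs, by rw [mul_smul]⟩
  · rintro a ⟨s, hs, rfl⟩ ⟨t, ht, h2⟩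
    have h3 : (s + t) • (A - X) = 0 := by
      rw [add_smul, ← h2]; simp
    rcases smul_eq_zero.mp h3 with h4 | h4
    · have : s = 0 := by linarith
      rw [this, zero_smul]
    · exact absurd h4 hv
  · exact ⟨1, by norm_num, by rw [one_smul]; abel⟩
  · intro h0
    exact h (sub_eq_zero.mp h0).symm
  · obtain ⟨ε, hε, hball⟩ := Metric.isOpen_iff.mp hF.isOpen_compl X hX
    refine ⟨min ε (dist A X), lt_min hε (dist_pos.mpr h), fun z hz => ?_⟩
    have hz1 : z ∉ F := hball (Metric.mem_ball.mpr (lt_of_lt_of_le hz (min_le_left _ _)))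
    have hz2 : dist z X < dist A X := lt_of_lt_of_le hz (min_le_right _ _)
    constructor
    · rintro (hh | hh)
      · exact absurd hh hz1
      · obtain ⟨x, y, hx, hy, hxy, rfl⟩ := hh
        refine ⟨x, hx, ?_⟩
        obtain rfl : y = 1 - x := by linarith
        module
    · rintro ⟨s, hs, hs2⟩
      right
      have hz3 : z = s • A + (1 - s) • X := by
        have : z = X + s • (A - X) := by rw [← hs2]; abel
        rw [this]; module
      have hs1 : s < 1 := by
        by_contra hc
        have hc' : 1 ≤ s := not_lt.mp hc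
        have : dist z X = s * dist A X := by
          rw [dist_eq_norm, dist_eq_norm, hs2, norm_smul, Real.norm_of_nonneg hs]
        rw [this] at hz2
        nlinarith [dist_pos.mpr h]
      exact ⟨s, 1 - s, hs, by linarith, by ring, hz3.symm⟩

end Pool.Agent.EDG
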