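import Pool.Agent.EDG.PLB

/-! # Module CONE: tent homeomorphisms -/

set_option autoImplicit false

namespace Pool.Agent.EDG

open Set Filter Topology

namespace Cone

/-! ### one-sided affine germs -/

/-- right germ -/
def RA {E : Type} [AddCommGroup E] [Module ℝ E] (f : ℝ → E) (t : ℝ) : Prop :=
  ∃ w : E, ∀ᶠ s in 𝓝[>] t, f s = f t + (s - t) • w

/-- left germ -/
def LA {E : Type} [AddCommGroup E] [Module ℝ E] (f : ℝ → E) (t : ℝ) : Prop :=
  ∃ w : E, ∀ᶠ s in 𝓝[<] t, f s = f t + (s - t) • w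

theorem ev_lt {l : Filter ℝ} {t : ℝ} (hl : l ≤ 𝓝 t) {a b p q : ℝ} (h : a < b) :
    ∀ᶠ s in l, a + (s - t) * p < b + (s - t) * q := by
  have h1 : ContinuousAt (fun s : ℝ => a + (s - t) * p) t := by fun_prop
  have h2 : ContinuousAt (fun s : ℝ => b + (s - t) * q) t := by fun_prop
  have := h1.eventually_lt h2 (by simpa using h)
  exact hl this

theorem RA.min {f g : ℝ → ℝ} {t : ℝ} (hf : RA f t) (hg : RA g t) :
    RA (fun s => min (f s) (g s)) t := by
  obtain ⟨a, ha⟩ := hf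
  obtain ⟨b, hb⟩ := hg
  rcases lt_trichotomy (f t) (g t) with h | h | h
  · refine ⟨a, ?_⟩
    filter_upwards [ha, hb, ev_lt (p := a) (q := b) nhdsWithin_le_nhds h] with s h1 h2 h3
    simp only [smul_eq_mul] at *
    rw [h1, h2, min_eq_left h3.le, min_eq_left h.le]
  · refine ⟨Min.min a b, ?_⟩
    filter_upwards [ha, hb, self_mem_nhdsWithin] with s h1 h2 h3
    have h3' : 0 ≤ s - t := sub_nonneg.2 (le_of_lt h3)
    simp only [smul_eq_mul] at *
    rw [h1, h2, h, min_self, min_add_add_left, mul_min_of_nonneg _ _ h3']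
  · refine ⟨b, ?_⟩
    filter_upwards [ha, hb, ev_lt (p := b) (q := a) nhdsWithin_le_nhds h] with s h1 h2 h3
    simp only [smul_eq_mul] at *
    rw [h1, h2, min_eq_right h3.le, min_eq_right h.le]

theorem RA.neg {f : ℝ → ℝ} {t : ℝ} (hf : RA f t) : RA (fun s => -f s) t := by
  obtain ⟨a, ha⟩ := hf
  refine ⟨-a, ?_⟩
  filter_upwards [ha] with s h1
  simp only [smul_eq_mul] at *
  rw [h1]; ring

theorem RA.max {f g : ℝ → ℝ} {t : ℝ} (hf : RA f t) (hg : RA g t) :
    RA (fun s => max (f s) (g s)) t := by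
  have h := (hf.neg.min hg.neg).neg
  have e : (fun s => -Min.min (-f s) (-g s)) = fun s => Max.max (f s) (g s) := by
    funext s; rw [min_neg_neg, neg_neg]
  rwa [e] at h

/-- reflecting a germ -/
theorem LA_iff {E : Type} [AddCommGroup E] [Module ℝ E] (f : ℝ → E) (t : ℝ) :
    LA f t ↔ RA (fun s => f (-s)) (-t) := by
  constructor
  · rintro ⟨w, hw⟩
    refine ⟨-w, ?_⟩
    have h : Tendsto (fun s : ℝ => -s) (𝓝[>] (-t)) (𝓝[<] t) := by
      have := tendsto_neg_nhdsGT (a := -t)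
      simpa using this
    filter_upwards [h.eventually hw] with s hs
    simp only [neg_neg]
    rw [hs, smul_neg, ← neg_smul]
    congr 2
    ring
  · rintro ⟨w, hw⟩
    refine ⟨-w, ?_⟩
    have h : Tendsto (fun s : ℝ => -s) (𝓝[<] t) (𝓝[>] (-t)) := tendsto_neg_nhdsLT (a := t)
    filter_upwards [h.eventually hw] with s hs
    simp only [neg_neg] at hs
    rw [hs, smul_neg, ← neg_smul]
    congr 2
    ring

/-- both germs -/
def PA {E : Type} [AddCommGroup E] [Module ℝ E] (f : ℝ → E) : Prop :=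
  ∀ t, RA f t ∧ LA f t

theorem PA.of_right {f : ℝ → ℝ} (h : ∀ t, RA f t) (h' : ∀ t, RA (fun s => f (-s)) t) :
    PA f := fun t => ⟨h t, (LA_iff f t).2 (h' (-t))⟩

theorem PA.refl {f : ℝ → ℝ} (h : PA f) (t : ℝ) : RA (fun s => f (-s)) t := by
  have := (LA_iff f (-t)).1 (h (-t)).2
  rwa [neg_neg] at this

theorem PA.min {f g : ℝ → ℝ} (hf : PA f) (hg : PA g) : PA (fun s => min (f s) (g s)) :=
  PA.of_right (fun t => (hf t).1.min (hg t).1) (fun t => (hf.refl t).min (hg.refl t))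

theorem PA.max {f g : ℝ → ℝ} (hf : PA f) (hg : PA g) : PA (fun s => max (f s) (g s)) :=
  PA.of_right (fun t => (hf t).1.max (hg t).1) (fun t => (hf.refl t).max (hg.refl t))

theorem PA.affine (a b : ℝ) : PA (fun s => a + s * b) := fun t =>
  ⟨⟨b, Eventually.of_forall (fun s => by simp only [smul_eq_mul]; ring)⟩,
    ⟨b, Eventually.of_forall (fun s => by simp only [smul_eq_mul]; ring)⟩⟩

theorem PA.path {f : ℝ → ℝ} (hf : PA f) (u v w : Pl) : PA (fun s => u + s • v + f s • w) := by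
  intro t
  constructor
  · obtain ⟨a, ha⟩ := (hf t).1
    refine ⟨v + a • w, ?_⟩
    filter_upwards [ha] with s hs
    rw [hs]
    simp only [smul_eq_mul]
    module
  · obtain ⟨a, ha⟩ := (hf t).2
    refine ⟨v + a • w, ?_⟩
    filter_upwards [ha] with s hs
    rw [hs]
    simp only [smul_eq_mul]
    module

/-! ### from germs to polygonal arcs -/

theorem image_affine {f : ℝ → Pl} {a b : ℝ} (hab : a < b) {w : Pl}
    (h : ∀ s ∈ Icc a b, f s = f a + (s - a) • w) : f '' Icc a b = segment ℝ (f a) (f b) := by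
  have hb : f b = f a + (b - a) • w := h b ⟨hab.le, le_rfl⟩
  rw [segment_eq_image', hb]
  have hpos : 0 < b - a := sub_pos.2 hab
  ext z
  constructor
  · rintro ⟨s, hs, rfl⟩
    refine ⟨(s - a) / (b - a), ⟨div_nonneg (by linarith [hs.1]) hpos.le,
      (div_le_one hpos).2 (by linarith [hs.2])⟩, ?_⟩
    rw [h s hs]
    simp only [add_sub_cancel_left]
    rw [smul_smul, div_mul_cancel₀ _ hpos.ne']
  · rintro ⟨θ, hθ, rfl⟩
    refine ⟨a + θ * (b - a), ⟨by nlinarith [hθ.1], by nlinarith [hθ.2]⟩, ?_⟩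
    rw [h _ ⟨by nlinarith [hθ.1], by nlinarith [hθ.2]⟩]
    simp only [add_sub_cancel_left]
    rw [smul_smul]

theorem polyArc_of_PA {f : ℝ → Pl} (hf : PA f) (hinj : InjOn f (Icc 0 1)) :
    PolyArc (f 0) (f 1) (f '' Icc 0 1) := by
  set P : ℝ → Prop := fun t => PolyArc (f 0) (f t) (f '' Icc 0 t) with hP
  -- adding an affine piece
  have hadd : ∀ a b, 0 ≤ a → a < b → b ≤ 1 → (0 < a → P a) →
      (∃ w : Pl, ∀ s ∈ Icc a b, f s = f a + (s - a) • w) → P b := by
    intro a b ha hab hb hPa ⟨w, hw⟩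
    have hne : f a ≠ f b := fun h => hab.ne (hinj ⟨ha, by linarith⟩ ⟨by linarith, hb⟩ h)
    have hseg := image_affine hab hw
    rcases ha.eq_or_lt with h0 | h0
    · subst h0
      show PolyArc (f 0) (f b) (f '' Icc 0 b)
      rw [hseg]
      exact PolyArc.single _ _ hne
    · show PolyArc (f 0) (f b) (f '' Icc 0 b)
      have h1 := hPa h0
      have h2 : PolyArc (f a) (f b) (f '' Icc a b) := by
        rw [hseg]; exact PolyArc.single _ _ hne
      have h3 : f '' Icc 0 a ∩ f '' Icc a b = {f a} := by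
        ext z
        constructor
        · rintro ⟨⟨s, hs, rfl⟩, ⟨s', hs', h⟩⟩
          have : s' = s := hinj ⟨by linarith [hs'.1], by linarith [hs'.2]⟩
            ⟨hs.1, by linarith [hs.2]⟩ h
          subst this
          have : s' = a := le_antisymm hs.2 hs'.1
          subst this
          rfl
        · rintro rfl
          exact ⟨⟨a, ⟨ha, le_rfl⟩, rfl⟩, ⟨a, ⟨le_rfl, hab.le⟩, rfl⟩⟩
      have h4 := h1.concat h2 h3
      rwa [← image_union, Icc_union_Icc_eq_Icc ha hab.le] at h4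
  set S : Set ℝ := {t | 0 ≤ t ∧ t ≤ 1 ∧ ∀ s, 0 < s → s ≤ t → P s} with hS
  have h0S : (0 : ℝ) ∈ S := ⟨le_rfl, zero_le_one, fun s h1 h2 => absurd h1 (not_lt.2 h2)⟩
  have hbdd : BddAbove S := ⟨1, fun t ht => ht.2.1⟩
  set c := sSup S with hc
  have hc0 : 0 ≤ c := le_csSup hbdd h0S
  have hc1 : c ≤ 1 := csSup_le ⟨0, h0S⟩ (fun t ht => ht.2.1)
  have hlt : ∀ s, 0 < s → s < c → P s := by
    intro s hs hsc
    obtain ⟨t, ht, hst⟩ := exists_lt_of_lt_csSup ⟨0, h0S⟩ hsc
    exact ht.2.2 s hs hst.le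
  have hPc : 0 < c → P c := by
    intro hcpos
    obtain ⟨w, hw⟩ := (hf c).2
    obtain ⟨a, ha, ha'⟩ := (mem_nhdsLT_iff_exists_Ioo_subset).1 hw
    have ha'' : a < c := ha
    set a1 := (max a 0 + c) / 2 with ha1
    have hm1 : max a 0 < c := max_lt ha'' hcpos
    have hm2 : 0 ≤ max a 0 := le_max_right _ _
    have hm3 : a ≤ max a 0 := le_max_left _ _
    have h1 : a < a1 := by rw [ha1]; linarith
    have h2 : a1 < c := by rw [ha1]; linarith
    have h3 : 0 < a1 := by rw [ha1]; linarith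
    have key : ∀ s, a < s → s ≤ c → f s = f c + (s - c) • w := by
      intro s hs1 hs2
      rcases hs2.eq_or_lt with h | h
      · rw [h]; simp
      · exact ha' ⟨hs1, h⟩
    refine hadd a1 c h3.le h2 hc1 (fun h => hlt a1 h h2) ⟨w, fun s hs => ?_⟩
    rw [key s (by linarith [hs.1]) hs.2, key a1 h1 h2.le]
    module
  have hcS : c ∈ S := ⟨hc0, hc1, fun s hs1 hs2 => by
    rcases hs2.eq_or_lt with h | h
    · subst h; exact hPc hs1
    · exact hlt s hs1 h⟩
  have hc_eq : c = 1 := by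
    by_contra hne
    have hclt : c < 1 := lt_of_le_of_ne hc1 hne
    obtain ⟨w, hw⟩ := (hf c).1
    obtain ⟨b, hb, hb'⟩ := (mem_nhdsGT_iff_exists_Ioo_subset).1 hw
    have hb'' : c < b := hb
    set b1 := (min b 1 + c) / 2 with hb1
    have hm1 : c < min b 1 := lt_min hb'' hclt
    have hm2 : min b 1 ≤ 1 := min_le_right _ _
    have hm3 : min b 1 ≤ b := min_le_left _ _
    have h1 : b1 < b := by rw [hb1]; linarith
    have h2 : c < b1 := by rw [hb1]; linarith
    have h3 : b1 ≤ 1 := by rw [hb1]; linarith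
    have key : ∀ s, c ≤ s → s < b → f s = f c + (s - c) • w := by
      intro s hs1 hs2
      rcases hs1.eq_or_lt with h | h
      · rw [← h]; simp
      · exact hb' ⟨h, hs2⟩
    have hb1S : b1 ∈ S := by
      refine ⟨by linarith, h3, fun s hs1 hs2 => ?_⟩
      by_cases hsc : s ≤ c
      · exact hcS.2.2 s hs1 hsc
      · push Not at hsc
        exact hadd c s hc0 hsc (by linarith) hPc
          ⟨w, fun r hr => key r hr.1 (by linarith [hr.2])⟩
    have := le_csSup hbdd hb1S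
    linarith
  have := hcS.2.2 1 one_pos hc_eq.ge
  exact this

/-! ### the tent map -/

/-- the tent function -/
noncomputable def tau (ℓ : Fin 3 → Pl →ᵃ[ℝ] ℝ) (y z : Pl) : ℝ :=
  max 0 (min (min (ℓ 0 z / ℓ 0 y) (ℓ 1 z / ℓ 1 y)) (ℓ 2 z / ℓ 2 y))

variable {ℓ : Fin 3 → Pl →ᵃ[ℝ] ℝ} {y : Pl}

theorem tau_nonneg (z : Pl) : 0 ≤ tau ℓ y z := le_max_left _ _

theorem tau_eq_zero (hy : ∀ i, 0 < ℓ i y) {z : Pl} (h : ∃ i, ℓ i z ≤ 0) : tau ℓ y z = 0 := by
  obtain ⟨i, hi⟩ := h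
  have h1 : ℓ i z / ℓ i y ≤ 0 := div_nonpos_of_nonpos_of_nonneg hi (hy i).le
  unfold tau
  apply max_eq_left
  fin_cases i
  · exact (min_le_left _ _).trans ((min_le_left _ _).trans h1)
  · exact (min_le_left _ _).trans ((min_le_right _ _).trans h1)
  · exact (min_le_right _ _).trans h1

theorem tau_eq (hy : ∀ i, 0 < ℓ i y) {z : Pl} {t : ℝ} (ht : 0 ≤ t) (h1 : ∀ i, t * ℓ i y ≤ ℓ i z)
    (h2 : ∃ i, ℓ i z = t * ℓ i y) : tau ℓ y z = t := by
  have h1' : ∀ i, t ≤ ℓ i z / ℓ i y := fun i => (le_div_iff₀ (hy i)).2 (h1 i)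
  obtain ⟨i, hi⟩ := h2
  have h2' : ℓ i z / ℓ i y = t := by rw [hi, mul_div_assoc, div_self (hy i).ne', mul_one]
  have h3 : min (min (ℓ 0 z / ℓ 0 y) (ℓ 1 z / ℓ 1 y)) (ℓ 2 z / ℓ 2 y) = t := by
    apply le_antisymm
    · fin_cases i
      · exact (min_le_left _ _).trans ((min_le_left _ _).trans h2'.le)
      · exact (min_le_left _ _).trans ((min_le_right _ _).trans h2'.le)
      · exact (min_le_right _ _).trans h2'.le
    · exact le_min (le_min (h1' 0) (h1' 1)) (h1' 2)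
  unfold tau
  rw [h3, max_eq_right ht]

/-- either some `ℓ i z ≤ 0` (and `tau = 0`) or `tau` is characterised by inequalities -/
theorem tau_cases (hy : ∀ i, 0 < ℓ i y) (z : Pl) :
    (tau ℓ y z = 0 ∧ ∃ i, ℓ i z ≤ 0) ∨
    ((∀ i, tau ℓ y z * ℓ i y ≤ ℓ i z) ∧ ∃ i, ℓ i z = tau ℓ y z * ℓ i y) := by
  by_cases h : ∃ i, ℓ i z ≤ 0
  · exact Or.inl ⟨tau_eq_zero hy h, h⟩
  · push Not at h
    right
    set m := min (min (ℓ 0 z / ℓ 0 y) (ℓ 1 z / ℓ 1 y)) (ℓ 2 z / ℓ 2 y) with hm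
    have hpos : ∀ i, 0 < ℓ i z / ℓ i y := fun i => div_pos (h i) (hy i)
    have hmpos : 0 < m := lt_min (lt_min (hpos 0) (hpos 1)) (hpos 2)
    have htau : tau ℓ y z = m := by unfold tau; rw [← hm, max_eq_right hmpos.le]
    rw [htau]
    have hle : ∀ i, m ≤ ℓ i z / ℓ i y := by
      intro i
      fin_cases i
      · exact (min_le_left _ _).trans (min_le_left _ _)
      · exact (min_le_left _ _).trans (min_le_right _ _)
      · exact min_le_right _ _
    refine ⟨fun i => (le_div_iff₀ (hy i)).1 (hle i), ?_⟩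
    have hex : ∃ i, m = ℓ i z / ℓ i y := by
      rcases min_choice (min (ℓ 0 z / ℓ 0 y) (ℓ 1 z / ℓ 1 y)) (ℓ 2 z / ℓ 2 y) with h1 | h1
      · rcases min_choice (ℓ 0 z / ℓ 0 y) (ℓ 1 z / ℓ 1 y) with h2 | h2
        · exact ⟨0, by rw [hm, h1, h2]⟩
        · exact ⟨1, by rw [hm, h1, h2]⟩
      · exact ⟨2, by rw [hm, h1]⟩
    obtain ⟨i, hi⟩ := hex
    exact ⟨i, by rw [hi, div_mul_cancel₀ _ (hy i).ne']⟩

theorem continuous_tau : Continuous (tau ℓ y) := by
  have h : ∀ i, Continuous (fun z => ℓ i z) := fun i =>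
    AffineMap.continuous_of_finiteDimensional (ℓ i)
  unfold tau
  exact continuous_const.max ((((h 0).div_const _).min ((h 1).div_const _)).min
    ((h 2).div_const _))

/-- the tent map -/
noncomputable def tent (ℓ : Fin 3 → Pl →ᵃ[ℝ] ℝ) (y y' z : Pl) : Pl := z + tau ℓ y z • (y' - y)

theorem aff_add (f : Pl →ᵃ[ℝ] ℝ) (z y y' : Pl) (t : ℝ) :
    f (z + t • (y' - y)) = f z + t * (f y' - f y) := by
  have h1 : f (z + t • (y' - y)) = f.linear (t • (y' - y)) + f z := by
    rw [add_comm z, ← vadd_eq_add, f.map_vadd, vadd_eq_add]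
  have h2 : f y' - f y = f.linear (y' - y) := by
    have := f.linearMap_vsub y' y
    simpa using this.symm
  rw [h1, h2, map_smul, smul_eq_mul, add_comm]

theorem tau_tent {y' : Pl} (hy : ∀ i, 0 < ℓ i y) (hy' : ∀ i, 0 < ℓ i y') (z : Pl) :
    tau ℓ y' (tent ℓ y y' z) = tau ℓ y z := by
  rcases tau_cases hy z with ⟨h1, h2⟩ | ⟨h1, h2⟩
  · have : tent ℓ y y' z = z := by unfold tent; rw [h1, zero_smul, add_zero]
    rw [this, h1, tau_eq_zero hy' h2]
  · apply tau_eq hy' (tau_nonneg z)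
    · intro i
      unfold tent
      rw [aff_add]
      nlinarith [h1 i]
    · obtain ⟨i, hi⟩ := h2
      refine ⟨i, ?_⟩
      unfold tent
      rw [aff_add]
      linarith

theorem tent_tent {y' : Pl} (hy : ∀ i, 0 < ℓ i y) (hy' : ∀ i, 0 < ℓ i y') (z : Pl) :
    tent ℓ y' y (tent ℓ y y' z) = z := by
  have h := tau_tent hy hy' z
  show tent ℓ y y' z + tau ℓ y' (tent ℓ y y' z) • (y - y') = z
  rw [h]
  unfold tent
  module

/-- the tent homeomorphism -/
noncomputable def tentH {y' : Pl} (hy : ∀ i, 0 < ℓ i y) (hy' : ∀ i, 0 < ℓ i y') : Pl ≃ₜ Pl where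
  toFun := tent ℓ y y'
  invFun := tent ℓ y' y
  left_inv := tent_tent hy hy'
  right_inv := tent_tent hy' hy
  continuous_toFun := continuous_id.add (continuous_tau.smul continuous_const)
  continuous_invFun := continuous_id.add (continuous_tau.smul continuous_const)

theorem PA_tau (ℓ : Fin 3 → Pl →ᵃ[ℝ] ℝ) (y u v : Pl) :
    PA (fun s : ℝ => tau ℓ y (u + s • (v - u))) := by
  have h : ∀ i, PA (fun s : ℝ => ℓ i (u + s • (v - u)) / ℓ i y) := by
    intro i
    have e : (fun s : ℝ => ℓ i (u + s • (v - u)) / ℓ i y) =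
        fun s => ℓ i u / ℓ i y + s * ((ℓ i v - ℓ i u) / ℓ i y) := by
      funext s
      rw [aff_add]
      ring
    rw [e]
    exact PA.affine _ _
  have h0 : PA (fun _ : ℝ => (0 : ℝ)) := by
    have := PA.affine 0 0
    simpa using this
  exact h0.max (((h 0).min (h 1)).min (h 2))

theorem tent_polyArc {y' : Pl} (hy : ∀ i, 0 < ℓ i y) (hy' : ∀ i, 0 < ℓ i y') (u v : Pl)
    (huv : u ≠ v) : PolyArc (tent ℓ y y' u) (tent ℓ y y' v) (tent ℓ y y' '' segment ℝ u v) := by
  set f : ℝ → Pl := fun s => tent ℓ y y' (u + s • (v - u)) with hf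
  have hPA : PA f := (PA_tau ℓ y u v).path u (v - u) (y' - y)
  have hinj : InjOn f (Icc 0 1) := by
    intro s _ s' _ h
    have h1 : u + s • (v - u) = u + s' • (v - u) := by
      have := congrArg (tent ℓ y' y) h
      simp only [hf] at this
      rwa [tent_tent hy hy', tent_tent hy hy'] at this
    have h2 : (s - s') • (v - u) = 0 := by
      rw [sub_smul, sub_eq_zero]
      exact add_left_cancel h1
    rcases smul_eq_zero.1 h2 with h3 | h3
    · linarith
    · exact absurd (sub_eq_zero.1 h3).symm huv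
  have := polyArc_of_PA hPA hinj
  have e : f '' Icc 0 1 = tent ℓ y y' '' segment ℝ u v := by
    rw [segment_eq_image', image_image]
  rw [e] at this
  simpa [hf] using this

end Cone

open Cone in
theorem cone (ℓ : Fin 3 → Pl →ᵃ[ℝ] ℝ) (y y' : Pl) (hy : ∀ i, 0 < ℓ i y) (hy' : ∀ i, 0 < ℓ i y') :
    ∃ h : Pl ≃ₜ Pl, IsPL h ∧ h y = y' ∧ (∀ z, (∃ i, ℓ i z ≤ 0) → h z = z) ∧
      (∀ b, (∃ i, ℓ i b = 0) → (∀ i, 0 ≤ ℓ i b) → ∀ s ∈ Icc (0 : ℝ) 1,
        h (b + s • (y - b)) = b + s • (y' - b)) := by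
  refine ⟨tentH hy hy', ⟨fun u v huv => tent_polyArc hy hy' u v huv,
    fun u v huv => tent_polyArc hy' hy u v huv⟩, ?_, ?_, ?_⟩
  · show tent ℓ y y' y = y'
    unfold tent
    rw [tau_eq hy zero_le_one (fun i => by rw [one_mul]) ⟨0, by rw [one_mul]⟩, one_smul]
    abel
  · intro z hz
    show tent ℓ y y' z = z
    unfold tent
    rw [tau_eq_zero hy hz, zero_smul, add_zero]
  · intro b ⟨i, hi⟩ hb s hs
    show tent ℓ y y' (b + s • (y - b)) = b + s • (y' - b)
    have ht : tau ℓ y (b + s • (y - b)) = s := by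
      apply tau_eq hy hs.1
      · intro j
        rw [aff_add]
        nlinarith [hb j, hs.2]
      · refine ⟨i, ?_⟩
        rw [aff_add, hi]
        ring
    unfold tent
    rw [ht]
    module

end Pool.Agent.EDG
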