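import Pool.Agent.EDG.Pre
import Pool.Agent.EDG.CONE

set_option autoImplicit false

namespace Pool.Agent.EDG

open Set

namespace PUSH

/-- first coordinate as an affine map -/
noncomputable def X1 : Pl →ᵃ[ℝ] ℝ := (LinearMap.fst ℝ ℝ ℝ).toAffineMap

/-- second coordinate as an affine map -/
noncomputable def X2 : Pl →ᵃ[ℝ] ℝ := (LinearMap.snd ℝ ℝ ℝ).toAffineMap

lemma X1_apply (z : Pl) : X1 z = z.1 := rfl
lemma X2_apply (z : Pl) : X2 z = z.2 := rfl

theorem push_local (W : Set Pl) (y y' : Pl) (c : ℝ) (hc : 0 < c)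
    (hW : Metric.closedBall y (2 * c) ⊆ W) (hy' : dist y' y < c / 2) :
    ∃ h : Pl ≃ₜ Pl, IsPL h ∧ (∀ z, z ∉ W → h z = z) ∧ h y = y' := by
  set ℓ : Fin 3 → Pl →ᵃ[ℝ] ℝ := ![X2 + AffineMap.const ℝ Pl (c - y.2),
    X1 - X2 + AffineMap.const ℝ Pl (c - y.1 + y.2),
    -X1 - X2 + AffineMap.const ℝ Pl (c + y.1 + y.2)] with hℓ
  have e0 : ∀ z, ℓ 0 z = c + (z.2 - y.2) := by
    intro z; simp only [hℓ, Matrix.cons_val_zero, AffineMap.coe_add, Pi.add_apply,
      AffineMap.const_apply, X2_apply]; ring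
  have e1 : ∀ z, ℓ 1 z = c + (z.1 - y.1) - (z.2 - y.2) := by
    intro z
    simp only [hℓ, Matrix.cons_val_one, AffineMap.coe_add, AffineMap.coe_sub, Pi.add_apply,
      Pi.sub_apply, AffineMap.const_apply, X2_apply, X1_apply, Matrix.cons_val_zero]; ring
  have e2 : ∀ z, ℓ 2 z = c - (z.1 - y.1) - (z.2 - y.2) := by
    intro z
    simp only [hℓ, Matrix.cons_val, AffineMap.coe_add, AffineMap.coe_sub, AffineMap.coe_neg,
      Pi.add_apply, Pi.sub_apply, Pi.neg_apply, AffineMap.const_apply, X2_apply, X1_apply]; ring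
  have hd : |y'.1 - y.1| < c / 2 ∧ |y'.2 - y.2| < c / 2 := by
    rw [Prod.dist_eq, max_lt_iff, Real.dist_eq, Real.dist_eq] at hy'
    exact hy'
  have hy0 : ∀ i, 0 < ℓ i y := by
    intro i
    fin_cases i
    · show 0 < ℓ 0 y; rw [e0]; linarith
    · show 0 < ℓ 1 y; rw [e1]; linarith
    · show 0 < ℓ 2 y; rw [e2]; linarith
  have hy1 : ∀ i, 0 < ℓ i y' := by
    obtain ⟨h1, h2⟩ := hd
    rw [abs_lt] at h1 h2
    intro i
    fin_cases i
    · show 0 < ℓ 0 y'; rw [e0]; linarith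
    · show 0 < ℓ 1 y'; rw [e1]; linarith
    · show 0 < ℓ 2 y'; rw [e2]; linarith
  obtain ⟨h, h1, h2, h3, -⟩ := cone ℓ y y' hy0 hy1
  refine ⟨h, h1, fun z hz => h3 z ?_, h2⟩
  by_contra hcon
  push Not at hcon
  apply hz
  apply hW
  have a0 := hcon 0
  have a1 := hcon 1
  have a2 := hcon 2
  rw [e0] at a0
  rw [e1] at a1
  rw [e2] at a2
  rw [Metric.mem_closedBall, Prod.dist_eq, Real.dist_eq, Real.dist_eq, max_le_iff, abs_le, abs_le]
  refine ⟨⟨by linarith, by linarith⟩, by linarith, by linarith⟩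

end PUSH

theorem push (W : Set Pl) (hWo : IsOpen W) (hW : IsPreconnected W) (x y : Pl) (hx : x ∈ W)
    (hy : y ∈ W) : ∃ h : Pl ≃ₜ Pl, IsPL h ∧ (∀ z, z ∉ W → h z = z) ∧ h x = y := by
  refine hW.induction₂ (fun x y => ∃ h : Pl ≃ₜ Pl, IsPL h ∧ (∀ z, z ∉ W → h z = z) ∧ h x = y)
    ?_ ?_ ?_ hx hy
  · intro x hx
    obtain ⟨ε, hε, hb⟩ := Metric.isOpen_iff.1 hWo x hx
    have hc : Metric.closedBall x (2 * (ε / 4)) ⊆ W := by
      refine (Metric.closedBall_subset_ball ?_).trans hb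
      linarith
    filter_upwards [mem_nhdsWithin_of_mem_nhds (Metric.ball_mem_nhds x (ε := ε / 4 / 2)
      (by positivity))] with z hz
    exact PUSH.push_local W x z (ε / 4) (by positivity) hc hz
  · rintro a b c - - - ⟨h, h1, h2, h3⟩ ⟨k, k1, k2, k3⟩
    refine ⟨h.trans k, h1.trans k1, fun z hz => ?_, ?_⟩
    · rw [Homeomorph.trans_apply, h2 z hz, k2 z hz]
    · rw [Homeomorph.trans_apply, h3, k3]
  · rintro a b - - ⟨h, h1, h2, h3⟩
    refine ⟨h.symm, h1.symm, fun z hz => ?_, ?_⟩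
    · rw [Homeomorph.symm_apply_eq, h2 z hz]
    · rw [Homeomorph.symm_apply_eq, h3]

end Pool.Agent.EDG
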