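import Pool.Agent.EDG.STR
import Pool.Agent.EDG.PUSH
import Pool.Agent.EDG.GEO1

/-! Straightening paths of two or three curves. -/

set_option autoImplicit false

namespace Pool.Agent.EDG

open Set

theorem gb1_ne {P Q R : Pl} (h : ND P Q R) : P ≠ Q := by
  rintro rfl
  apply h
  simp [cr]

theorem gb1_ne' {P Q R : Pl} (h : ND P Q R) : Q ≠ R := by
  rintro rfl
  apply h
  simp only [cr]
  ring

theorem gb1_inter {P Q R : Pl} (h : ND P Q R) : segment ℝ Q R ∩ segment ℝ P Q ⊆ {Q} := by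
  rintro z ⟨h2, h1⟩
  rw [segment_eq_image'] at h1 h2
  obtain ⟨s, hs, rfl⟩ := h1
  obtain ⟨t, ht, hz⟩ := h2
  have e1 : Q.1 + t * (R.1 - Q.1) = P.1 + s * (Q.1 - P.1) := by
    have := congrArg Prod.fst hz
    simpa using this
  have e2 : Q.2 + t * (R.2 - Q.2) = P.2 + s * (Q.2 - P.2) := by
    have := congrArg Prod.snd hz
    simpa using this
  have h0 : t * cr (Q - P) (R - P) = 0 := by
    simp only [cr, Prod.fst_sub, Prod.snd_sub]
    linear_combination (Q.1 - P.1) * e2 - (Q.2 - P.2) * e1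
  have ht0 : t = 0 := (mul_eq_zero.1 h0).resolve_right h
  rw [mem_singleton_iff]
  have hz' : Q + t • (R - Q) = P + s • (Q - P) := hz
  change P + s • (Q - P) = Q
  rw [← hz', ht0]
  simp

theorem gb1_notMem {P Q R : Pl} (h : ND P Q R) : R ∉ segment ℝ P Q := fun hR =>
  gb1_ne' h (mem_singleton_iff.1 (gb1_inter h ⟨right_mem_segment ℝ Q R, hR⟩)).symm

/-- Straightening one more curve. -/
theorem gb1_extend {F B E : Set Pl} (hF : IsClosed F) (hB : IsClosed B) {P Q R x w : Pl}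
    (hPQ : P ≠ Q) (hQR : R ≠ Q) (hQF : Q ∉ F) (hQB : Q ∉ B) {k : Pl ≃ₜ Pl} (hk : IsPL k)
    (hfix : ∀ z ∈ F, k z = z) (hkE : k '' E = B ∪ segment ℝ P Q) (hkx : k x = Q)
    {E2 : Set Pl} (h2 : PolyArc x w E2) (hE2 : E2 ∩ E ⊆ {x}) (h2F : Disjoint E2 F)
    (hsF : Disjoint (segment ℝ Q R) F) (hs : segment ℝ Q R ∩ (B ∪ segment ℝ P Q) ⊆ {Q}) :
    ∃ k' : Pl ≃ₜ Pl, IsPL k' ∧ (∀ z ∈ F, k' z = z) ∧ (∀ z ∈ E, k' z = k z) ∧
      k' '' E2 = segment ℝ Q R ∧ k' w = R := by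
  have h2' : PolyArc Q (k w) (k '' E2) := by
    rw [← hkx]
    exact h2.image hk
  obtain ⟨n, K, hL⟩ := loc_end P Q hPQ (F ∪ B) (hF.union hB) (by simp [hQF, hQB])
  have hcl : IsClosed (F ∪ B ∪ segment ℝ P Q) :=
    (hF.union hB).union (plb_segment_compact P Q).isClosed
  have i1 : k '' E2 ∩ (F ∪ B ∪ segment ℝ P Q) ⊆ {Q} := by
    rw [union_assoc, ← hkE]
    rintro z ⟨⟨z', hz', rfl⟩, hz | ⟨z'', hz'', he⟩⟩
    · exfalso
      have := k.injective (hfix _ hz)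
      rw [this] at hz
      exact (disjoint_left.1 h2F hz') hz
    · have := k.injective he
      subst this
      have := hE2 ⟨hz', hz''⟩
      rw [mem_singleton_iff] at this ⊢
      rw [this, hkx]
  have i2 : segment ℝ Q R ∩ (F ∪ B ∪ segment ℝ P Q) ⊆ {Q} := by
    rw [union_assoc]
    rintro z ⟨hz, hz' | hz'⟩
    · exact absurd hz' (disjoint_left.1 hsF hz)
    · exact hs ⟨hz, hz'⟩
  obtain ⟨m, hm, hmfix, hmE, hmw⟩ := move h2' R hQR hcl hL i1 i2
  refine ⟨k.trans m, hk.trans hm, fun z hz => ?_, fun z hz => ?_, ?_, ?_⟩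
  · change m (k z) = z
    rw [hfix z hz]
    exact hmfix z (Or.inl (Or.inl hz))
  · change m (k z) = k z
    apply hmfix
    have : k z ∈ k '' E := mem_image_of_mem _ hz
    rw [hkE] at this
    rcases this with h | h
    · exact Or.inl (Or.inr h)
    · exact Or.inr h
  · have : (k.trans m) '' E2 = m '' (k '' E2) := by
      rw [image_image]; rfl
    rw [this, hmE]
  · exact hmw

theorem straighten2 {A x w : Pl} {E1 E2 : Set Pl} (h1 : PolyArc A x E1) (h2 : PolyArc x w E2)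
    (h12 : E1 ∩ E2 = {x}) {F : Set Pl} (hF : IsClosed F) {n : Pl} {K : Set Pl} (hL : Loc F A n K)
    (h1F : E1 ∩ F ⊆ {A}) (h2F : Disjoint E2 F) {X W : Pl} (hnd : ND A X W)
    (hAX : segment ℝ A X ∩ F ⊆ {A}) (hXW : Disjoint (segment ℝ X W) F) :
    ∃ k : Pl ≃ₜ Pl, IsPL k ∧ (∀ z ∈ F, k z = z) ∧ k '' E1 = segment ℝ A X ∧
      k '' E2 = segment ℝ X W ∧ k A = A ∧ k x = X ∧ k w = W := by
  have hAF : A ∈ F := by
    obtain ⟨ε, hε, hl⟩ := hL.loc
    rw [hl A (by simpa using hε), sub_self]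
    exact zero_notMem_of_loc hL
  obtain ⟨k, hk, hfix, hkE, hkx⟩ := move h1 X (gb1_ne hnd).symm hF hL h1F hAX
  obtain ⟨k', hk', hfix', hE', hkE', hw'⟩ := gb1_extend (B := ∅) (E := E1) (E2 := E2) (P := A)
    (Q := X) (R := W) (x := x) (w := w) hF isClosed_empty (gb1_ne hnd) (gb1_ne' hnd).symm
    (fun h => disjoint_left.1 hXW (left_mem_segment ℝ X W) h) (by simp) hk hfix
    (by rw [hkE, empty_union]) hkx h2 (by rw [inter_comm, h12]) h2F hXW
    (by rw [empty_union]; exact gb1_inter hnd)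
  refine ⟨k', hk', hfix', ?_, hkE', hfix' A hAF, ?_, hw'⟩
  · rw [← hkE]
    exact image_congr hE'
  · rw [hE' x h1.right_mem, hkx]

theorem straighten2_free {x p q : Pl} {E1 E2 : Set Pl} (h1 : PolyArc x p E1) (h2 : PolyArc p q E2)
    (h12 : E1 ∩ E2 = {p}) {F : Set Pl} (hF : IsClosed F) (hc : IsPreconnected Fᶜ)
    (h1F : Disjoint E1 F) (h2F : Disjoint E2 F) {P Q R : Pl} (hnd : ND P Q R)
    (hPQ : Disjoint (segment ℝ P Q) F) (hQR : Disjoint (segment ℝ Q R) F) :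
    ∃ k : Pl ≃ₜ Pl, IsPL k ∧ (∀ z ∈ F, k z = z) ∧ k '' E1 = segment ℝ P Q ∧
      k '' E2 = segment ℝ Q R ∧ k x = P ∧ k p = Q ∧ k q = R := by
  have hPF : P ∉ F := fun h => disjoint_left.1 hPQ (left_mem_segment ℝ P Q) h
  obtain ⟨k0, hk0, hfix0, hx0⟩ := push Fᶜ hF.isOpen_compl hc x P
    (fun h => disjoint_left.1 h1F h1.left_mem h) hPF
  have hfix0' : ∀ z ∈ F, k0 z = z := fun z hz => hfix0 z (fun h => h hz)
  have hd : Disjoint (k0 '' E1) F := by
    rw [disjoint_left]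
    rintro z ⟨z', hz', rfl⟩ hz
    have := k0.injective (hfix0' _ hz)
    rw [this] at hz
    exact disjoint_left.1 h1F hz' hz
  have h1' : PolyArc P (k0 p) (k0 '' E1) := by
    rw [← hx0]
    exact h1.image hk0
  obtain ⟨m, hm, hmfix, hmE, hmP, hmp⟩ := move_free h1' Q (gb1_ne hnd).symm hF hPF hd hPQ
  have hk : IsPL (k0.trans m) := hk0.trans hm
  have hfix : ∀ z ∈ F, (k0.trans m) z = z := fun z hz => by
    change m (k0 z) = z
    rw [hfix0' z hz, hmfix z hz]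
  have hkE : (k0.trans m) '' E1 = segment ℝ P Q := by
    have : (k0.trans m) '' E1 = m '' (k0 '' E1) := by
      rw [image_image]; rfl
    rw [this, hmE]
  obtain ⟨k', hk', hfix', hE', hkE', hw'⟩ := gb1_extend (B := ∅) (E := E1) (E2 := E2) (P := P)
    (Q := Q) (R := R) (x := p) (w := q) hF isClosed_empty (gb1_ne hnd) (gb1_ne' hnd).symm
    (fun h => disjoint_left.1 hQR (left_mem_segment ℝ Q R) h) (by simp) hk hfix
    (by rw [hkE, empty_union]) hmp h2 (by rw [inter_comm, h12]) h2F hQR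
    (by rw [empty_union]; exact gb1_inter hnd)
  refine ⟨k', hk', hfix', ?_, hkE', ?_, ?_, hw'⟩
  · rw [← hkE]
    exact image_congr hE'
  · rw [hE' x h1.left_mem]
    change m (k0 x) = P
    rw [hx0, hmP]
  · rw [hE' p h1.right_mem]
    exact hmp

theorem straighten3_free {x p q s : Pl} {E1 E2 E3 : Set Pl} (h1 : PolyArc x p E1)
    (h2 : PolyArc p q E2) (h3 : PolyArc q s E3)
    (h12 : E1 ∩ E2 = {p}) (h23 : E2 ∩ E3 = {q}) (h13 : Disjoint E1 E3)
    {F : Set Pl} (hF : IsClosed F) (hc : IsPreconnected Fᶜ)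
    (h1F : Disjoint E1 F) (h2F : Disjoint E2 F) (h3F : Disjoint E3 F) {P Q R Z : Pl}
    (hnd : ND P Q R) (hPQ : Disjoint (segment ℝ P Q) F) (hQR : Disjoint (segment ℝ Q R) F)
    (hRZ : Disjoint (segment ℝ R Z) F) (hZR : Z ≠ R)
    (hZ : segment ℝ R Z ∩ (segment ℝ P Q ∪ segment ℝ Q R) ⊆ {R}) :
    ∃ k : Pl ≃ₜ Pl, IsPL k ∧ (∀ z ∈ F, k z = z) ∧ k '' E1 = segment ℝ P Q ∧
      k '' E2 = segment ℝ Q R ∧ k '' E3 = segment ℝ R Z ∧ k x = P ∧ k p = Q ∧ k q = R ∧ k s = Z := by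
  obtain ⟨k, hk, hfix, hk1, hk2, hkx, hkp, hkq⟩ := straighten2_free h1 h2 h12 hF hc h1F h2F hnd
    hPQ hQR
  have i : E3 ∩ (E1 ∪ E2) ⊆ {q} := by
    rintro z ⟨hz, hz' | hz'⟩
    · exact absurd hz (disjoint_left.1 h13 hz')
    · rw [← h23]
      exact ⟨hz', hz⟩
  obtain ⟨k', hk', hfix', hE', hkE', hw'⟩ := gb1_extend (B := segment ℝ P Q) (E := E1 ∪ E2)
    (E2 := E3) (P := Q) (Q := R) (R := Z) (x := q) (w := s) hF
    (plb_segment_compact P Q).isClosed (gb1_ne' hnd) hZR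
    (fun h => disjoint_left.1 hQR (right_mem_segment ℝ Q R) h) (gb1_notMem hnd) hk hfix
    (by rw [image_union, hk1, hk2]) hkq h3 i h3F hRZ hZ
  refine ⟨k', hk', hfix', ?_, ?_, hkE', ?_, ?_, ?_, hw'⟩
  · rw [← hk1]
    exact image_congr fun z hz => hE' z (Or.inl hz)
  · rw [← hk2]
    exact image_congr fun z hz => hE' z (Or.inr hz)
  · rw [hE' x (Or.inl h1.left_mem), hkx]
  · rw [hE' p (Or.inl h1.right_mem), hkp]
  · rw [hE' q (Or.inr h2.right_mem), hkq]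

end Pool.Agent.EDG
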