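import Pool.Agent.EDG.GEO1

/-! Triangles: small triangles, inner points, sides. -/

set_option autoImplicit false

namespace Pool.Agent.EDG

open Set

/-- A tiny triangle. -/
theorem tiny_tri {O : Set Pl} (hO : IsClosed O) {x : Pl} (hx : x ∉ O) :
    ∃ P Q R : Pl, ND P Q R ∧ Disjoint O (tri P Q R) := by
  obtain ⟨δ, hδ, hb⟩ := Metric.isOpen_iff.1 hO.isOpen_compl x hx
  refine ⟨x, x + (δ / 2, 0), x + (0, δ / 2), ?_, ?_⟩
  · unfold ND cr
    simp only [Prod.fst_sub, Prod.snd_sub, Prod.fst_add, Prod.snd_add]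
    have : (x.1 + δ / 2 - x.1) * (x.2 + δ / 2 - x.2) - (x.2 + 0 - x.2) * (x.1 + 0 - x.1) =
        δ ^ 2 / 4 := by ring
    rw [this]
    positivity
  · have hsub : tri x (x + (δ / 2, 0)) (x + (0, δ / 2)) ⊆ Metric.ball x δ := by
      refine convexHull_min ?_ (convex_ball x δ)
      rintro w (rfl | rfl | rfl)
      · exact Metric.mem_ball_self hδ
      · rw [Metric.mem_ball, dist_self_add_left, Prod.norm_def]
        simp only [Real.norm_eq_abs, norm_zero]
        rw [abs_of_pos (by linarith), max_eq_left (by linarith)]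
        linarith
      · rw [Metric.mem_ball, dist_self_add_left, Prod.norm_def]
        simp only [Real.norm_eq_abs, norm_zero]
        rw [abs_of_pos (by linarith), max_eq_right (by linarith)]
        linarith
    exact Set.disjoint_left.2 fun z hz hz' => hb (hsub hz') hz

/-- A point near the corner `R` inside the triangle. -/
theorem inner_point {P Q R : Pl} (hnd : ND P Q R) {T : Set Pl} (hT : IsClosed T) (hR : R ∉ T) :
    ∃ Z : Pl, Z ≠ R ∧ Disjoint (segment ℝ R Z) T ∧ segment ℝ R Z ⊆ tri P Q R ∧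
      segment ℝ R Z \ {R} ⊆ interior (tri P Q R) := by
  have hc : Filter.Tendsto (fun s : ℝ => R + s • (P + Q - (2 : ℝ) • R)) (nhds 0) (nhds R) := by
    have h1 : Continuous (fun s : ℝ => R + s • (P + Q - (2 : ℝ) • R)) := by fun_prop
    have h0 := h1.tendsto 0
    simpa only [zero_smul, add_zero] using h0
  have hev := hc.eventually (hT.isOpen_compl.mem_nhds hR)
  obtain ⟨ε, hε, hev⟩ := Metric.eventually_nhds_iff.1 hev
  set t : ℝ := min (ε / 2) (1 / 4) with ht
  have ht0 : 0 < t := lt_min (by linarith) (by norm_num)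
  have ht1 : t ≤ 1 / 4 := min_le_right _ _
  have ht2 : t < ε := lt_of_le_of_lt (min_le_left _ _) (by linarith)
  have hseg : ∀ z ∈ segment ℝ R (R + t • (P + Q - (2 : ℝ) • R)), ∃ s : ℝ, 0 ≤ s ∧ s ≤ t ∧
      z = R + s • (P + Q - (2 : ℝ) • R) := by
    rintro z ⟨a, b, ha, hb, hab, rfl⟩
    refine ⟨b * t, by positivity, by nlinarith, ?_⟩
    obtain rfl : a = 1 - b := by linarith
    module
  have hbar : ∀ s : ℝ, R + s • (P + Q - (2 : ℝ) • R) = s • P + s • Q + (1 - 2 * s) • R := by
    intro s; module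
  refine ⟨R + t • (P + Q - (2 : ℝ) • R), ?_, ?_, ?_, ?_⟩
  · intro h
    have h1 : g1a P Q R (R + t • (P + Q - (2 : ℝ) • R)) = t := by
      rw [hbar]; exact g1a_eval hnd (by ring)
    have h2 : g1a P Q R R = 0 := by
      have h3 := g1a_eval hnd (show (0 : ℝ) + 0 + 1 = 1 by norm_num)
      simpa using h3
    rw [h, h2] at h1
    linarith
  · refine Set.disjoint_left.2 fun z hz hz' => ?_
    obtain ⟨s, hs0, hs1, rfl⟩ := hseg z hz
    refine hev (y := s) ?_ hz'
    rw [Real.dist_eq, sub_zero, abs_of_nonneg hs0]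
    linarith
  · intro z hz
    obtain ⟨s, hs0, hs1, rfl⟩ := hseg z hz
    rw [tri_mem_iff]
    exact ⟨s, s, 1 - 2 * s, hs0, hs0, by linarith, by ring, hbar s⟩
  · rintro z ⟨hz, hzR⟩
    obtain ⟨s, hs0, hs1, rfl⟩ := hseg z hz
    rw [tri_interior _ _ _ _ hnd]
    have hs : s ≠ 0 := by
      rintro rfl
      exact hzR (by simp)
    have hs' : 0 < s := lt_of_le_of_ne hs0 (Ne.symm hs)
    exact ⟨s, s, 1 - 2 * s, hs', hs', by linarith, by ring, hbar s⟩

/-- Sides of a triangle. -/
theorem ND.rot {P Q R : Pl} (h : ND P Q R) : ND Q R P := by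
  unfold ND cr at h ⊢
  simp only [Prod.fst_sub, Prod.snd_sub] at h ⊢
  intro h1
  apply h
  rw [← h1]
  ring

theorem ND.swap {P Q R : Pl} (h : ND P Q R) : ND Q P R := by
  unfold ND cr at h ⊢
  simp only [Prod.fst_sub, Prod.snd_sub] at h ⊢
  intro h1
  apply h
  rw [← neg_zero, ← h1]
  ring

theorem tri_rot (P Q R : Pl) : tri P Q R = tri Q R P := by
  unfold tri
  congr 1
  ext z
  simp only [mem_insert_iff, mem_singleton_iff]
  tauto

theorem tri_swap (P Q R : Pl) : tri P Q R = tri Q P R := by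
  unfold tri
  congr 1
  ext z
  simp only [mem_insert_iff, mem_singleton_iff]
  tauto

theorem ND.ne {P Q R : Pl} (h : ND P Q R) : P ≠ Q := by
  rintro rfl
  apply h
  unfold cr
  simp

theorem ND.inter {P Q R : Pl} (h : ND P Q R) : segment ℝ P Q ∩ segment ℝ Q R = {Q} := by
  ext z
  rw [mem_singleton_iff]
  constructor
  · rintro ⟨⟨a, b, ha, hb, hab, rfl⟩, ⟨c, d, hc, hd, hcd, h1⟩⟩
    have h2 : g1a P Q R (a • P + b • Q) = a := by
      have h3 := g1a_eval h (show a + b + 0 = 1 by linarith)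
      simpa using h3
    have h4 : g1a P Q R (c • Q + d • R) = 0 := by
      have h3 := g1a_eval h (show 0 + c + d = 1 by linarith)
      simpa using h3
    rw [h1, h2] at h4
    subst h4
    obtain rfl : b = 1 := by linarith
    simp
  · rintro rfl
    exact ⟨right_mem_segment ℝ _ _, left_mem_segment ℝ _ _⟩

theorem side_sub (P Q R : Pl) : segment ℝ P Q ⊆ tri P Q R := by
  unfold tri
  exact (convex_convexHull ℝ _).segment_subset (subset_convexHull ℝ _ (by simp))
    (subset_convexHull ℝ _ (by simp))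

theorem ND.side_interior {P Q R : Pl} (h : ND P Q R) :
    Disjoint (segment ℝ P Q) (interior (tri P Q R)) := by
  refine Set.disjoint_left.2 ?_
  rintro z ⟨a, b, ha, hb, hab, rfl⟩ hz
  rw [g1_interior h] at hz
  have h3 := g1c_eval h (show a + b + 0 = 1 by linarith)
  rw [zero_smul, add_zero] at h3
  linarith [hz.2.2]

end Pool.Agent.EDG
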