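import Pool.Agent.EDG.CONND
import Pool.Agent.EDG.GEOB1
import Pool.Agent.EDG.GEOB2
import Pool.Agent.EDG.GEO2

/-! The main step: case analysis. -/

set_option autoImplicit false

namespace Pool.Agent.EDG

open Set

/-- The curve `e` joins `x` and `y`. -/
def Joins (e : Curve) (x y : Pl) : Prop := (e.a = x ∧ e.b = y) ∨ (e.a = y ∧ e.b = x)

theorem Joins.symm {e : Curve} {x y : Pl} (h : Joins e x y) : Joins e y x := Or.symm h

theorem Joins.arc {e : Curve} {x y : Pl} (h : Joins e x y) : PolyArc x y e.carrier := by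
  rcases h with ⟨rfl, rfl⟩ | ⟨rfl, rfl⟩
  · exact e.isArc
  · exact e.isArc.symm

theorem Joins.map {e : Curve} {x y : Pl} (h : Joins e x y) (k : Pl ≃ₜ Pl) (hk : IsPL k) :
    Joins (e.map k hk) (k x) (k y) := by
  rcases h with ⟨rfl, rfl⟩ | ⟨rfl, rfl⟩
  · exact Or.inl ⟨rfl, rfl⟩
  · exact Or.inr ⟨rfl, rfl⟩

theorem Joins.of_map {e : Curve} {x y : Pl} {k : Pl ≃ₜ Pl} {hk : IsPL k}
    (h : Joins (e.map k hk) (k x) (k y)) : Joins e x y := by
  rcases h with ⟨h1, h2⟩ | ⟨h1, h2⟩
  · exact Or.inl ⟨k.injective h1, k.injective h2⟩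
  · exact Or.inr ⟨k.injective h1, k.injective h2⟩

theorem Joins.ends {e : Curve} {x y z : Pl} (h : Joins e x y) (hz : z = e.a ∨ z = e.b) :
    z = x ∨ z = y := by
  rcases h with ⟨rfl, rfl⟩ | ⟨rfl, rfl⟩
  · exact hz
  · exact hz.symm

theorem Joins.pair {e : Curve} {x y x' y' : Pl} (h : Joins e x y) (h' : Joins e x' y') :
    (x = x' ∧ y = y') ∨ (x = y' ∧ y = x') := by
  rcases h with ⟨rfl, rfl⟩ | ⟨rfl, rfl⟩ <;> rcases h' with ⟨rfl, rfl⟩ | ⟨rfl, rfl⟩ <;> simp

/-- Standard position. -/
structure Std (L : List Curve) (Dn : Set Pl) (A B C : Pl) : Prop where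
  nd : ND A B C
  eq : Dn = tri A B C
  ab : ∃ e ∈ L, Joins e A B ∧ e.carrier = segment ℝ A B
  bc : ∃ e ∈ L, Joins e B C ∧ e.carrier = segment ℝ B C
  ca : ∃ e ∈ L, Joins e C A ∧ e.carrier = segment ℝ C A

theorem Std.rot {L : List Curve} {Dn : Set Pl} {A B C : Pl} (h : Std L Dn A B C) :
    Std L Dn B C A where
  nd := h.nd.rot
  eq := h.eq.trans (tri_rot A B C)
  ab := h.bc
  bc := h.ca
  ca := h.ab

/-- Straighten everything, then close the triangle. -/
theorem close_map {S : Set Pl} {L : List Curve} {n : ℕ} {D : ℕ → Set Pl} {c : Curve}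
    (hI : Inv S L n D) (hc : Legal S L c) (k : Pl ≃ₜ Pl) (hk : IsPL k) {p q r P Q R : Pl}
    (hp : k p = P) (hq : k q = Q) (hr : k r = R)
    (hnd : ND P Q R) (O : Set Pl)
    (hD : D n ⊆ tri P Q R) (hO : Disjoint O (tri P Q R))
    (hid : ∀ z ∈ D n ∪ O, k z = z)
    (hDRP : D n ∩ segment ℝ R P ⊆ {R, P})
    (hcur : ∀ e ∈ L, e.carrier ⊆ D n ∨ e.carrier ⊆ O ∨
      (k '' e.carrier ⊆ tri P Q R ∧ k '' e.carrier ∩ segment ℝ R P ⊆ {R, P}))
    (hcc : k '' c.carrier ⊆ tri P Q R ∧ k '' c.carrier ∩ segment ℝ R P ⊆ {R, P})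
    (Y : Set Pl) (hY : Y.encard ≤ 4) (hpt : ∀ z ∈ S, z ∈ D n ∨ z ∈ O ∨ z ∈ Y)
    (hYk : ∀ z ∈ Y, k z ∈ segment ℝ R P → k z = R ∨ k z = P)
    (hfr : (S ∩ frontier (D n)).encard ≤ 3)
    (h1 : ∃ e ∈ c :: L, Joins e p q ∧ k '' e.carrier = segment ℝ P Q)
    (h2 : ∃ e ∈ c :: L, Joins e q r ∧ k '' e.carrier = segment ℝ Q R)
    (hrS : r ∈ S) (hpS : p ∈ S)
    (hnj : ∀ e ∈ c :: L, ¬ Joins e r p) : Goal S L c := by
  have hkD : k '' D n = D n := by
    have : ∀ z ∈ D n, k z = id z := fun z hz => hid z (Or.inl hz)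
    rw [image_congr this, image_id]
  apply Goal.of_map k hk
  have hmem : ∀ e : Curve, e ∈ c.map k hk :: L.map (Curve.map k hk) →
      ∃ e0 ∈ c :: L, e = e0.map k hk := by
    intro e he
    rw [← List.map_cons, List.mem_map] at he
    obtain ⟨e0, he0, rfl⟩ := he
    exact ⟨e0, he0, rfl⟩
  have hmem' : ∀ e0 ∈ c :: L, e0.map k hk ∈ c.map k hk :: L.map (Curve.map k hk) := by
    intro e0 he0
    rw [← List.map_cons, List.mem_map]
    exact ⟨e0, he0, rfl⟩
  apply close (hI.map k hk) (hc.map k hk) P Q R hnd O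
  · change k '' D n ⊆ _
    rw [hkD]
    exact hD
  · exact hO
  · intro e he
    obtain ⟨e0, he0, rfl⟩ := hmem e he
    change k '' e0.carrier ⊆ O ∨ (k '' e0.carrier ⊆ _ ∧ k '' e0.carrier ∩ _ ⊆ _)
    rcases List.mem_cons.1 he0 with rfl | he0
    · exact Or.inr hcc
    · rcases hcur e0 he0 with h | h | h
      · right
        have hsub : k '' e0.carrier ⊆ D n := by
          rw [← hkD]
          exact image_mono h
        exact ⟨hsub.trans hD, fun z hz => hDRP ⟨hsub hz.1, hz.2⟩⟩
      · left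
        have : ∀ z ∈ e0.carrier, k z = id z := fun z hz => hid z (Or.inr (h hz))
        rw [image_congr this, image_id]
        exact h
      · exact Or.inr h
  · rintro _ ⟨z, hz, rfl⟩ hzs
    rcases hpt z hz with h | h | h
    · have hkz := hid z (Or.inl h)
      rw [hkz] at hzs ⊢
      have := hDRP ⟨h, hzs⟩
      simpa using this
    · have hkz := hid z (Or.inr h)
      rw [hkz] at hzs
      have h3 : segment ℝ R P ⊆ tri P Q R := by
        rw [← tri_rot]
        exact side_sub R P Q
      exact absurd (h3 hzs) (disjoint_left.1 hO h)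
    · exact hYk z h hzs
  · change (k '' S ∩ (tri P Q R \ interior (k '' D n))).encard ≤ 7
    rw [hkD]
    have hsub : k '' S ∩ (tri P Q R \ interior (D n)) ⊆ (S ∩ frontier (D n)) ∪ k '' Y := by
      rintro _ ⟨⟨z, hz, rfl⟩, h1, h2⟩
      rcases hpt z hz with h | h | h
      · left
        have hkz := hid z (Or.inl h)
        rw [hkz] at h2 ⊢
        refine ⟨hz, ?_⟩
        rw [(hI.closed n).frontier_eq]
        exact ⟨h, h2⟩
      · have hkz := hid z (Or.inr h)
        rw [hkz] at h1
        exact absurd h1 (disjoint_left.1 hO h)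
      · exact Or.inr ⟨z, h, rfl⟩
    calc (k '' S ∩ (tri P Q R \ interior (D n))).encard
        ≤ ((S ∩ frontier (D n)) ∪ k '' Y).encard := encard_le_encard hsub
      _ ≤ (S ∩ frontier (D n)).encard + (k '' Y).encard := encard_union_le _ _
      _ ≤ 3 + 4 := by
          gcongr
          exact (encard_image_le k Y).trans hY
      _ = 7 := by norm_num
  · exact hcc.1
  · obtain ⟨e, he, hj, hcar⟩ := h1
    refine ⟨e.map k hk, hmem' e he, ?_, hcar⟩
    have := hj.map k hk
    rw [hp, hq] at this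
    exact this
  · obtain ⟨e, he, hj, hcar⟩ := h2
    refine ⟨e.map k hk, hmem' e he, ?_, hcar⟩
    have := hj.map k hk
    rw [hq, hr] at this
    exact this
  · exact ⟨r, hrS, hr⟩
  · exact ⟨p, hpS, hp⟩
  · intro e he hj
    obtain ⟨e0, he0, rfl⟩ := hmem e he
    apply hnj e0 he0
    rw [← hr, ← hp] at hj
    exact Joins.of_map hj

/-- The other outside curves and points. -/
theorem out_exists {S : Set Pl} (hS : Marked S) {L : List Curve} {n : ℕ} {D : ℕ → Set Pl}
    (hI : Inv S L n D) (X : List Curve) (Y : Set Pl) :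
    ∃ O : Set Pl, IsClosed O ∧ Disjoint O (D n) ∧ IsPreconnected (D n ∪ O)ᶜ ∧
      (∀ e ∈ L, e.carrier ⊆ D n ∨ e.carrier ⊆ O ∨ (e ∈ X ∧ Disjoint e.carrier (D n))) ∧
      (∀ z ∈ S, z ∈ D n ∨ z ∈ O ∨ z ∈ Y) ∧
      (∀ z ∈ O, (∃ e ∈ L, Disjoint e.carrier (D n) ∧ e ∉ X ∧ z ∈ e.carrier) ∨
        (z ∈ S ∧ z ∉ D n ∧ z ∉ Y)) := by
  classical
  set L' : List Curve := L.filter (fun e => Disjoint e.carrier (D n) ∧ e ∉ X) with hL'
  have hmem : ∀ e, e ∈ L' ↔ e ∈ L ∧ Disjoint e.carrier (D n) ∧ e ∉ X := by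
    intro e
    rw [hL', List.mem_filter, decide_eq_true_iff]
  have hcl : IsClosed (⋃ e ∈ L', e.carrier) := by
    have : (⋃ e ∈ L', e.carrier) = ⋃ e ∈ L'.toFinset, e.carrier := by
      ext z
      simp
    rw [this]
    exact L'.toFinset.finite_toSet.isClosed_biUnion (fun e _ => e.isArc.isCompact.isClosed)
  refine ⟨(⋃ e ∈ L', e.carrier) ∪ (S \ (D n ∪ Y)), hcl.union (closed_sub hS sdiff_subset), ?_, ?_,
    ?_, ?_, ?_⟩
  · rw [disjoint_left]
    rintro z (hz | hz) hzD
    · rw [mem_iUnion₂] at hz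
      obtain ⟨e, he, hze⟩ := hz
      exact disjoint_left.1 ((hmem e).1 he).2.1 hze hzD
    · exact hz.2 (Or.inl hzD)
  · rw [← union_assoc]
    exact connD hS hI L' (fun e he => ⟨((hmem e).1 he).1, ((hmem e).1 he).2.1⟩) _ sdiff_subset
  · intro e he
    rcases hI.out e he with h | h
    · exact Or.inl h
    · by_cases hX : e ∈ X
      · exact Or.inr (Or.inr ⟨hX, h⟩)
      · right; left
        intro z hz
        left
        rw [mem_iUnion₂]
        exact ⟨e, (hmem e).2 ⟨he, h, hX⟩, hz⟩
  · intro z hz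
    by_cases h1 : z ∈ D n
    · exact Or.inl h1
    · by_cases h2 : z ∈ Y
      · exact Or.inr (Or.inr h2)
      · right; left; right
        exact ⟨hz, fun h => h.elim h1 h2⟩
  · rintro z (hz | hz)
    · left
      rw [mem_iUnion₂] at hz
      obtain ⟨e, he, hze⟩ := hz
      have := (hmem e).1 he
      exact ⟨e, this.1, this.2.1, this.2.2, hze⟩
    · right
      exact ⟨hz.1, fun h => hz.2 (Or.inl h), fun h => hz.2 (Or.inr h)⟩

theorem Std.frontier_le {S : Set Pl} {L : List Curve} {n : ℕ} {D : ℕ → Set Pl}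
    (hI : Inv S L n D) {A B C : Pl} (h : Std L (D n) A B C) :
    S ∩ frontier (D n) ⊆ {A, B, C} := by
  rintro z ⟨hzS, hz⟩
  rw [h.eq, tri_frontier A B C h.nd] at hz
  rcases hz with (hz | hz) | hz
  · obtain ⟨e, he, hj, hcar⟩ := h.ab
    rw [← hcar] at hz
    rcases hj.ends (hI.marked e he z hzS hz) with rfl | rfl <;> simp
  · obtain ⟨e, he, hj, hcar⟩ := h.bc
    rw [← hcar] at hz
    rcases hj.ends (hI.marked e he z hzS hz) with rfl | rfl <;> simp
  · obtain ⟨e, he, hj, hcar⟩ := h.ca
    rw [← hcar] at hz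
    rcases hj.ends (hI.marked e he z hzS hz) with rfl | rfl <;> simp

theorem frontier_card {S : Set Pl} {L : List Curve} {n : ℕ} {D : ℕ → Set Pl}
    (hI : Inv S L n D) (hstd : n = 0 ∨ ∃ A B C, Std L (D n) A B C) :
    (S ∩ frontier (D n)).encard ≤ 3 := by
  rcases hstd with rfl | ⟨A, B, C, h⟩
  · rw [hI.zero]
    simp
  · calc (S ∩ frontier (D n)).encard ≤ ({A, B, C} : Set Pl).encard :=
        encard_le_encard (h.frontier_le hI)
      _ ≤ ({B, C} : Set Pl).encard + 1 := encard_insert_le _ _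
      _ ≤ (({C} : Set Pl).encard + 1) + 1 := by gcongr; exact encard_insert_le _ _
      _ = 3 := by rw [encard_singleton]; norm_num

theorem encard_four (w x y z : Pl) : ({w, x, y, z} : Set Pl).encard ≤ 4 := by
  calc ({w, x, y, z} : Set Pl).encard ≤ ({x, y, z} : Set Pl).encard + 1 := encard_insert_le _ _
    _ ≤ ({y, z} : Set Pl).encard + 1 + 1 := by gcongr; exact encard_insert_le _ _
    _ ≤ ({z} : Set Pl).encard + 1 + 1 + 1 := by gcongr; exact encard_insert_le _ _
    _ = 4 := by rw [encard_singleton]; norm_num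

theorem Legal.ends {S : Set Pl} {L : List Curve} {c : Curve} (hc : Legal S L c) {x y : Pl}
    (hj : Joins c x y) {e : Curve} (he : e ∈ L) {z : Pl} (hz : z ∈ e.carrier)
    (hz' : z ∈ c.carrier) : z = x ∨ z = y := by
  have := hc.meets e he ⟨hz, hz'⟩
  exact hj.ends (by simpa using this)

theorem Legal.mends {S : Set Pl} {L : List Curve} {c : Curve} (hc : Legal S L c) {x y : Pl}
    (hj : Joins c x y) {z : Pl} (hz : z ∈ S) (hz' : z ∈ c.carrier) : z = x ∨ z = y :=
  hj.ends (hc.marked z hz hz')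

theorem open_ends {c : Curve} {x y : Pl} (hj : Joins c x y) {T : Set Pl}
    (hopen : Disjoint (c.carrier \ {c.a, c.b}) T) {z : Pl} (hz : z ∈ c.carrier) (hzT : z ∈ T) :
    z = x ∨ z = y := by
  by_contra hcon
  apply disjoint_left.1 hopen _ hzT
  refine ⟨hz, fun h => hcon (hj.ends (by simpa using h))⟩

theorem Joins.mem_left {e : Curve} {x y : Pl} (h : Joins e x y) : x ∈ e.carrier := h.arc.left_mem

theorem Joins.mem_right {e : Curve} {x y : Pl} (h : Joins e x y) : y ∈ e.carrier :=
  h.arc.right_mem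

theorem Inv.joins_mem {S : Set Pl} {L : List Curve} {n : ℕ} {D : ℕ → Set Pl} (hI : Inv S L n D)
    {e : Curve} (he : e ∈ L) {x y : Pl} (hj : Joins e x y) : x ∈ S ∧ y ∈ S := by
  rcases hj with ⟨rfl, rfl⟩ | ⟨rfl, rfl⟩
  · exact ⟨hI.mem_a e he, hI.mem_b e he⟩
  · exact ⟨hI.mem_b e he, hI.mem_a e he⟩

theorem Legal.joins_mem {S : Set Pl} {L : List Curve} {c : Curve} (hc : Legal S L c)
    {x y : Pl} (hj : Joins c x y) : x ∈ S ∧ y ∈ S := by
  rcases hj with ⟨rfl, rfl⟩ | ⟨rfl, rfl⟩
  · exact ⟨hc.mem_a, hc.mem_b⟩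
  · exact ⟨hc.mem_b, hc.mem_a⟩

theorem Legal.joins_not {S : Set Pl} {L : List Curve} {c : Curve} (hc : Legal S L c)
    {x y : Pl} (hj : Joins c x y) {e : Curve} (he : e ∈ L) : ¬ Joins e x y := by
  intro h
  apply hc.not_joined e he
  rcases hj with ⟨rfl, rfl⟩ | ⟨rfl, rfl⟩
  · exact h
  · exact h.symm

theorem side_sub2 (P Q R : Pl) : segment ℝ Q R ⊆ tri P Q R := by
  rw [tri_rot]
  exact side_sub Q R P

theorem side_sub3 (P Q R : Pl) : segment ℝ R P ⊆ tri P Q R := by
  rw [← tri_rot]
  exact side_sub R P Q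

theorem tri_left (A B C : Pl) : A ∈ tri A B C :=
  side_sub A B C (left_mem_segment ℝ A B)

/-- Case D: a corner and an isolated point. -/
theorem case_D {S : Set Pl} (hS : Marked S) {L : List Curve} {n : ℕ} {D : ℕ → Set Pl}
    (hI : Inv S L n D) {c : Curve} (hc : Legal S L c) {A B C : Pl} (h : Std L (D n) A B C)
    {x : Pl} (hj : Joins c A x) (hx : x ∉ D n) (hiso : ∀ e ∈ L, x ∉ e.carrier)
    (hopen : Disjoint (c.carrier \ {c.a, c.b}) (D n)) : Goal S L c := by
  obtain ⟨O, hOc, hOD, -, hcurO, hptO, hOmem⟩ := out_exists hS hI [] {x}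
  have hOT : Disjoint O (tri A B C) := h.eq ▸ hOD
  obtain ⟨X, hndX, hOX, hint, hAX, hXB⟩ := geo_side A B C h.nd O hOc hOT
  obtain ⟨nn, K, hL⟩ := loc_corner A B C h.nd O hOc hOT
  have hAD : A ∈ D n := by
    rw [h.eq]
    exact tri_left A B C
  have hAxne : A ≠ x := fun hh => hx (hh ▸ hAD)
  have hcF : c.carrier ∩ (O ∪ tri A B C) ⊆ {A} := by
    rintro z ⟨hz, hzO | hzT⟩
    · rcases hOmem z hzO with ⟨e, he, hed, -, hze⟩ | ⟨hzS, hzD, hzY⟩
      · rcases hc.ends hj he hze hz with rfl | rfl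
        · exact absurd hAD (disjoint_left.1 hed hze)
        · exact absurd hze (hiso e he)
      · rcases hc.mends hj hzS hz with rfl | rfl
        · exact absurd hAD hzD
        · exact absurd rfl hzY
    · rw [← h.eq] at hzT
      rcases open_ends hj hopen hz hzT with rfl | rfl
      · rfl
      · exact absurd hzT hx
  have hAXtri : segment ℝ A X ⊆ tri A B X := by
    rw [segment_symm]
    exact side_sub3 A B X
  have hAXF : segment ℝ A X ∩ (O ∪ tri A B C) ⊆ {A} := by
    rintro z ⟨hz, hzO | hzT⟩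
    · exact absurd (hAXtri hz) (disjoint_left.1 hOX hzO)
    · rw [← hAX]
      exact ⟨hz, hzT⟩
  have hXA : X ≠ A := hndX.rot.rot.ne
  obtain ⟨k, hk, hid, him, hkx⟩ := move hj.arc X hXA (hOc.union (tri_compact A B C).isClosed) hL
    hcF hAXF
  have htriBAX : tri B A X = tri A B X := (tri_swap A B X).symm
  have hTsub : tri A B C ⊆ tri A B X := by
    intro z hz
    by_cases hz2 : z ∈ segment ℝ A B
    · exact side_sub A B X hz2
    · exact interior_subset (hint ⟨hz, hz2⟩)
  have hkT : ∀ z ∈ tri A B C, k z = z := fun z hz => hid z (Or.inr hz)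
  have hBT : B ∈ tri A B C := side_sub A B C (right_mem_segment ℝ A B)
  apply close_map hI hc k hk (p := B) (q := A) (r := x) (P := B) (Q := A) (R := X)
    (hkT B hBT) (hkT A (tri_left A B C)) hkx hndX.swap O
  · rw [htriBAX, h.eq]
    exact hTsub
  · rw [htriBAX]
    exact hOX
  · rintro z (hz | hz)
    · rw [h.eq] at hz
      exact hid z (Or.inr hz)
    · exact hid z (Or.inl hz)
  · rw [h.eq, inter_comm, hXB]
    simp
  · intro e he
    rcases hcurO e he with h1 | h1 | h1
    · exact Or.inl h1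
    · exact Or.inr (Or.inl h1)
    · simp at h1
  · rw [him, htriBAX]
    refine ⟨hAXtri, ?_⟩
    have := hndX.swap.rot.inter
    rw [hndX.swap.rot.inter]
    simp
  · exact (encard_singleton x).le.trans (by norm_num)
  · exact hptO
  · rintro z rfl _
    exact Or.inl hkx
  · exact frontier_card hI (Or.inr ⟨A, B, C, h⟩)
  · obtain ⟨e, he, hje, hcar⟩ := h.ab
    refine ⟨e, List.mem_cons_of_mem _ he, hje.symm, ?_⟩
    rw [hcar]
    have : ∀ z ∈ segment ℝ A B, k z = id z := fun z hz => hkT z (side_sub A B C hz)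
    rw [image_congr this, image_id, segment_symm]
  · exact ⟨c, List.mem_cons_self, hj, him⟩
  · exact (hc.joins_mem hj).2
  · obtain ⟨e, he, hje, -⟩ := h.ab
    exact (hI.joins_mem he hje).2
  · intro e he hje
    rcases List.mem_cons.1 he with rfl | he
    · rcases hj.pair hje with ⟨h1, h2⟩ | ⟨h1, h2⟩
      · exact hAxne h1
      · exact h.nd.ne h1
    · exact hiso e he hje.mem_left

/-- Case E: a corner and the endpoint of a floating curve. -/
theorem case_E {S : Set Pl} (hS : Marked S) {L : List Curve} {n : ℕ} {D : ℕ → Set Pl}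
    (hI : Inv S L n D) {c : Curve} (hc : Legal S L c) {A B C : Pl} (h : Std L (D n) A B C)
    {x w : Pl} (hj : Joins c A x) {f : Curve} (hf : f ∈ L) (hjf : Joins f x w)
    (hfl : Disjoint f.carrier (D n))
    (hopen : Disjoint (c.carrier \ {c.a, c.b}) (D n)) : Goal S L c := by
  obtain ⟨O, hOc, hOD, -, hcurO, hptO, hOmem⟩ := out_exists hS hI [f] {x, w}
  have hOT : Disjoint O (tri A B C) := h.eq ▸ hOD
  obtain ⟨X, W, hnd, hOX, hint⟩ := geo_corner A B C h.nd O hOc hOT
  obtain ⟨nn, K, hL⟩ := loc_corner A B C h.nd O hOc hOT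
  have hAD : A ∈ D n := by
    rw [h.eq]
    exact tri_left A B C
  have hx : x ∉ D n := fun hh => disjoint_left.1 hfl hjf.mem_left hh
  have hw : w ∉ D n := fun hh => disjoint_left.1 hfl hjf.mem_right hh
  have hAxne : A ≠ x := fun hh => hx (hh ▸ hAD)
  have hfE : ∀ e ∈ L, Disjoint e.carrier (D n) → e ∉ [f] → ∀ z ∈ f.carrier, z ∉ e.carrier := by
    intro e he hed hef z hz hze
    rcases hI.float f hf e he hfl hed with hh | hh
    · exact hef (by simp [hh])
    · exact disjoint_left.1 hh hz hze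
  have hcF : c.carrier ∩ (O ∪ tri A B C) ⊆ {A} := by
    rintro z ⟨hz, hzO | hzT⟩
    · rcases hOmem z hzO with ⟨e, he, hed, hef, hze⟩ | ⟨hzS, hzD, hzY⟩
      · rcases hc.ends hj he hze hz with rfl | rfl
        · exact absurd hAD (disjoint_left.1 hed hze)
        · exact absurd hze (hfE e he hed hef _ hjf.mem_left)
      · rcases hc.mends hj hzS hz with rfl | rfl
        · exact absurd hAD hzD
        · exact absurd (by simp) hzY
    · rw [← h.eq] at hzT
      rcases open_ends hj hopen hz hzT with rfl | rfl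
      · rfl
      · exact absurd hzT hx
  have hfF : Disjoint f.carrier (O ∪ tri A B C) := by
    rw [disjoint_left]
    rintro z hz (hzO | hzT)
    · rcases hOmem z hzO with ⟨e, he, hed, hef, hze⟩ | ⟨hzS, hzD, hzY⟩
      · exact hfE e he hed hef z hz hze
      · rcases hjf.ends (hI.marked f hf z hzS hz) with rfl | rfl
        · exact hzY (by simp)
        · exact hzY (by simp)
    · rw [← h.eq] at hzT
      exact disjoint_left.1 hfl hz hzT
  have h12 : c.carrier ∩ f.carrier = {x} := by
    apply Subset.antisymm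
    · rintro z ⟨hz, hzf⟩
      rcases hc.ends hj hf hzf hz with rfl | rfl
      · exact absurd hAD (disjoint_left.1 hfl hzf)
      · rfl
    · rintro _ rfl
      exact ⟨hj.mem_right, hjf.mem_left⟩
  have hAXs : segment ℝ A X ⊆ tri A X W := side_sub A X W
  have hXWs : segment ℝ X W ⊆ tri A X W := side_sub2 A X W
  have hAXi : Disjoint (segment ℝ A X) (interior (tri A X W)) := hnd.side_interior
  have hXWi : Disjoint (segment ℝ X W) (interior (tri A X W)) := by
    rw [tri_rot A X W]
    exact hnd.rot.side_interior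
  have hWAi : Disjoint (segment ℝ W A) (interior (tri A X W)) := by
    rw [← tri_rot W A X]
    exact hnd.rot.rot.side_interior
  have hAXF : segment ℝ A X ∩ (O ∪ tri A B C) ⊆ {A} := by
    rintro z ⟨hz, hzO | hzT⟩
    · exact absurd (hAXs hz) (disjoint_left.1 hOX hzO)
    · by_contra hzA
      exact disjoint_left.1 hAXi hz (hint ⟨hzT, hzA⟩)
  have hXWF : Disjoint (segment ℝ X W) (O ∪ tri A B C) := by
    rw [disjoint_left]
    rintro z hz (hzO | hzT)
    · exact disjoint_left.1 hOX hzO (hXWs hz)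
    · by_cases hzA : z = A
      · subst hzA
        have h1 : z ∈ segment ℝ z X ∩ segment ℝ X W := ⟨left_mem_segment ℝ z X, hz⟩
        rw [hnd.inter] at h1
        exact hnd.ne h1
      · exact disjoint_left.1 hXWi hz (hint ⟨hzT, hzA⟩)
  obtain ⟨k, hk, hid, him1, him2, hkA, hkx, hkw⟩ := straighten2 hj.arc hjf.arc h12
    (hOc.union (tri_compact A B C).isClosed) hL hcF hfF hnd hAXF hXWF
  have hTsub : tri A B C ⊆ tri A X W := by
    intro z hz
    by_cases hzA : z = A
    · rw [hzA]
      exact tri_left A X W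
    · exact interior_subset (hint ⟨hz, hzA⟩)
  apply close_map hI hc k hk (p := A) (q := x) (r := w) (P := A) (Q := X) (R := W)
    hkA hkx hkw hnd O
  · rw [h.eq]
    exact hTsub
  · exact hOX
  · rintro z (hz | hz)
    · rw [h.eq] at hz
      exact hid z (Or.inr hz)
    · exact hid z (Or.inl hz)
  · rw [h.eq]
    rintro z ⟨hzT, hz⟩
    by_contra hzA
    apply disjoint_left.1 hWAi hz (hint ⟨hzT, fun hh => hzA ?_⟩)
    right
    exact hh
  · intro e he
    rcases hcurO e he with h1 | h1 | ⟨h1, -⟩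
    · exact Or.inl h1
    · exact Or.inr (Or.inl h1)
    · have hef : e = f := by simpa using h1
      subst hef
      right; right
      rw [him2]
      refine ⟨hXWs, ?_⟩
      rw [hnd.rot.inter]
      simp
  · rw [him1]
    refine ⟨hAXs, ?_⟩
    rw [inter_comm, hnd.rot.rot.inter]
    simp
  · have hsub : ({x, w} : Set Pl) ⊆ {x, w, x, w} := by
      rintro z (rfl | rfl) <;> simp
    exact (encard_le_encard hsub).trans (encard_four x w x w)
  · exact hptO
  · rintro z (rfl | rfl) hz
    · rw [hkx] at hz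
      have h1 : X ∈ segment ℝ X W ∩ segment ℝ W A := ⟨left_mem_segment ℝ X W, hz⟩
      rw [hnd.rot.inter] at h1
      exact absurd h1 hnd.rot.ne
    · exact Or.inl hkw
  · exact frontier_card hI (Or.inr ⟨A, B, C, h⟩)
  · exact ⟨c, List.mem_cons_self, hj, him1⟩
  · exact ⟨f, List.mem_cons_of_mem _ hf, hjf, him2⟩
  · exact (hI.joins_mem hf hjf).2
  · exact (hc.joins_mem hj).1
  · intro e he hje
    rcases List.mem_cons.1 he with rfl | he
    · rcases hj.pair hje with ⟨h1, h2⟩ | ⟨h1, h2⟩
      · exact hw (h1 ▸ hAD)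
      · exact hjf.arc.ne h2
    · rcases hI.out e he with h1 | h1
      · exact hw (h1 hje.mem_left)
      · exact disjoint_left.1 h1 hje.mem_right hAD

theorem outer_tri {S : Set Pl} {L : List Curve} {n : ℕ} {D : ℕ → Set Pl}
    (hI : Inv S L n D) (hstd : n = 0 ∨ ∃ A B C, Std L (D n) A B C) {O : Set Pl}
    (hOc : IsClosed O) (hOD : Disjoint O (D n)) {x : Pl} (hx : x ∉ O) :
    ∃ P Q R : Pl, ND P Q R ∧ Disjoint O (tri P Q R) ∧ D n ⊆ interior (tri P Q R) := by
  rcases hstd with rfl | ⟨A, B, C, h⟩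
  · obtain ⟨P, Q, R, hnd, hd⟩ := tiny_tri hOc hx
    refine ⟨P, Q, R, hnd, hd, ?_⟩
    rw [hI.zero]
    exact empty_subset _
  · have hOT : Disjoint O (tri A B C) := h.eq ▸ hOD
    obtain ⟨P, Q, R, hnd, hd, hint⟩ := geo_all A B C h.nd O hOc hOT
    exact ⟨P, Q, R, hnd, hd, h.eq ▸ hint⟩

/-- Case B: an isolated point and the endpoint of a floating curve. -/
theorem case_B {S : Set Pl} (hS : Marked S) {L : List Curve} {n : ℕ} {D : ℕ → Set Pl}
    (hI : Inv S L n D) (hstd : n = 0 ∨ ∃ A B C, Std L (D n) A B C) {c : Curve}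
    (hc : Legal S L c) {x p q : Pl} (hj : Joins c x p) (hiso : ∀ e ∈ L, x ∉ e.carrier)
    (hx : x ∉ D n) {f : Curve} (hf : f ∈ L) (hjf : Joins f p q)
    (hfl : Disjoint f.carrier (D n))
    (hopen : Disjoint (c.carrier \ {c.a, c.b}) (D n)) : Goal S L c := by
  obtain ⟨O, hOc, hOD, hpre, hcurO, hptO, hOmem⟩ := out_exists hS hI [f] {x, p, q}
  have hp : p ∉ D n := fun hh => disjoint_left.1 hfl hjf.mem_left hh
  have hq : q ∉ D n := fun hh => disjoint_left.1 hfl hjf.mem_right hh
  have hfE : ∀ e ∈ L, Disjoint e.carrier (D n) → e ∉ [f] → ∀ z ∈ f.carrier, z ∉ e.carrier := by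
    intro e he hed hef z hz hze
    rcases hI.float f hf e he hfl hed with hh | hh
    · exact hef (by simp [hh])
    · exact disjoint_left.1 hh hz hze
  have hcF : Disjoint c.carrier (D n ∪ O) := by
    rw [disjoint_left]
    rintro z hz (hzT | hzO)
    · rcases open_ends hj hopen hz hzT with rfl | rfl
      · exact hx hzT
      · exact hp hzT
    · rcases hOmem z hzO with ⟨e, he, hed, hef, hze⟩ | ⟨hzS, hzD, hzY⟩
      · rcases hc.ends hj he hze hz with rfl | rfl
        · exact hiso e he hze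
        · exact hfE e he hed hef _ hjf.mem_left hze
      · rcases hc.mends hj hzS hz with rfl | rfl
        · exact hzY (by simp)
        · exact hzY (by simp)
  have hfF : Disjoint f.carrier (D n ∪ O) := by
    rw [disjoint_left]
    rintro z hz (hzT | hzO)
    · exact disjoint_left.1 hfl hz hzT
    · rcases hOmem z hzO with ⟨e, he, hed, hef, hze⟩ | ⟨hzS, hzD, hzY⟩
      · exact hfE e he hed hef z hz hze
      · rcases hjf.ends (hI.marked f hf z hzS hz) with rfl | rfl
        · exact hzY (by simp)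
        · exact hzY (by simp)
  have h12 : c.carrier ∩ f.carrier = {p} := by
    apply Subset.antisymm
    · rintro z ⟨hz, hzf⟩
      rcases hc.ends hj hf hzf hz with rfl | rfl
      · exact absurd hzf (hiso f hf)
      · rfl
    · rintro _ rfl
      exact ⟨hj.mem_right, hjf.mem_left⟩
  have hxO : x ∉ O := fun hh => disjoint_left.1 hcF hj.mem_left (Or.inr hh)
  obtain ⟨P, Q, R, hnd, hOX, hint⟩ := outer_tri hI hstd hOc hOD hxO
  have hPQs : segment ℝ P Q ⊆ tri P Q R := side_sub P Q R
  have hQRs : segment ℝ Q R ⊆ tri P Q R := side_sub2 P Q R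
  have hPQi : Disjoint (segment ℝ P Q) (interior (tri P Q R)) := hnd.side_interior
  have hQRi : Disjoint (segment ℝ Q R) (interior (tri P Q R)) := by
    rw [tri_rot P Q R]
    exact hnd.rot.side_interior
  have hRPi : Disjoint (segment ℝ R P) (interior (tri P Q R)) := by
    rw [← tri_rot R P Q]
    exact hnd.rot.rot.side_interior
  have hPQF : Disjoint (segment ℝ P Q) (D n ∪ O) := by
    rw [disjoint_left]
    rintro z hz (hzT | hzO)
    · exact disjoint_left.1 hPQi hz (hint hzT)
    · exact disjoint_left.1 hOX hzO (hPQs hz)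
  have hQRF : Disjoint (segment ℝ Q R) (D n ∪ O) := by
    rw [disjoint_left]
    rintro z hz (hzT | hzO)
    · exact disjoint_left.1 hQRi hz (hint hzT)
    · exact disjoint_left.1 hOX hzO (hQRs hz)
  obtain ⟨k, hk, hid, him1, him2, hkx, hkp, hkq⟩ := straighten2_free hj.arc hjf.arc h12
    ((hI.closed n).union hOc) hpre hcF hfF hnd hPQF hQRF
  apply close_map hI hc k hk (p := x) (q := p) (r := q) (P := P) (Q := Q) (R := R)
    hkx hkp hkq hnd O
  · exact hint.trans interior_subset
  · exact hOX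
  · exact hid
  · rintro z ⟨hzT, hz⟩
    exact absurd (hint hzT) (disjoint_left.1 hRPi hz)
  · intro e he
    rcases hcurO e he with h1 | h1 | ⟨h1, -⟩
    · exact Or.inl h1
    · exact Or.inr (Or.inl h1)
    · have hef : e = f := by simpa using h1
      subst hef
      right; right
      rw [him2]
      refine ⟨hQRs, ?_⟩
      rw [hnd.rot.inter]
      simp
  · rw [him1]
    refine ⟨hPQs, ?_⟩
    rw [inter_comm, hnd.rot.rot.inter]
    simp
  · have hsub : ({x, p, q} : Set Pl) ⊆ {x, p, q, x} := by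
      rintro z (rfl | rfl | rfl) <;> simp
    exact (encard_le_encard hsub).trans (encard_four x p q x)
  · exact hptO
  · rintro z (rfl | rfl | rfl) hz
    · exact Or.inr hkx
    · rw [hkp] at hz
      have h1 : Q ∈ segment ℝ Q R ∩ segment ℝ R P := ⟨left_mem_segment ℝ Q R, hz⟩
      rw [hnd.rot.inter] at h1
      exact absurd h1 hnd.rot.ne
    · exact Or.inl hkq
  · exact frontier_card hI hstd
  · exact ⟨c, List.mem_cons_self, hj, him1⟩
  · exact ⟨f, List.mem_cons_of_mem _ hf, hjf, him2⟩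
  · exact (hI.joins_mem hf hjf).2
  · exact (hc.joins_mem hj).1
  · intro e he hje
    rcases List.mem_cons.1 he with rfl | he
    · rcases hj.pair hje with ⟨h1, h2⟩ | ⟨h1, h2⟩
      · exact hiso f hf (h1 ▸ hjf.mem_right)
      · exact hjf.arc.ne h2
    · exact hiso e he hje.mem_right

/-- Case C: the endpoints of two floating curves. -/
theorem case_C {S : Set Pl} (hS : Marked S) {L : List Curve} {n : ℕ} {D : ℕ → Set Pl}
    (hI : Inv S L n D) (hstd : n = 0 ∨ ∃ A B C, Std L (D n) A B C) {c : Curve}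
    (hc : Legal S L c) {w x y t : Pl} (hj : Joins c x y)
    {f : Curve} (hf : f ∈ L) (hjf : Joins f w x) (hfl : Disjoint f.carrier (D n))
    {g : Curve} (hg : g ∈ L) (hjg : Joins g y t) (hgl : Disjoint g.carrier (D n))
    (hopen : Disjoint (c.carrier \ {c.a, c.b}) (D n)) : Goal S L c := by
  obtain ⟨O, hOc, hOD, hpre, hcurO, hptO, hOmem⟩ := out_exists hS hI [f, g] {w, x, y, t}
  have hxy : x ≠ y := hj.arc.ne
  have hfg : Disjoint f.carrier g.carrier := by
    rcases hI.float f hf g hg hfl hgl with hh | hh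
    · exfalso
      subst hh
      rcases hjf.pair hjg with ⟨h1, -⟩ | ⟨-, h2⟩
      · subst h1
        exact hc.joins_not hj hf hjf.symm
      · exact hxy h2
    · exact hh
  have hx : x ∉ D n := fun hh => disjoint_left.1 hfl hjf.mem_right hh
  have hy : y ∉ D n := fun hh => disjoint_left.1 hgl hjg.mem_left hh
  have hfE : ∀ e ∈ L, Disjoint e.carrier (D n) → e ∉ [f, g] → ∀ z ∈ f.carrier, z ∉ e.carrier := by
    intro e he hed hef z hz hze
    rcases hI.float f hf e he hfl hed with hh | hh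
    · exact hef (by simp [hh])
    · exact disjoint_left.1 hh hz hze
  have hgE : ∀ e ∈ L, Disjoint e.carrier (D n) → e ∉ [f, g] → ∀ z ∈ g.carrier, z ∉ e.carrier := by
    intro e he hed hef z hz hze
    rcases hI.float g hg e he hgl hed with hh | hh
    · exact hef (by simp [hh])
    · exact disjoint_left.1 hh hz hze
  have hcF : Disjoint c.carrier (D n ∪ O) := by
    rw [disjoint_left]
    rintro z hz (hzT | hzO)
    · rcases open_ends hj hopen hz hzT with rfl | rfl
      · exact hx hzT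
      · exact hy hzT
    · rcases hOmem z hzO with ⟨e, he, hed, hef, hze⟩ | ⟨hzS, hzD, hzY⟩
      · rcases hc.ends hj he hze hz with rfl | rfl
        · exact hfE e he hed hef _ hjf.mem_right hze
        · exact hgE e he hed hef _ hjg.mem_left hze
      · rcases hc.mends hj hzS hz with rfl | rfl
        · exact hzY (by simp)
        · exact hzY (by simp)
  have hfF : Disjoint f.carrier (D n ∪ O) := by
    rw [disjoint_left]
    rintro z hz (hzT | hzO)
    · exact disjoint_left.1 hfl hz hzT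
    · rcases hOmem z hzO with ⟨e, he, hed, hef, hze⟩ | ⟨hzS, hzD, hzY⟩
      · exact hfE e he hed hef z hz hze
      · rcases hjf.ends (hI.marked f hf z hzS hz) with rfl | rfl
        · exact hzY (by simp)
        · exact hzY (by simp)
  have hgF : Disjoint g.carrier (D n ∪ O) := by
    rw [disjoint_left]
    rintro z hz (hzT | hzO)
    · exact disjoint_left.1 hgl hz hzT
    · rcases hOmem z hzO with ⟨e, he, hed, hef, hze⟩ | ⟨hzS, hzD, hzY⟩
      · exact hgE e he hed hef z hz hze
      · rcases hjg.ends (hI.marked g hg z hzS hz) with rfl | rfl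
        · exact hzY (by simp)
        · exact hzY (by simp)
  have h12 : f.carrier ∩ c.carrier = {x} := by
    apply Subset.antisymm
    · rintro z ⟨hzf, hz⟩
      rcases hc.ends hj hf hzf hz with rfl | rfl
      · rfl
      · exact absurd hjg.mem_left (disjoint_left.1 hfg hzf)
    · rintro _ rfl
      exact ⟨hjf.mem_right, hj.mem_left⟩
  have h23 : c.carrier ∩ g.carrier = {y} := by
    apply Subset.antisymm
    · rintro z ⟨hz, hzg⟩
      rcases hc.ends hj hg hzg hz with rfl | rfl
      · exact absurd hzg (disjoint_left.1 hfg hjf.mem_right)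
      · rfl
    · rintro _ rfl
      exact ⟨hj.mem_right, hjg.mem_left⟩
  have hxO : x ∉ O := fun hh => disjoint_left.1 hcF hj.mem_left (Or.inr hh)
  obtain ⟨P, Q, R, hnd, hOX, hint⟩ := outer_tri hI hstd hOc hOD hxO
  have hPQs : segment ℝ P Q ⊆ tri P Q R := side_sub P Q R
  have hQRs : segment ℝ Q R ⊆ tri P Q R := side_sub2 P Q R
  have hPQi : Disjoint (segment ℝ P Q) (interior (tri P Q R)) := hnd.side_interior
  have hQRi : Disjoint (segment ℝ Q R) (interior (tri P Q R)) := by
    rw [tri_rot P Q R]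
    exact hnd.rot.side_interior
  have hRPi : Disjoint (segment ℝ R P) (interior (tri P Q R)) := by
    rw [← tri_rot R P Q]
    exact hnd.rot.rot.side_interior
  have hPQF : Disjoint (segment ℝ P Q) (D n ∪ O) := by
    rw [disjoint_left]
    rintro z hz (hzT | hzO)
    · exact disjoint_left.1 hPQi hz (hint hzT)
    · exact disjoint_left.1 hOX hzO (hPQs hz)
  have hQRF : Disjoint (segment ℝ Q R) (D n ∪ O) := by
    rw [disjoint_left]
    rintro z hz (hzT | hzO)
    · exact disjoint_left.1 hQRi hz (hint hzT)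
    · exact disjoint_left.1 hOX hzO (hQRs hz)
  have hRD : R ∉ D n := fun hh => disjoint_left.1 hRPi (left_mem_segment ℝ R P) (hint hh)
  obtain ⟨Z, hZR, hRZD, hRZs, hRZi⟩ := inner_point hnd (hI.closed n) hRD
  have hRZF : Disjoint (segment ℝ R Z) (D n ∪ O) := by
    rw [disjoint_left]
    rintro z hz (hzT | hzO)
    · exact disjoint_left.1 hRZD hz hzT
    · exact disjoint_left.1 hOX hzO (hRZs hz)
  have hRZ : segment ℝ R Z ∩ (segment ℝ P Q ∪ segment ℝ Q R) ⊆ {R} := by
    rintro z ⟨hz, hz2⟩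
    by_contra hzR
    have hzi := hRZi ⟨hz, hzR⟩
    rcases hz2 with hz2 | hz2
    · exact disjoint_left.1 hPQi hz2 hzi
    · exact disjoint_left.1 hQRi hz2 hzi
  have hRZ2 : segment ℝ R Z ∩ segment ℝ R P ⊆ {R} := by
    rintro z ⟨hz, hz2⟩
    by_contra hzR
    exact disjoint_left.1 hRPi hz2 (hRZi ⟨hz, hzR⟩)
  obtain ⟨k, hk, hid, him1, him2, him3, hkw, hkx, hky, hkt⟩ := straighten3_free hjf.arc hj.arc
    hjg.arc h12 h23 hfg ((hI.closed n).union hOc) hpre hfF hcF hgF hnd hPQF hQRF hRZF hZR hRZ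
  apply close_map hI hc k hk (p := w) (q := x) (r := y) (P := P) (Q := Q) (R := R)
    hkw hkx hky hnd O
  · exact hint.trans interior_subset
  · exact hOX
  · exact hid
  · rintro z ⟨hzT, hz⟩
    exact absurd (hint hzT) (disjoint_left.1 hRPi hz)
  · intro e he
    rcases hcurO e he with h1 | h1 | ⟨h1, -⟩
    · exact Or.inl h1
    · exact Or.inr (Or.inl h1)
    · right; right
      rw [List.mem_cons, List.mem_singleton] at h1
      rcases h1 with rfl | rfl
      · rw [him1]
        refine ⟨hPQs, ?_⟩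
        rw [inter_comm, hnd.rot.rot.inter]
        simp
      · rw [him3]
        exact ⟨hRZs, hRZ2.trans (by simp)⟩
  · rw [him2]
    refine ⟨hQRs, ?_⟩
    rw [hnd.rot.inter]
    simp
  · exact encard_four w x y t
  · exact hptO
  · rintro z (rfl | rfl | rfl | rfl) hz
    · exact Or.inr hkw
    · rw [hkx] at hz
      have h1 : Q ∈ segment ℝ Q R ∩ segment ℝ R P := ⟨left_mem_segment ℝ Q R, hz⟩
      rw [hnd.rot.inter] at h1
      exact absurd h1 hnd.rot.ne
    · exact Or.inl hky
    · rw [hkt] at hz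
      have := hRZ2 ⟨right_mem_segment ℝ R Z, hz⟩
      exact absurd this hZR
  · exact frontier_card hI hstd
  · exact ⟨f, List.mem_cons_of_mem _ hf, hjf, him1⟩
  · exact ⟨c, List.mem_cons_self, hj, him2⟩
  · exact (hc.joins_mem hj).2
  · exact (hI.joins_mem hf hjf).1
  · intro e he hje
    have hwg : w ∉ g.carrier := disjoint_left.1 hfg hjf.mem_left
    rcases List.mem_cons.1 he with rfl | he
    · rcases hj.pair hje with ⟨h1, h2⟩ | ⟨h1, h2⟩
      · exact hxy h1
      · exact hjf.arc.ne h1.symm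
    · rcases hI.out e he with h1 | h1
      · exact hy (h1 hje.mem_left)
      · rcases hI.float e he g hg h1 hgl with hh | hh
        · subst hh
          exact hwg hje.mem_right
        · exact disjoint_left.1 hh hje.mem_left hjg.mem_left

/-- An outside marked point is isolated or an endpoint of a floating curve. -/
theorem iso_or {S : Set Pl} {L : List Curve} {n : ℕ} {D : ℕ → Set Pl}
    (hI : Inv S L n D) {x : Pl} (hxS : x ∈ S) (hx : x ∉ D n) : (∀ e ∈ L, x ∉ e.carrier) ∨
      ∃ f ∈ L, ∃ w, Joins f x w ∧ Disjoint f.carrier (D n) := by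
  by_cases h : ∀ e ∈ L, x ∉ e.carrier
  · exact Or.inl h
  · right
    push Not at h
    obtain ⟨f, hf, hxf⟩ := h
    have hfl : Disjoint f.carrier (D n) := by
      rcases hI.out f hf with h1 | h1
      · exact absurd (h1 hxf) hx
      · exact h1
    rcases hI.marked f hf x hxS hxf with rfl | rfl
    · exact ⟨f, hf, f.b, Or.inl ⟨rfl, rfl⟩, hfl⟩
    · exact ⟨f, hf, f.a, Or.inr ⟨rfl, rfl⟩, hfl⟩

/-- A corner and an outside point. -/
theorem case_corner {S : Set Pl} (hS : Marked S) {L : List Curve} {n : ℕ} {D : ℕ → Set Pl}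
    (hI : Inv S L n D) (hstd : n = 0 ∨ ∃ A B C, Std L (D n) A B C) {c : Curve}
    (hc : Legal S L c) {a x : Pl} (hj : Joins c a x) (ha : a ∈ frontier (D n)) (hx : x ∉ D n)
    (hopen : Disjoint (c.carrier \ {c.a, c.b}) (D n)) : Goal S L c := by
  have key : ∀ A B C : Pl, Std L (D n) A B C → a = A → Goal S L c := by
    rintro A B C h rfl
    rcases iso_or hI (hc.joins_mem hj).2 hx with hiso | ⟨f, hf, w, hjf, hfl⟩
    · exact case_D hS hI hc h hj hx hiso hopen
    · exact case_E hS hI hc h hj hf hjf hfl hopen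
  rcases hstd with rfl | ⟨A, B, C, h⟩
  · rw [hI.zero] at ha
    simp at ha
  · have := h.frontier_le hI ⟨(hc.joins_mem hj).1, ha⟩
    rcases this with rfl | rfl | rfl
    · exact key _ _ _ h rfl
    · exact key _ _ _ h.rot rfl
    · exact key _ _ _ h.rot.rot rfl

theorem step_std {S : Set Pl} (hS : Marked S) {L : List Curve} {n : ℕ} {D : ℕ → Set Pl}
    (hI : Inv S L n D) (hstd : n = 0 ∨ ∃ A B C, Std L (D n) A B C) {c : Curve}
    (hc : Legal S L c) : Goal S L c := by
  have hjc : Joins c c.a c.b := Or.inl ⟨rfl, rfl⟩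
  have simple : (c.carrier ⊆ D n ∨ (Disjoint c.carrier (D n) ∧
      ∀ e ∈ L, Disjoint e.carrier (D n) → Disjoint e.carrier c.carrier)) → Goal S L c := by
    intro h
    obtain ⟨c', hc', hI'⟩ := add_float hS (hI.cons hc h)
    exact ⟨c', hc', n, D, hI'⟩
  rcases hc.in_or_out (hI.closed n) (hI.cover n le_rfl) with ⟨-, hin⟩ | ⟨hopen, hdis⟩
  · exact simple (Or.inl hin)
  have hfront : ∀ z ∈ c.carrier, z ∈ D n → z ∈ frontier (D n) := by
    intro z hz hzD
    rw [(hI.closed n).frontier_eq]
    exact ⟨hzD, disjoint_left.1 hdis hz⟩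
  by_cases ha : c.a ∈ D n
  · have hfa := hfront _ hjc.mem_left ha
    by_cases hb : c.b ∈ D n
    · exfalso
      have hfb := hfront _ hjc.mem_right hb
      rcases hstd with rfl | ⟨A, B, C, h⟩
      · rw [hI.zero] at ha
        simp at ha
      · have hA := h.frontier_le hI ⟨hc.mem_a, hfa⟩
        have hB := h.frontier_le hI ⟨hc.mem_b, hfb⟩
        have hne := c.isArc.ne
        obtain ⟨e1, he1, hj1, -⟩ := h.ab
        obtain ⟨e2, he2, hj2, -⟩ := h.bc
        obtain ⟨e3, he3, hj3, -⟩ := h.ca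
        have n1 := hc.joins_not hjc he1
        have n2 := hc.joins_not hjc he2
        have n3 := hc.joins_not hjc he3
        rcases hA with hA | hA | hA <;> rcases hB with hB | hB | hB
        · exact hne (hA.trans hB.symm)
        · rw [hA, hB] at n1; exact n1 hj1
        · rw [hA, hB] at n3; exact n3 hj3.symm
        · rw [hA, hB] at n1; exact n1 hj1.symm
        · exact hne (hA.trans hB.symm)
        · rw [hA, hB] at n2; exact n2 hj2
        · rw [hA, hB] at n3; exact n3 hj3
        · rw [hA, hB] at n2; exact n2 hj2.symm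
        · exact hne (hA.trans hB.symm)
    · exact case_corner hS hI hstd hc hjc hfa hb hopen
  · by_cases hb : c.b ∈ D n
    · exact case_corner hS hI hstd hc hjc.symm (hfront _ hjc.mem_right hb) ha hopen
    · have hcD : Disjoint c.carrier (D n) := by
        rw [disjoint_left]
        intro z hz hzD
        rcases open_ends hjc hopen hz hzD with rfl | rfl
        · exact ha hzD
        · exact hb hzD
      rcases iso_or hI hc.mem_a ha with isoa | ⟨f, hf, w, hjf, hfl⟩
      · rcases iso_or hI hc.mem_b hb with isob | ⟨g, hg, t, hjg, hgl⟩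
        · apply simple
          right
          refine ⟨hcD, fun e he _ => ?_⟩
          rw [disjoint_left]
          intro z hz hz'
          rcases hc.ends hjc he hz hz' with rfl | rfl
          · exact isoa e he hz
          · exact isob e he hz
        · exact case_B hS hI hstd hc hjc isoa ha hg hjg hgl hopen
      · rcases iso_or hI hc.mem_b hb with isob | ⟨g, hg, t, hjg, hgl⟩
        · exact case_B hS hI hstd hc hjc.symm isob hb hf hjf hfl hopen
        · exact case_C hS hI hstd hc hjc hf hjf.symm hfl hg hjg hgl hopen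

theorem step (S : Set Pl) (hS : Marked S) (L : List Curve) (n : ℕ) (D : ℕ → Set Pl)
    (hI : Inv S L n D) (c : Curve) (hc : Legal S L c) :
    ∃ c' : Curve, Legal S (c :: L) c' ∧ ∃ (m : ℕ) (D' : ℕ → Set Pl),
      Inv S (c' :: c :: L) m D' := by
  change Goal S L c
  rcases hI.last with h0 | ⟨h, A, B, C, hh, hnd, hDn, hab, hbc, hca⟩
  · exact step_std hS hI (Or.inl h0) hc
  · apply Goal.of_map h hh
    apply step_std (hS.map h) (hI.map h hh) _ (hc.map h hh)
    right
    have side : ∀ U V : Pl, (∃ e ∈ L, ((e.a = h.symm U ∧ e.b = h.symm V) ∨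
        (e.a = h.symm V ∧ e.b = h.symm U)) ∧ e.carrier = h ⁻¹' segment ℝ U V) →
        ∃ e ∈ L.map (Curve.map h hh), Joins e U V ∧ e.carrier = segment ℝ U V := by
      rintro U V ⟨e, he, hj, hcar⟩
      refine ⟨e.map h hh, List.mem_map_of_mem he, ?_, ?_⟩
      · have hj' : Joins e (h.symm U) (h.symm V) := hj
        have := hj'.map h hh
        rwa [h.apply_symm_apply, h.apply_symm_apply] at this
      · change h '' e.carrier = _
        rw [hcar, image_preimage_eq _ h.surjective]
    refine ⟨A, B, C, hnd, ?_, side A B hab, side B C hbc, side C A hca⟩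
    change h '' D n = _
    rw [hDn, image_preimage_eq _ h.surjective]

end Pool.Agent.EDG
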