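import Pool.Agent.EDG.Pre

/-! Basic facts on polygonal curves and piecewise linear homeomorphisms. -/

set_option autoImplicit false

namespace Pool.Agent.EDG

open Set

theorem PolyArc.left_mem {a b : Pl} {E : Set Pl} (h : PolyArc a b E) : a ∈ E := by
  induction h with
  | single a b h => exact left_mem_segment ℝ a b
  | cons a v b E h hE hm ih => exact Or.inl (left_mem_segment ℝ a v)

theorem PolyArc.right_mem {a b : Pl} {E : Set Pl} (h : PolyArc a b E) : b ∈ E := by
  induction h with
  | single a b h => exact right_mem_segment ℝ a b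
  | cons a v b E h hE hm ih => exact Or.inr ih

theorem plb_left_not_mem {a v : Pl} {E : Set Pl} (h : a ≠ v)
    (hm : segment ℝ a v ∩ E = {v}) : a ∉ E := by
  intro ha
  have h1 : a ∈ segment ℝ a v ∩ E := ⟨left_mem_segment ℝ a v, ha⟩
  rw [hm] at h1
  exact h h1

theorem PolyArc.ne {a b : Pl} {E : Set Pl} (h : PolyArc a b E) : a ≠ b := by
  cases h with
  | single a b h => exact h
  | cons a v b E h hE hm =>
    intro hab
    apply plb_left_not_mem h hm
    rw [hab]
    exact hE.right_mem

theorem plb_right_not_mem {a v b : Pl} {E : Set Pl} (hE : PolyArc v b E)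
    (hm : segment ℝ a v ∩ E = {v}) : b ∉ segment ℝ a v := by
  intro hb
  have h1 : b ∈ segment ℝ a v ∩ E := ⟨hb, hE.right_mem⟩
  rw [hm] at h1
  exact hE.ne h1.symm

theorem plb_segment_compact (a b : Pl) : IsCompact (segment ℝ a b) := by
  rw [segment_eq_image_lineMap]
  exact isCompact_Icc.image AffineMap.lineMap_continuous

theorem PolyArc.isCompact {a b : Pl} {E : Set Pl} (h : PolyArc a b E) : IsCompact E := by
  induction h with
  | single a b h => exact plb_segment_compact a b
  | cons a v b E h hE hm ih => exact (plb_segment_compact a v).union ih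

theorem PolyArc.concat {a v b : Pl} {E1 E2 : Set Pl} (h1 : PolyArc a v E1) (h2 : PolyArc v b E2)
    (h : E1 ∩ E2 = {v}) : PolyArc a b (E1 ∪ E2) := by
  induction h1 with
  | single a v h1 => exact PolyArc.cons a v b E2 h1 h2 h
  | cons a v1 v E1 h1 hE hm ih =>
    have h3 : E1 ∩ E2 = {v} := by
      apply Subset.antisymm
      · rw [← h]
        exact inter_subset_inter_left _ subset_union_right
      · intro z hz
        rw [mem_singleton_iff] at hz
        subst hz
        exact ⟨hE.right_mem, h2.left_mem⟩
    rw [union_assoc]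
    refine PolyArc.cons a v1 b (E1 ∪ E2) h1 (ih h2 h3) ?_
    rw [inter_union_distrib_left, hm]
    apply Subset.antisymm
    · rintro z (hz | ⟨hz1, hz2⟩)
      · exact hz
      · have h4 : z ∈ (segment ℝ a v1 ∪ E1) ∩ E2 := ⟨Or.inl hz1, hz2⟩
        rw [h] at h4
        rw [mem_singleton_iff] at h4
        subst h4
        rw [← hm]
        exact ⟨hz1, hE.right_mem⟩
    · exact subset_union_left

theorem PolyArc.symm {a b : Pl} {E : Set Pl} (h : PolyArc a b E) : PolyArc b a E := by
  induction h with
  | single a b h =>
    rw [segment_symm]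
    exact PolyArc.single b a h.symm
  | cons a v b E h hE hm ih =>
    rw [segment_symm, union_comm]
    refine ih.concat (PolyArc.single v a h.symm) ?_
    rw [inter_comm, segment_symm]
    exact hm

theorem plb_open (a b : Pl) (h : a ≠ b) : segment ℝ a b \ {a, b} = openSegment ℝ a b := by
  apply Subset.antisymm
  · rintro z ⟨hz, hz2⟩
    rw [← insert_endpoints_openSegment] at hz
    simp only [mem_insert_iff, mem_singleton_iff, not_or] at hz hz2
    tauto
  · intro z hz
    refine ⟨openSegment_subset_segment ℝ a b hz, ?_⟩
    rintro (h1 | h1)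
    · subst h1
      exact h (left_mem_openSegment_iff.mp hz)
    · rw [mem_singleton_iff] at h1
      subst h1
      exact h (right_mem_openSegment_iff.mp hz)

theorem plb_both {a b : Pl} {E : Set Pl} (h : PolyArc a b E) :
    IsPreconnected (E \ {a, b}) ∧ E ⊆ closure (E \ {a, b}) := by
  induction h with
  | single a b h =>
    rw [plb_open a b h]
    exact ⟨(convex_openSegment a b).isPreconnected, segment_subset_closure_openSegment⟩
  | cons a v b E h hE hm ih =>
    have ha : a ∉ E := plb_left_not_mem h hm
    have hb : b ∉ segment ℝ a v := plb_right_not_mem hE hm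
    have hvb : v ≠ b := hE.ne
    constructor
    · have h1 : IsPreconnected (segment ℝ a v \ {a}) := by
        refine IsPreconnected.subset_closure (s := segment ℝ a v \ {a, v}) ?_ ?_ ?_
        · rw [plb_open a v h]
          exact (convex_openSegment a v).isPreconnected
        · intro z hz
          exact ⟨hz.1, fun h1 => hz.2 (Or.inl h1)⟩
        · rw [plb_open a v h]
          exact sdiff_subset.trans segment_subset_closure_openSegment
      have h2 : IsPreconnected (E \ {b}) := by
        refine IsPreconnected.subset_closure (s := E \ {v, b}) ih.1 ?_ ?_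
        · intro z hz
          exact ⟨hz.1, fun h1 => hz.2 (Or.inr h1)⟩
        · exact sdiff_subset.trans ih.2
      have h3 : (segment ℝ a v ∪ E) \ {a, b} = (segment ℝ a v \ {a}) ∪ (E \ {b}) := by
        ext z
        simp only [mem_sdiff, mem_union, mem_insert_iff, mem_singleton_iff, not_or]
        constructor
        · rintro ⟨hz1 | hz1, hz2, hz3⟩
          · exact Or.inl ⟨hz1, hz2⟩
          · exact Or.inr ⟨hz1, hz3⟩
        · rintro (⟨hz1, hz2⟩ | ⟨hz1, hz2⟩)
          · exact ⟨Or.inl hz1, hz2, fun h4 => hb (h4 ▸ hz1)⟩
          · exact ⟨Or.inr hz1, fun h4 => ha (h4 ▸ hz1), hz2⟩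
      rw [h3]
      exact IsPreconnected.union v ⟨right_mem_segment ℝ a v, fun h4 => h h4.symm⟩
        ⟨hE.left_mem, hvb⟩ h1 h2
    · apply union_subset
      · have h1 : segment ℝ a v ⊆ closure (segment ℝ a v \ {a, v}) := by
          rw [plb_open a v h]
          exact segment_subset_closure_openSegment
        refine h1.trans (closure_mono ?_)
        rintro z ⟨hz1, hz2⟩
        refine ⟨Or.inl hz1, ?_⟩
        rintro (h4 | h4)
        · exact hz2 (Or.inl h4)
        · rw [mem_singleton_iff] at h4
          exact hb (h4 ▸ hz1)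
      · refine ih.2.trans (closure_mono ?_)
        rintro z ⟨hz1, hz2⟩
        refine ⟨Or.inr hz1, ?_⟩
        rintro (h4 | h4)
        · exact ha (h4 ▸ hz1)
        · exact hz2 (Or.inr h4)

/-- The curve without its endpoints is connected and dense in the curve. -/
theorem PolyArc.isPreconnected_diff {a b : Pl} {E : Set Pl} (h : PolyArc a b E) :
    IsPreconnected (E \ {a, b}) := (plb_both h).1

theorem PolyArc.subset_closure {a b : Pl} {E : Set Pl} (h : PolyArc a b E) :
    E ⊆ closure (E \ {a, b}) := (plb_both h).2

theorem PolyArc.image {a b : Pl} {E : Set Pl} {h : Pl ≃ₜ Pl} (hh : IsPL h) (hE : PolyArc a b E) :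
    PolyArc (h a) (h b) (h '' E) := by
  induction hE with
  | single a b h1 => exact hh.1 a b h1
  | cons a v b E h1 hE hm ih =>
    rw [image_union]
    refine (hh.1 a v h1).concat ih ?_
    rw [← image_inter h.injective, hm, image_singleton]

theorem IsPL.refl : IsPL (Homeomorph.refl Pl) := by
  constructor
  · intro u v huv
    have h1 : (Homeomorph.refl Pl) '' segment ℝ u v = segment ℝ u v := by
      simp
    rw [h1]
    exact PolyArc.single u v huv
  · intro u v huv
    have h1 : (Homeomorph.refl Pl).symm '' segment ℝ u v = segment ℝ u v := by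
      simp
    rw [h1]
    exact PolyArc.single u v huv

theorem IsPL.symm {h : Pl ≃ₜ Pl} (hh : IsPL h) : IsPL h.symm := by
  refine ⟨hh.2, ?_⟩
  rw [Homeomorph.symm_symm]
  exact hh.1

theorem IsPL.trans {h g : Pl ≃ₜ Pl} (hh : IsPL h) (hg : IsPL g) : IsPL (h.trans g) := by
  constructor
  · intro u v huv
    have h1 : (h.trans g) '' segment ℝ u v = g '' (h '' segment ℝ u v) := by
      rw [image_image]
      rfl
    rw [h1]
    exact PolyArc.image hg (hh.1 u v huv)
  · intro u v huv
    have h1 : (h.trans g).symm '' segment ℝ u v = h.symm '' (g.symm '' segment ℝ u v) := by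
      rw [image_image]
      rfl
    rw [h1]
    exact PolyArc.image hh.symm (hg.2 u v huv)

end Pool.Agent.EDG
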