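import Pool.Agent.EDG.TR
import Pool.Agent.EDG.GEO1
import Pool.Agent.EDG.PLB
import Pool.Agent.EDG.GEOB2

/-! Adding curves and discs to the invariant. -/

set_option autoImplicit false

namespace Pool.Agent.EDG

open Set

/-- The open curve is connected and avoids the frontier. -/
theorem Legal.in_or_out {S : Set Pl} {L : List Curve} {c : Curve} (hc : Legal S L c)
    {Z : Set Pl} (hZ : IsClosed Z) (hfr : frontier Z ⊆ ⋃ e ∈ L, e.carrier) :
    (c.carrier \ {c.a, c.b} ⊆ interior Z ∧ c.carrier ⊆ Z) ∨
      (Disjoint (c.carrier \ {c.a, c.b}) Z ∧ Disjoint c.carrier (interior Z)) := by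
  have hpre : IsPreconnected (c.carrier \ {c.a, c.b}) := c.isArc.isPreconnected_diff
  have hcl : c.carrier ⊆ closure (c.carrier \ {c.a, c.b}) := c.isArc.subset_closure
  have hav : ∀ z ∈ c.carrier \ {c.a, c.b}, z ∉ frontier Z := by
    intro z hz hzf
    have h1 := hfr hzf
    rw [mem_iUnion₂] at h1
    obtain ⟨e, he, hze⟩ := h1
    exact hz.2 (hc.meets e he ⟨hze, hz.1⟩)
  have hcov : c.carrier \ {c.a, c.b} ⊆ interior Z ∪ Zᶜ := by
    intro z hz
    by_cases hzZ : z ∈ Z
    · left
      by_contra hzi
      apply hav z hz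
      rw [hZ.frontier_eq]
      exact ⟨hzZ, hzi⟩
    · right
      exact hzZ
  have hdj : Disjoint (interior Z) Zᶜ := by
    rw [disjoint_compl_right_iff_subset]
    exact interior_subset
  have hor : c.carrier \ {c.a, c.b} ⊆ interior Z ∨ c.carrier \ {c.a, c.b} ⊆ Zᶜ := by
    rcases hpre.subset_or_subset isOpen_interior hZ.isOpen_compl hdj hcov with h | h
    · exact Or.inl h
    · exact Or.inr h
  rcases hor with h | h
  · left
    refine ⟨h, ?_⟩
    refine hcl.trans ?_
    refine (closure_mono (h.trans interior_subset)).trans ?_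
    rw [hZ.closure_eq]
  · right
    constructor
    · rw [← subset_compl_iff_disjoint_right]
      exact h
    · rw [← subset_compl_iff_disjoint_right]
      refine hcl.trans ?_
      have h2 : c.carrier \ {c.a, c.b} ⊆ (interior Z)ᶜ := by
        refine h.trans ?_
        exact compl_subset_compl.mpr interior_subset
      refine (closure_mono h2).trans ?_
      rw [isOpen_interior.isClosed_compl.closure_eq]

theorem Inv.cons {S : Set Pl} {L : List Curve} {n : ℕ} {D : ℕ → Set Pl} (hI : Inv S L n D)
    {c : Curve} (hc : Legal S L c) (h : c.carrier ⊆ D n ∨ (Disjoint c.carrier (D n) ∧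
      ∀ e ∈ L, Disjoint e.carrier (D n) → Disjoint e.carrier c.carrier)) :
    Inv S (c :: L) n D := by
  have hne : c.carrier.Nonempty := ⟨c.a, c.isArc.left_mem⟩
  constructor
  · intro e he
    rcases List.mem_cons.mp he with rfl | he
    · exact hc.mem_a
    · exact hI.mem_a e he
  · intro e he
    rcases List.mem_cons.mp he with rfl | he
    · exact hc.mem_b
    · exact hI.mem_b e he
  · intro e he
    rcases List.mem_cons.mp he with rfl | he
    · exact hc.marked
    · exact hI.marked e he
  · exact hI.closed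
  · exact hI.zero
  · exact hI.mono
  · intro i hi
    refine (hI.cover i hi).trans ?_
    intro z hz
    rw [mem_iUnion₂] at hz ⊢
    obtain ⟨e, he, hze⟩ := hz
    exact ⟨e, List.mem_cons_of_mem c he, hze⟩
  · intro i hi e he
    rcases List.mem_cons.mp he with rfl | he
    · rcases hc.in_or_out (hI.closed i) (hI.cover i hi) with h1 | h1
      · exact Or.inl h1.2
      · exact Or.inr h1.2
    · exact hI.sep i hi e he
  · exact hI.bag
  · intro e he
    rcases List.mem_cons.mp he with rfl | he
    · rcases h with h1 | h1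
      · exact Or.inl h1
      · exact Or.inr h1.1
    · exact hI.out e he
  · intro e he f hf h1 h2
    have hout : Disjoint c.carrier (D n) →
        ∀ e ∈ L, Disjoint e.carrier (D n) → Disjoint e.carrier c.carrier := by
      intro h3
      rcases h with h4 | h4
      · exfalso
        obtain ⟨z, hz⟩ := hne
        exact (Set.disjoint_left.mp h3) hz (h4 hz)
      · exact h4.2
    rcases List.mem_cons.mp he with hec | heL
    · rcases List.mem_cons.mp hf with hfc | hfL
      · exact Or.inl (hec.trans hfc.symm)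
      · subst hec
        exact Or.inr (hout h1 f hfL h2).symm
    · rcases List.mem_cons.mp hf with hfc | hfL
      · subst hfc
        exact Or.inr (hout h2 e heL h1)
      · exact hI.float e heL f hfL h1 h2
  · rcases hI.last with h1 | ⟨g, A, B, C, hg, hnd, hD, ⟨e1, he1, h1⟩, ⟨e2, he2, h2⟩, ⟨e3, he3, h3⟩⟩
    · exact Or.inl h1
    · right
      exact ⟨g, A, B, C, hg, hnd, hD, ⟨e1, List.mem_cons_of_mem c he1, h1⟩,
        ⟨e2, List.mem_cons_of_mem c he2, h2⟩, ⟨e3, List.mem_cons_of_mem c he3, h3⟩⟩

theorem close {S : Set Pl} {L : List Curve} {n : ℕ} {D : ℕ → Set Pl} {c : Curve}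
    (hI : Inv S L n D) (hc : Legal S L c) (P Q R : Pl) (hnd : ND P Q R) (O : Set Pl)
    (hD : D n ⊆ tri P Q R) (hO : Disjoint O (tri P Q R))
    (hcur : ∀ e ∈ c :: L, e.carrier ⊆ O ∨
      (e.carrier ⊆ tri P Q R ∧ e.carrier ∩ segment ℝ R P ⊆ {R, P}))
    (hpt : ∀ z ∈ S, z ∈ segment ℝ R P → z = R ∨ z = P)
    (hbag : (S ∩ (tri P Q R \ interior (D n))).encard ≤ 7)
    (hct : c.carrier ⊆ tri P Q R)
    (h1 : ∃ e ∈ c :: L, ((e.a = P ∧ e.b = Q) ∨ (e.a = Q ∧ e.b = P)) ∧ e.carrier = segment ℝ P Q)
    (h2 : ∃ e ∈ c :: L, ((e.a = Q ∧ e.b = R) ∨ (e.a = R ∧ e.b = Q)) ∧ e.carrier = segment ℝ Q R)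
    (hR : R ∈ S) (hP : P ∈ S)
    (hnj : ∀ e ∈ c :: L, ¬ ((e.a = R ∧ e.b = P) ∨ (e.a = P ∧ e.b = R))) : Goal S L c := by
  have hRP : R ≠ P := (hnd.rot.rot).ne
  have hside : segment ℝ R P ⊆ tri P Q R := by
    have h3 := side_sub R P Q
    rwa [tri_rot] at h3
  have hclosed : IsClosed (tri P Q R) := (tri_compact P Q R).isClosed
  let c' : Curve := ⟨R, P, segment ℝ R P, PolyArc.single R P hRP⟩
  have hlegal : Legal S (c :: L) c' := by
    constructor
    · exact hR
    · exact hP
    · exact hnj
    · exact hpt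
    · intro e he
      rcases hcur e he with h3 | h3
      · rintro z ⟨hz1, hz2⟩
        exfalso
        exact (Set.disjoint_left.mp hO) (h3 hz1) (hside hz2)
      · exact h3.2
  have hmem : ∀ e, e ∈ c' :: c :: L → e = c' ∨ e = c ∨ e ∈ L := by
    intro e he
    rcases List.mem_cons.mp he with he | he
    · exact Or.inl he
    · rcases List.mem_cons.mp he with he | he
      · exact Or.inr (Or.inl he)
      · exact Or.inr (Or.inr he)
  have hsubL : ∀ e, e ∈ L → e ∈ c' :: c :: L := fun e he =>
    List.mem_cons_of_mem _ (List.mem_cons_of_mem _ he)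
  have hsubcL : ∀ e, e ∈ c :: L → e ∈ c' :: c :: L := fun e he =>
    List.mem_cons_of_mem _ he
  obtain ⟨D', hDn, hDn1⟩ : ∃ D' : ℕ → Set Pl, (∀ i, i ≤ n → D' i = D i) ∧
      (∀ i, ¬ i ≤ n → D' i = tri P Q R) :=
    ⟨fun i => if i ≤ n then D i else tri P Q R, fun i hi => if_pos hi, fun i hi => if_neg hi⟩
  refine ⟨c', hlegal, n + 1, D', ?_⟩
  constructor
  · intro e he
    rcases hmem e he with rfl | rfl | he
    · exact hR
    · exact hc.mem_a
    · exact hI.mem_a e he
  · intro e he
    rcases hmem e he with rfl | rfl | he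
    · exact hP
    · exact hc.mem_b
    · exact hI.mem_b e he
  · intro e he
    rcases hmem e he with rfl | rfl | he
    · exact hpt
    · exact hc.marked
    · exact hI.marked e he
  · intro i
    by_cases hi : i ≤ n
    · rw [hDn i hi]
      exact hI.closed i
    · rw [hDn1 i hi]
      exact hclosed
  · rw [hDn 0 (Nat.zero_le n)]
    exact hI.zero
  · intro i
    by_cases hi : i + 1 ≤ n
    · rw [hDn i (by omega), hDn (i + 1) hi]
      exact hI.mono i
    · rw [hDn1 (i + 1) hi]
      by_cases hi2 : i ≤ n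
      · rw [hDn i hi2]
        have : i = n := by omega
        rw [this]
        exact hD
      · rw [hDn1 i hi2]
  · intro i hi
    by_cases hi2 : i ≤ n
    · rw [hDn i hi2]
      refine (hI.cover i hi2).trans ?_
      intro z hz
      rw [mem_iUnion₂] at hz ⊢
      obtain ⟨e, he, hze⟩ := hz
      exact ⟨e, hsubL e he, hze⟩
    · rw [hDn1 i hi2, tri_frontier P Q R hnd]
      obtain ⟨e1, he1, -, hs1⟩ := h1
      obtain ⟨e2, he2, -, hs2⟩ := h2
      rintro z ((hz | hz) | hz)
      · rw [mem_iUnion₂]
        refine ⟨e1, hsubcL e1 he1, ?_⟩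
        rw [hs1]
        exact hz
      · rw [mem_iUnion₂]
        refine ⟨e2, hsubcL e2 he2, ?_⟩
        rw [hs2]
        exact hz
      · rw [mem_iUnion₂]
        exact ⟨c', List.mem_cons_self, hz⟩
  · intro i hi e he
    by_cases hi2 : i ≤ n
    · rw [hDn i hi2]
      have hfr1 : frontier (D i) ⊆ ⋃ e ∈ c :: L, e.carrier := by
        refine (hI.cover i hi2).trans ?_
        intro z hz
        rw [mem_iUnion₂] at hz ⊢
        obtain ⟨e, he, hze⟩ := hz
        exact ⟨e, List.mem_cons_of_mem _ he, hze⟩
      rcases hmem e he with rfl | rfl | he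
      · rcases hlegal.in_or_out (hI.closed i) hfr1 with h3 | h3
        · exact Or.inl h3.2
        · exact Or.inr h3.2
      · rcases hc.in_or_out (hI.closed i) (hI.cover i hi2) with h3 | h3
        · exact Or.inl h3.2
        · exact Or.inr h3.2
      · exact hI.sep i hi2 e he
    · rw [hDn1 i hi2]
      rcases List.mem_cons.mp he with rfl | he
      · exact Or.inl hside
      · rcases hcur e he with h3 | h3
        · right
          exact (hO.mono_left h3).mono_right interior_subset
        · exact Or.inl h3.1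
  · intro i hi
    by_cases hi2 : i + 1 ≤ n
    · rw [hDn i (by omega), hDn (i + 1) hi2]
      exact hI.bag i (by omega)
    · have hin : i = n := by omega
      subst hin
      rw [hDn1 (i + 1) hi2, hDn i le_rfl]
      exact hbag
  · intro e he
    rw [hDn1 (n + 1) (by omega)]
    rcases List.mem_cons.mp he with rfl | he
    · exact Or.inl hside
    · rcases hcur e he with h3 | h3
      · exact Or.inr (hO.mono_left h3)
      · exact Or.inl h3.1
  · intro e he f hf
    rw [hDn1 (n + 1) (by omega)]
    intro h3 h4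
    have hL : ∀ e, e ∈ c' :: c :: L → Disjoint e.carrier (tri P Q R) → e ∈ L := by
      intro e he h5
      rcases hmem e he with rfl | rfl | he
      · exfalso
        exact (Set.disjoint_left.mp h5) (left_mem_segment ℝ R P)
          (hside (left_mem_segment ℝ R P))
      · exfalso
        have h6 := e.isArc.left_mem
        exact (Set.disjoint_left.mp h5) h6 (hct h6)
      · exact he
    exact hI.float e (hL e he h3) f (hL f hf h4) (h3.mono_right hD) (h4.mono_right hD)
  · right
    obtain ⟨e1, he1, hs1⟩ := h1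
    obtain ⟨e2, he2, hs2⟩ := h2
    refine ⟨Homeomorph.refl Pl, P, Q, R, IsPL.refl, hnd, ?_, ?_, ?_, ?_⟩
    · rw [hDn1 (n + 1) (by omega)]
      rfl
    · exact ⟨e1, hsubcL e1 he1, hs1⟩
    · exact ⟨e2, hsubcL e2 he2, hs2⟩
    · exact ⟨c', List.mem_cons_self, Or.inl ⟨rfl, rfl⟩, rfl⟩

end Pool.Agent.EDG
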