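import Pool.Agent.EDG.PLB

/-! Module CONN: the complement of a convex compact set, finitely many disjoint polygonal curves
and a locally finite set is connected. -/

set_option autoImplicit false

namespace Pool.Agent.EDG

open Set Metric

namespace ConnAux

lemma one_lt_rank_pl : 1 < Module.rank ℝ Pl := by
  rw [rank_prod', Module.rank_self]
  norm_num

/-- A ball minus a compact convex set containing its centre is connected. -/
lemma ball_diff (o : Pl) (r : ℝ) (K : Set Pl) (hK : Convex ℝ K) (hKc : IsCompact K) (ho : o ∈ K)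
    (hKB : K ⊆ ball o r) : IsPreconnected (ball o r \ K) := by
  -- a radius `ρ < r` with `K ⊆ ball o ρ`
  obtain ⟨w, hwK, hw⟩ := hKc.exists_isMaxOn ⟨o, ho⟩ (f := fun z => dist z o) (by fun_prop)
  have hwr : dist w o < r := hKB hwK
  obtain ⟨ρ, hρ1, hρ2⟩ := exists_between hwr
  have hρ0 : 0 < ρ := lt_of_le_of_lt dist_nonneg hρ1
  have hKρ : ∀ z ∈ K, dist z o < ρ := fun z hz => lt_of_le_of_lt (hw hz) hρ1
  have hsph : IsConnected (sphere o ρ) := isConnected_sphere one_lt_rank_pl o hρ0.le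
  obtain ⟨p, hp⟩ := hsph.nonempty
  have hsub : sphere o ρ ⊆ ball o r \ K := by
    intro z hz
    rw [mem_sphere] at hz
    refine ⟨?_, fun hzK => ?_⟩
    · rw [mem_ball, hz]; exact hρ2
    · have := hKρ z hzK
      linarith
  refine isPreconnected_of_forall p ?_
  intro z hz
  have hzo : z ≠ o := fun h => hz.2 (h ▸ ho)
  have hd : 0 < dist z o := dist_pos.mpr hzo
  -- radial projection
  set q : Pl := o + (ρ / dist z o) • (z - o) with hq
  have hqs : q ∈ sphere o ρ := by
    rw [mem_sphere, dist_eq_norm, hq, add_sub_cancel_left, norm_smul, ← dist_eq_norm,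
      Real.norm_of_nonneg (div_nonneg hρ0.le hd.le)]
    field_simp
  refine ⟨segment ℝ z q ∪ sphere o ρ, ?_, Or.inr hp, Or.inl (left_mem_segment ℝ z q), ?_⟩
  · refine union_subset ?_ hsub
    intro y hy
    have hyB : y ∈ ball o r :=
      (convex_ball o r).segment_subset hz.1 (hsub hqs).1 hy
    refine ⟨hyB, fun hyK => ?_⟩
    rw [segment_eq_image'] at hy
    obtain ⟨t, ht, rfl⟩ := hy
    beta_reduce at hyK
    -- y = o + μ (z - o)
    have hμ : z + t • (q - z) = o + (1 - t + t * (ρ / dist z o)) • (z - o) := by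
      rw [hq]
      module
    set μ : ℝ := 1 - t + t * (ρ / dist z o) with hμd
    rcases le_total (dist z o) ρ with h | h
    · -- then μ ≥ 1 and z is in the segment from o to y
      have h1 : 1 ≤ ρ / dist z o := by
        rw [le_div_iff₀ hd]; linarith
      have hμ1 : 1 ≤ μ := by
        have := mul_le_mul_of_nonneg_left h1 ht.1
        rw [hμd]; linarith
      apply hz.2
      have : z = (1 - 1 / μ) • o + (1 / μ) • (z + t • (q - z)) := by
        rw [hμ]
        have hμ0 : μ ≠ 0 := by linarith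
        rw [smul_add, smul_smul, one_div, inv_mul_cancel₀ hμ0]
        module
      rw [this]
      refine hK ho hyK ?_ ?_ (by ring)
      · have : 1 / μ ≤ 1 := by
          rw [div_le_one (by linarith)]; exact hμ1
        linarith
      · positivity
    · -- then the distance of y from o is at least ρ
      have h1 : ρ / dist z o ≤ 1 := by
        rw [div_le_one hd]; exact h
      have hμ0 : ρ / dist z o ≤ μ := by
        have h2 : (1 - t) * (ρ / dist z o) ≤ (1 - t) * 1 :=
          mul_le_mul_of_nonneg_left h1 (by linarith [ht.2])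
        rw [hμd]; linarith
      have h3 := hKρ _ hyK
      rw [hμ, dist_eq_norm, add_sub_cancel_left, norm_smul, ← dist_eq_norm,
        Real.norm_of_nonneg (le_trans (div_nonneg hρ0.le hd.le) hμ0)] at h3
      have h4 : ρ ≤ μ * dist z o := by
        rw [div_le_iff₀ hd] at hμ0
        exact hμ0
      linarith
  · exact IsPreconnected.union q (right_mem_segment ℝ z q) hqs
      (convex_segment z q).isPreconnected hsph.isPreconnected

/-- Gluing. -/
lemma glue (W B K : Set Pl) (hW : IsPreconnected W) (hB : IsOpen B) (hK : IsClosed K)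
    (hKB : K ⊆ B) (hBW : B ⊆ W) (h : IsPreconnected (B \ K)) : IsPreconnected (W \ K) := by
  -- by symmetry the connected set B \ K may be assumed to lie in u
  have key : ∀ u v : Set Pl, IsOpen u → IsOpen v → W \ K ⊆ u ∪ v → ((W \ K) ∩ u).Nonempty →
      ((W \ K) ∩ v).Nonempty → ¬ ((W \ K) ∩ (u ∩ v)).Nonempty → B \ K ⊆ u → False := by
    intro u v hu hv hc hnu hnv hne hBu
    have h1 := hW (u \ K ∪ B) (v \ K) ((hu.sdiff hK).union hB) (hv.sdiff hK) (by
      intro z hz
      by_cases hzK : z ∈ K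
      · exact Or.inl (Or.inr (hKB hzK))
      · rcases hc ⟨hz, hzK⟩ with h | h
        · exact Or.inl (Or.inl ⟨h, hzK⟩)
        · exact Or.inr ⟨h, hzK⟩) (by
      obtain ⟨z, hz1, hz2⟩ := hnu
      exact ⟨z, hz1.1, Or.inl ⟨hz2, hz1.2⟩⟩) (by
      obtain ⟨z, hz1, hz2⟩ := hnv
      exact ⟨z, hz1.1, ⟨hz2, hz1.2⟩⟩)
    obtain ⟨z, hzW, hz1, hz2⟩ := h1
    apply hne
    rcases hz1 with hz1 | hz1
    · exact ⟨z, ⟨hzW, hz2.2⟩, hz1.1, hz2.1⟩
    · exact ⟨z, ⟨hzW, hz2.2⟩, hBu ⟨hz1, hz2.2⟩, hz2.1⟩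
  intro u v hu hv hc hnu hnv
  by_contra hne
  by_cases hBv : ((B \ K) ∩ v).Nonempty
  · -- then B \ K ⊆ v
    have hBv' : B \ K ⊆ v := by
      intro z hz
      by_contra hzv
      have hzu : z ∈ u := by
        rcases hc ⟨hBW hz.1, hz.2⟩ with h | h
        · exact h
        · exact absurd h hzv
      obtain ⟨y, hy1, hy2⟩ := h u v hu hv (fun y hy => hc ⟨hBW hy.1, hy.2⟩) ⟨z, hz, hzu⟩ hBv
      exact hne ⟨y, ⟨hBW hy1.1, hy1.2⟩, hy2⟩
    refine key v u hv hu (by rwa [union_comm]) hnv hnu ?_ hBv'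
    rwa [inter_comm v u]
  · refine key u v hu hv hc hnu hnv hne ?_
    intro z hz
    rcases hc ⟨hBW hz.1, hz.2⟩ with h | h
    · exact h
    · exact absurd ⟨z, hz, h⟩ hBv

/-- Removing a compact convex set. -/
lemma diff_convex (W : Set Pl) (hW : IsPreconnected W) (o : Pl) (r : ℝ)
    (K : Set Pl) (hK : Convex ℝ K) (hKc : IsCompact K) (ho : o ∈ K) (hKB : K ⊆ ball o r)
    (hBW : ball o r ⊆ W) : IsPreconnected (W \ K) :=
  glue W (ball o r) K hW isOpen_ball hKc.isClosed hKB hBW (ball_diff o r K hK hKc ho hKB)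

/-- The statement of the theorem `move_free`. -/
def MoveFree : Prop := ∀ {g x : Pl} {E : Set Pl} (_ : PolyArc g x E) (R : Pl) (_ : R ≠ g)
  {F : Set Pl} (_ : IsClosed F) (_ : g ∉ F) (_ : Disjoint E F)
  (_ : Disjoint (segment ℝ g R) F),
  ∃ k : Pl ≃ₜ Pl, IsPL k ∧ (∀ z ∈ F, k z = z) ∧ k '' E = segment ℝ g R ∧ k g = g ∧ k x = R

/-- Removing a polygonal curve. -/
lemma diff_arc (hmf : MoveFree) (W : Set Pl) (hWo : IsOpen W) (hW : IsPreconnected W) (a b : Pl) (E : Set Pl)
    (hE : PolyArc a b E) (hEW : E ⊆ W) : IsPreconnected (W \ E) := by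
  have haW : a ∈ W := hEW hE.left_mem
  obtain ⟨r, hr, hrW⟩ := Metric.isOpen_iff.mp hWo a haW
  set R : Pl := a + ((r / 2, 0) : Pl) with hR
  have hdR : dist R a = r / 2 := by
    rw [dist_eq_norm, hR, add_sub_cancel_left, Prod.norm_def]
    simp only [norm_zero]
    rw [Real.norm_of_nonneg (by linarith), max_eq_left (by linarith)]
  have hRa : R ≠ a := by
    intro h
    rw [h, dist_self] at hdR
    linarith
  have hseg : segment ℝ a R ⊆ ball a r :=
    (convex_ball a r).segment_subset (mem_ball_self hr) (by rw [mem_ball, hdR]; linarith)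
  obtain ⟨k, -, hk1, hk2, -, -⟩ := hmf hE R hRa (F := Wᶜ) hWo.isClosed_compl
    (fun h => h haW) (disjoint_left.mpr fun z hz hz' => hz' (hEW hz))
    (disjoint_left.mpr fun z hz hz' => hz' (hrW (hseg hz)))
  have hkW : ∀ z, k z ∈ W ↔ z ∈ W := by
    intro z
    constructor
    · intro h
      by_contra hz
      rw [hk1 z hz] at h
      exact hz h
    · intro h
      by_contra hz
      have h1 := hk1 (k z) hz
      have h2 := k.injective h1
      rw [h2] at hz
      exact hz h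
  have h1 : IsPreconnected (W \ segment ℝ a R) := by
    refine diff_convex W hW a r _ (convex_segment a R) ?_ (left_mem_segment ℝ a R) hseg hrW
    rw [segment_eq_image]
    exact isCompact_Icc.image (by fun_prop)
  have h2 : W \ E = k ⁻¹' (W \ segment ℝ a R) := by
    ext z
    rw [mem_preimage, mem_sdiff, mem_sdiff, hkW, ← hk2]
    constructor
    · rintro ⟨h3, h4⟩
      exact ⟨h3, fun h5 => h4 (by
        obtain ⟨y, hy, hyz⟩ := h5
        rwa [← k.injective hyz])⟩
    · rintro ⟨h3, h4⟩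
      exact ⟨h3, fun h5 => h4 ⟨z, h5, rfl⟩⟩
  rw [h2, Homeomorph.isPreconnected_preimage]
  exact h1

/-- Removing a locally finite set. -/
lemma diff_locfin (W : Set Pl) (hWo : IsOpen W) (hW : IsPreconnected W) (S : Set Pl)
    (hS : ∀ R : ℝ, (S ∩ ball 0 R).Finite) : IsPreconnected (W \ S) := by
  -- small balls
  have hball : ∀ x ∈ W, ∃ r : ℝ, 0 < r ∧ ball x r ⊆ W ∧ ball x r ∩ S ⊆ {x} := by
    intro x hx
    obtain ⟨r, hr, hrW⟩ := Metric.isOpen_iff.mp hWo x hx
    have hfin : ((S ∩ ball 0 (dist x 0 + 1)) \ {x}).Finite := (hS _).subset sdiff_subset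
    have hop : IsOpen ((S ∩ ball 0 (dist x 0 + 1)) \ {x})ᶜ := hfin.isClosed.isOpen_compl
    obtain ⟨r', hr', hr'W⟩ := Metric.isOpen_iff.mp hop x (by
      intro h
      exact h.2 rfl)
    refine ⟨min r (min r' 1), by positivity, ?_, ?_⟩
    · exact (ball_subset_ball (min_le_left _ _)).trans hrW
    · rintro z ⟨hz, hzS⟩
      by_contra hzx
      have h1 : dist z x < r' := lt_of_lt_of_le hz ((min_le_right _ _).trans (min_le_left _ _))
      have h2 : dist z x < 1 := lt_of_lt_of_le hz ((min_le_right _ _).trans (min_le_right _ _))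
      refine hr'W h1 ⟨⟨hzS, ?_⟩, hzx⟩
      rw [mem_ball]
      have := dist_triangle z x 0
      linarith
  choose! r hr hrW hrS using hball
  -- the punctured small balls are connected
  have hB : ∀ x ∈ W, IsPreconnected (ball x (r x) \ S) := by
    intro x hx
    by_cases hxS : x ∈ S
    · have : ball x (r x) \ S = ball x (r x) \ {x} := by
        ext z
        constructor
        · rintro ⟨h1, h2⟩
          refine ⟨h1, fun h3 => h2 ?_⟩
          rw [mem_singleton_iff] at h3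
          rwa [h3]
        · rintro ⟨h1, h2⟩
          exact ⟨h1, fun h3 => h2 (hrS x hx ⟨h1, h3⟩)⟩
      rw [this]
      refine ball_diff x (r x) {x} (convex_singleton x) isCompact_singleton rfl ?_
      rw [singleton_subset_iff]
      exact mem_ball_self (hr x hx)
    · have : ball x (r x) \ S = ball x (r x) := by
        ext z
        constructor
        · rintro ⟨h1, h2⟩
          exact h1
        · intro h1
          refine ⟨h1, fun h3 => hxS ?_⟩
          have := hrS x hx ⟨h1, h3⟩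
          rw [mem_singleton_iff] at this
          rwa [← this]
      rw [this]
      exact (convex_ball x (r x)).isPreconnected
  -- nonempty open subsets are not contained in S
  have hcount : S.Countable := by
    have : S = ⋃ n : ℕ, S ∩ ball 0 (n : ℝ) := by
      rw [← inter_iUnion, iUnion_ball_nat, inter_univ]
    rw [this]
    exact countable_iUnion fun n => (hS n).countable
  have hdense : ∀ O : Set Pl, IsOpen O → O.Nonempty → (O \ S).Nonempty := by
    intro O hO hne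
    have h1 : Dense Sᶜ := hcount.dense_compl ℝ
    obtain ⟨z, hz1, hz2⟩ := h1.inter_open_nonempty O hO hne
    exact ⟨z, hz1, hz2⟩
  intro u v hu hv hc hnu hnv
  by_contra hne
  have hdich : ∀ x ∈ W, ball x (r x) \ S ⊆ u ∨ ball x (r x) \ S ⊆ v := by
    intro x hx
    by_contra hcon
    rw [not_or, not_subset, not_subset] at hcon
    obtain ⟨⟨y, hy1, hy2⟩, z, hz1, hz2⟩ := hcon
    have hyv : y ∈ v := by
      rcases hc ⟨hrW x hx hy1.1, hy1.2⟩ with h | h
      · exact absurd h hy2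
      · exact h
    have hzu : z ∈ u := by
      rcases hc ⟨hrW x hx hz1.1, hz1.2⟩ with h | h
      · exact h
      · exact absurd h hz2
    obtain ⟨t, ht1, ht2⟩ := hB x hx u v hu hv (fun t ht => hc ⟨hrW x hx ht.1, ht.2⟩)
      ⟨z, hz1, hzu⟩ ⟨y, hy1, hyv⟩
    exact hne ⟨t, ⟨hrW x hx ht1.1, ht1.2⟩, ht2⟩
  have h1 := hW (⋃ x ∈ {x | x ∈ W ∧ ball x (r x) \ S ⊆ u}, ball x (r x))
    (⋃ x ∈ {x | x ∈ W ∧ ball x (r x) \ S ⊆ v}, ball x (r x))
    (isOpen_biUnion fun _ _ => isOpen_ball) (isOpen_biUnion fun _ _ => isOpen_ball)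
    (by
      intro x hx
      rcases hdich x hx with h | h
      · exact Or.inl (mem_biUnion (show x ∈ {x | x ∈ W ∧ ball x (r x) \ S ⊆ u} from ⟨hx, h⟩)
          (mem_ball_self (hr x hx)))
      · exact Or.inr (mem_biUnion (show x ∈ {x | x ∈ W ∧ ball x (r x) \ S ⊆ v} from ⟨hx, h⟩)
          (mem_ball_self (hr x hx))))
    (by
      obtain ⟨x, hx, hxu⟩ := hnu
      refine ⟨x, hx.1, mem_biUnion (show x ∈ {x | x ∈ W ∧ ball x (r x) \ S ⊆ u} from
        ⟨hx.1, ?_⟩) (mem_ball_self (hr x hx.1))⟩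
      rcases hdich x hx.1 with h | h
      · exact h
      · exact absurd ⟨x, hx, hxu, h ⟨mem_ball_self (hr x hx.1), hx.2⟩⟩ hne)
    (by
      obtain ⟨x, hx, hxv⟩ := hnv
      refine ⟨x, hx.1, mem_biUnion (show x ∈ {x | x ∈ W ∧ ball x (r x) \ S ⊆ v} from
        ⟨hx.1, ?_⟩) (mem_ball_self (hr x hx.1))⟩
      rcases hdich x hx.1 with h | h
      · exact absurd ⟨x, hx, h ⟨mem_ball_self (hr x hx.1), hx.2⟩, hxv⟩ hne
      · exact h)
  obtain ⟨z, hzW, hz1, hz2⟩ := h1
  rw [mem_iUnion₂] at hz1 hz2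
  obtain ⟨x, ⟨hx, hxu⟩, hzx⟩ := hz1
  obtain ⟨y, ⟨hy, hyv⟩, hzy⟩ := hz2
  obtain ⟨t, ⟨ht1, ht2⟩, htS⟩ := hdense (ball x (r x) ∩ ball y (r y))
    (isOpen_ball.inter isOpen_ball) ⟨z, hzx, hzy⟩
  exact hne ⟨t, ⟨hrW x hx ht1, htS⟩, hxu ⟨ht1, htS⟩, hyv ⟨ht2, htS⟩⟩

/-- Removing disjoint polygonal curves. -/
lemma diff_arcs (hmf : MoveFree) (𝓔 : List (Set Pl)) : ∀ W : Set Pl, IsOpen W → IsPreconnected W →
    (∀ E ∈ 𝓔, ∃ a b, PolyArc a b E) → 𝓔.Pairwise Disjoint → (∀ E ∈ 𝓔, E ⊆ W) →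
    IsOpen (W \ ⋃ E ∈ 𝓔, E) ∧ IsPreconnected (W \ ⋃ E ∈ 𝓔, E) := by
  induction 𝓔 with
  | nil =>
    intro W h1 h2 _ _ _
    simpa using ⟨h1, h2⟩
  | cons E 𝓔 ih =>
    intro W h1 h2 h3 h4 h5
    obtain ⟨a, b, hab⟩ := h3 E List.mem_cons_self
    have hEW : E ⊆ W := h5 E List.mem_cons_self
    rw [List.pairwise_cons] at h4
    have h6 := ih (W \ E) (h1.sdiff hab.isCompact.isClosed) (diff_arc hmf W h1 h2 a b E hab hEW)
      (fun E' hE' => h3 E' (List.mem_cons_of_mem _ hE')) h4.2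
      (fun E' hE' z hz => ⟨h5 E' (List.mem_cons_of_mem _ hE') hz,
        fun hz' => disjoint_left.mp (h4.1 E' hE') hz' hz⟩)
    have h7 : W \ ⋃ E' ∈ E :: 𝓔, E' = (W \ E) \ ⋃ E' ∈ 𝓔, E' := by
      ext z
      simp only [mem_sdiff, mem_iUnion, List.mem_cons, exists_prop, not_exists, not_and]
      constructor
      · rintro ⟨h8, h9⟩
        exact ⟨⟨h8, h9 E (Or.inl rfl)⟩, fun E' hE' => h9 E' (Or.inr hE')⟩
      · rintro ⟨⟨h8, h9⟩, h10⟩
        refine ⟨h8, fun E' hE' => ?_⟩
        rcases hE' with rfl | hE'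
        · exact h9
        · exact h10 E' hE'
    rw [h7]
    exact h6

end ConnAux

open ConnAux in
theorem conn_of (hmf : MoveFree) (T : Set Pl) (hT : Convex ℝ T) (hTc : IsCompact T) (𝓔 : List (Set Pl))
    (harc : ∀ E ∈ 𝓔, ∃ a b, PolyArc a b E) (hdis : 𝓔.Pairwise Disjoint)
    (hdT : ∀ E ∈ 𝓔, Disjoint E T) (S : Set Pl) (hS : ∀ R : ℝ, (S ∩ Metric.ball 0 R).Finite) :
    IsPreconnected (T ∪ (⋃ E ∈ 𝓔, E) ∪ S)ᶜ := by
  have h1 : IsPreconnected Tᶜ := by
    rcases T.eq_empty_or_nonempty with rfl | ⟨o, ho⟩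
    · rw [compl_empty]
      exact isPreconnected_univ
    · obtain ⟨r, hr⟩ := hTc.isBounded.subset_ball o
      have := diff_convex univ isPreconnected_univ o r T hT hTc ho hr (subset_univ _)
      rwa [← compl_eq_univ_sdiff] at this
  have h2 := diff_arcs hmf 𝓔 Tᶜ hTc.isClosed.isOpen_compl h1 harc hdis
    (fun E hE z hz hz' => disjoint_left.mp (hdT E hE) hz hz')
  have h3 := diff_locfin _ h2.1 h2.2 S hS
  have h4 : (T ∪ (⋃ E ∈ 𝓔, E) ∪ S)ᶜ = (Tᶜ \ ⋃ E ∈ 𝓔, E) \ S := by
    rw [compl_union, compl_union, sdiff_eq, sdiff_eq]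
  rw [h4]
  exact h3

end Pool.Agent.EDG
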