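import Pool.Agent.EDG.PLB
import Pool.Agent.EDG.CONE

/-! Rotations and straightening. -/

set_option autoImplicit false

namespace Pool.Agent.EDG

open Set Metric

/-- The affine functional `z ↦ p (z - g)_1 + q (z - g)_2 + r`. -/
noncomputable def aff (p q r : ℝ) (g : Pl) : Pl →ᵃ[ℝ] ℝ :=
  ((p • LinearMap.fst ℝ ℝ ℝ + q • LinearMap.snd ℝ ℝ ℝ).toAffineMap) +
    AffineMap.const ℝ Pl (r - p * g.1 - q * g.2)

theorem aff_apply (p q r : ℝ) (g z : Pl) :
    aff p q r g z = p * (z.1 - g.1) + q * (z.2 - g.2) + r := by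
  simp [aff]
  ring

/-- Cone maps with apex `g`. -/
theorem apex_map (p1 q1 p2 q2 p3 q3 r : ℝ) (g d n : Pl) (hr : 0 < r)
    (h1 : 0 < p1 * d.1 + q1 * d.2) (h2 : 0 < p2 * d.1 + q2 * d.2)
    (h3 : 0 < p3 * d.1 + q3 * d.2 + r)
    (h1' : 0 < p1 * n.1 + q1 * n.2) (h2' : 0 < p2 * n.1 + q2 * n.2)
    (h3' : 0 < p3 * n.1 + q3 * n.2 + r) (F : Set Pl)
    (hF : ∀ z ∈ F, ¬ (0 < p1 * (z.1 - g.1) + q1 * (z.2 - g.2) ∧
      0 < p2 * (z.1 - g.1) + q2 * (z.2 - g.2) ∧
      0 < p3 * (z.1 - g.1) + q3 * (z.2 - g.2) + r)) :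
    ∃ k : Pl ≃ₜ Pl, IsPL k ∧ (∀ z ∈ F, k z = z) ∧
      ∀ s ∈ Icc (0 : ℝ) 1, k (g + s • d) = g + s • n := by
  obtain ⟨k, hk, -, hid, hap⟩ := cone ![aff p1 q1 0 g, aff p2 q2 0 g, aff p3 q3 r g] (g + d) (g + n)
    (by
      intro i
      fin_cases i <;> simp [aff_apply] <;> assumption)
    (by
      intro i
      fin_cases i <;> simp [aff_apply] <;> assumption)
  refine ⟨k, hk, ?_, ?_⟩
  · intro z hz
    apply hid
    by_contra hcon
    push Not at hcon
    apply hF z hz
    have e0 := hcon 0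
    have e1 := hcon 1
    have e2 := hcon 2
    simp [aff_apply] at e0 e1 e2
    exact ⟨e0, e1, e2⟩
  · intro s hs
    have := hap g ⟨0, by simp [aff_apply]⟩ (by
      intro i
      fin_cases i <;> simp [aff_apply]
      exact hr.le) s hs
    simpa using this

/-- Rotation by a quarter turn. -/
def qt (e : Pl) : Pl := (-e.2, e.1)

theorem norm_qt (e : Pl) : ‖qt e‖ = ‖e‖ := by
  simp [qt, Prod.norm_def, max_comm]

theorem sq_pos_of_ne {e : Pl} (he : e ≠ 0) : 0 < e.1 ^ 2 + e.2 ^ 2 := by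
  rcases eq_or_ne e.1 0 with h | h
  · have h2 : e.2 ≠ 0 := fun h2 => he (Prod.ext h h2)
    have := pow_pos (abs_pos.2 h2) 2
    rw [sq_abs] at this
    nlinarith [sq_nonneg e.1]
  · have := pow_pos (abs_pos.2 h) 2
    rw [sq_abs] at this
    nlinarith [sq_nonneg e.2]

theorem coord_decomp {e : Pl} (he : e ≠ 0) (v : Pl) :
    v = ((e.1 * v.1 + e.2 * v.2) / (e.1 ^ 2 + e.2 ^ 2)) • e +
      ((e.1 * v.2 - e.2 * v.1) / (e.1 ^ 2 + e.2 ^ 2)) • qt e := by
  have h := sq_pos_of_ne he
  apply Prod.ext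
  · simp [qt]
    field_simp
    ring
  · simp [qt]
    field_simp
    ring

theorem zero_notMem_of_loc {F : Set Pl} {g n : Pl} {K : Set Pl} (hL : Loc F g n K) : (0 : Pl) ∈ K := by
  have := hL.smul _ hL.neg_pole 0 le_rfl
  simpa using this

theorem pole_notMem {F : Set Pl} {g n : Pl} {K : Set Pl} (hL : Loc F g n K) : n ∉ K :=
  fun h => hL.pole_ne (hL.pointed n h hL.neg_pole)

theorem smul_mem_iff {F : Set Pl} {g n : Pl} {K : Set Pl} (hL : Loc F g n K) {s : ℝ} (hs : 0 < s)
    (v : Pl) : s • v ∈ K ↔ v ∈ K := by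
  constructor
  · intro h
    have := hL.smul _ h s⁻¹ (inv_nonneg.2 hs.le)
    rwa [smul_smul, inv_mul_cancel₀ hs.ne', one_smul] at this
  · intro h
    exact hL.smul _ h s hs.le

theorem ball_notMem {F : Set Pl} {g n : Pl} {K : Set Pl} (hL : Loc F g n K) {e : Pl}
    (he : e ∉ K) : ∃ r : ℝ, 0 < r ∧ ∀ v, ‖v - e‖ < r → v ∉ K := by
  have := Metric.isOpen_iff.1 hL.closed.isOpen_compl e he
  obtain ⟨r, hr, h⟩ := this
  refine ⟨r, hr, fun v hv => h ?_⟩
  rw [mem_ball, dist_eq_norm]
  exact hv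

theorem shrink {F : Set Pl} {g n : Pl} {K : Set Pl} (hF : IsClosed F) (hL : Loc F g n K) {e : Pl}
    (he : e ≠ 0) (heK : e ∉ K) (hs : ∀ s ∈ Ioc (0 : ℝ) 1, g + s • e ∉ F) {b : ℝ} (hb0 : 0 < b)
    (hb1 : b < 1) :
    ∃ k : Pl ≃ₜ Pl, IsPL k ∧ (∀ z ∈ F, k z = z) ∧
      ∀ s ∈ Icc (0 : ℝ) 1, k (g + s • e) = g + (s * b) • e := by
  have hN := sq_pos_of_ne he
  have hM : 0 < ‖e‖ := norm_pos_iff.2 he
  obtain ⟨ε, hε, hloc⟩ := hL.loc
  obtain ⟨r, hr, hrK⟩ := ball_notMem hL heK
  set s0 : ℝ := min 1 (ε / (4 * ‖e‖)) with hs0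
  have hs0pos : 0 < s0 := by positivity
  have hs0le : s0 ≤ 1 := min_le_left _ _
  have hs0ε : s0 * ‖e‖ ≤ ε / 4 := by
    have : s0 ≤ ε / (4 * ‖e‖) := min_le_right _ _
    calc s0 * ‖e‖ ≤ ε / (4 * ‖e‖) * ‖e‖ := by gcongr
      _ = ε / 4 := by field_simp
  have hcomp : IsCompact ((fun s : ℝ => g + s • e) '' Icc s0 1) :=
    isCompact_Icc.image (by fun_prop)
  obtain ⟨r2, hr2, hth⟩ := hcomp.exists_thickening_subset_open hF.isOpen_compl (by
    rintro _ ⟨s, hs', rfl⟩
    exact hs s ⟨hs0pos.trans_le hs'.1, hs'.2⟩)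
  set η : ℝ := min (1 / 2) (min (r / (2 * ‖e‖)) (r2 / (4 * ‖e‖))) with hη
  have hηpos : 0 < η := by positivity
  have hη1 : η ≤ 1 / 2 := min_le_left _ _
  have hη2 : η * ‖e‖ ≤ r / 2 := by
    have : η ≤ r / (2 * ‖e‖) := (min_le_right _ _).trans (min_le_left _ _)
    calc η * ‖e‖ ≤ r / (2 * ‖e‖) * ‖e‖ := by gcongr
      _ = r / 2 := by field_simp
  have hη3 : η * ‖e‖ ≤ r2 / 4 := by
    have : η ≤ r2 / (4 * ‖e‖) := (min_le_right _ _).trans (min_le_right _ _)
    calc η * ‖e‖ ≤ r2 / (4 * ‖e‖) * ‖e‖ := by gcongr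
      _ = r2 / 4 := by field_simp
  set N : ℝ := e.1 ^ 2 + e.2 ^ 2 with hNdef
  have key : ∀ z ∈ F, ¬ (0 < (η * e.1 + e.2) / N * (z.1 - g.1) + (η * e.2 - e.1) / N * (z.2 - g.2) ∧
      0 < (η * e.1 - e.2) / N * (z.1 - g.1) + (η * e.2 + e.1) / N * (z.2 - g.2) ∧
      0 < (-e.1 / N) * (z.1 - g.1) + (-e.2 / N) * (z.2 - g.2) + (1 + η)) := by
    rintro z hz ⟨i1, i2, i3⟩
    set x : ℝ := (e.1 * (z.1 - g.1) + e.2 * (z.2 - g.2)) / N with hx
    set y : ℝ := (e.1 * (z.2 - g.2) - e.2 * (z.1 - g.1)) / N with hy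
    have j1 : y < η * x := by
      have : (η * e.1 + e.2) / N * (z.1 - g.1) + (η * e.2 - e.1) / N * (z.2 - g.2) = η * x - y := by
        rw [hx, hy]; ring
      linarith
    have j2 : -y < η * x := by
      have : (η * e.1 - e.2) / N * (z.1 - g.1) + (η * e.2 + e.1) / N * (z.2 - g.2) = η * x + y := by
        rw [hx, hy]; ring
      linarith
    have j3 : x < 1 + η := by
      have : (-e.1 / N) * (z.1 - g.1) + (-e.2 / N) * (z.2 - g.2) = -x := by
        rw [hx]; ring
      linarith
    have hxpos : 0 < x := by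
      by_contra hcon
      push Not at hcon
      have : η * x ≤ 0 := mul_nonpos_of_nonneg_of_nonpos hηpos.le hcon
      linarith
    have hyabs : |y| < η * x := abs_lt.2 ⟨by linarith, j1⟩
    have hv : z - g = x • e + y • qt e := by
      have := coord_decomp he (z - g)
      simpa [hx, hy, hNdef] using this
    by_cases hxs : x < s0
    · -- near the apex
      have hnorm : ‖z - g‖ < ε := by
        rw [hv]
        have h1 : ‖x • e + y • qt e‖ ≤ x * ‖e‖ + |y| * ‖e‖ := by
          refine (norm_add_le _ _).trans ?_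
          rw [norm_smul, norm_smul, norm_qt, Real.norm_eq_abs, Real.norm_eq_abs, abs_of_pos hxpos]
        have h2 : |y| * ‖e‖ ≤ x * ‖e‖ := by
          gcongr
          nlinarith
        have h3 : x * ‖e‖ ≤ s0 * ‖e‖ := by gcongr
        linarith
      have hzK : z - g ∈ K := (hloc z (by rw [dist_eq_norm]; exact hnorm)).1 hz
      have hxv : z - g = x • (e + (y / x) • qt e) := by
        rw [hv, smul_add, smul_smul, mul_div_cancel₀ _ hxpos.ne']
      rw [hxv, smul_mem_iff hL hxpos] at hzK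
      apply hrK _ _ hzK
      rw [add_sub_cancel_left, norm_smul, norm_qt, Real.norm_eq_abs, abs_div, abs_of_pos hxpos]
      have : |y| / x < η := by
        rw [div_lt_iff₀ hxpos]
        exact hyabs
      have h4 : |y| / x * ‖e‖ ≤ η * ‖e‖ := by gcongr
      linarith
    · push Not at hxs
      have hmem : z ∈ thickening r2 ((fun s : ℝ => g + s • e) '' Icc s0 1) := by
        rw [mem_thickening_iff]
        refine ⟨g + (min x 1) • e, ⟨min x 1, ⟨le_min hxs hs0le, min_le_right _ _⟩, rfl⟩, ?_⟩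
        rw [dist_eq_norm]
        have h1 : z - (g + (min x 1) • e) = (x - min x 1) • e + y • qt e := by
          rw [← sub_sub, hv, sub_smul]
          abel
        rw [h1]
        have h2 : |x - min x 1| ≤ η := by
          rcases le_total x 1 with h | h
          · rw [min_eq_left h, sub_self, abs_zero]
            exact hηpos.le
          · rw [min_eq_right h, abs_of_nonneg (by linarith)]
            linarith
        have h3 : |y| ≤ 2 * η := by nlinarith
        refine (norm_add_le _ _).trans_lt ?_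
        rw [norm_smul, norm_smul, norm_qt, Real.norm_eq_abs, Real.norm_eq_abs]
        have h4 : |x - min x 1| * ‖e‖ ≤ η * ‖e‖ := by gcongr
        have h5 : |y| * ‖e‖ ≤ 2 * η * ‖e‖ := by gcongr
        linarith
      exact hth hmem hz
  have hdd : e.1 * e.1 + e.2 * e.2 = N := by rw [hNdef]; ring
  have v1 : ∀ c : ℝ, (η * e.1 + e.2) / N * (c * e.1) + (η * e.2 - e.1) / N * (c * e.2) = η * c := by
    intro c
    field_simp
    rw [hNdef]
    ring
  have v2 : ∀ c : ℝ, (η * e.1 - e.2) / N * (c * e.1) + (η * e.2 + e.1) / N * (c * e.2) = η * c := by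
    intro c
    field_simp
    rw [hNdef]
    ring
  have v3 : ∀ c : ℝ, -e.1 / N * (c * e.1) + -e.2 / N * (c * e.2) = -c := by
    intro c
    field_simp
    rw [hNdef]
    ring
  obtain ⟨k, hk, hid, hap⟩ := apex_map ((η * e.1 + e.2) / N) ((η * e.2 - e.1) / N)
    ((η * e.1 - e.2) / N) ((η * e.2 + e.1) / N) (-e.1 / N) (-e.2 / N) (1 + η) g e (b • e)
    (by positivity)
    (by have := v1 1; simp only [one_mul] at this; rw [this]; linarith)
    (by have := v2 1; simp only [one_mul] at this; rw [this]; linarith)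
    (by have := v3 1; simp only [one_mul] at this; rw [this]; linarith)
    (by
      have := v1 b
      simp only [Prod.smul_fst, Prod.smul_snd, smul_eq_mul]
      rw [this]; positivity)
    (by
      have := v2 b
      simp only [Prod.smul_fst, Prod.smul_snd, smul_eq_mul]
      rw [this]; positivity)
    (by
      have := v3 b
      simp only [Prod.smul_fst, Prod.smul_snd, smul_eq_mul]
      rw [this]; linarith) F key
  refine ⟨k, hk, hid, fun s hs' => ?_⟩
  rw [hap s hs', smul_smul]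

/-- Rotation, independent directions. -/
theorem rot_indep {F : Set Pl} {g n : Pl} {K : Set Pl} (hL : Loc F g n K) {d : Pl}
    (hdK : d ∉ K) (hcr : cr d n ≠ 0) :
    ∃ δ : ℝ, 0 < δ ∧ ∀ a b : ℝ, 0 < a → a < δ → 0 < b → b < δ →
      ∃ k : Pl ≃ₜ Pl, IsPL k ∧ (∀ z ∈ F, k z = z) ∧
        ∀ s ∈ Icc (0 : ℝ) 1, k (g + (s * a) • d) = g + (s * b) • n := by
  obtain ⟨ε, hε, hloc⟩ := hL.loc
  obtain ⟨r, hr, hrK⟩ := ball_notMem hL hdK
  obtain ⟨r', hr', hrK'⟩ := ball_notMem hL (pole_notMem hL)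
  set c : ℝ := cr d n with hc
  set M : ℝ := ‖d‖ + ‖n‖ with hM
  have hMpos : 0 < M := by
    have := norm_pos_iff.2 hL.pole_ne
    positivity
  have hdle : ‖d‖ ≤ M := by rw [hM]; linarith [norm_nonneg n]
  have hnle : ‖n‖ ≤ M := by rw [hM]; linarith [norm_nonneg d]
  set η : ℝ := min (1 / 2) (min (r / (4 * M)) (r' / (4 * M))) with hη
  have hηpos : 0 < η := by positivity
  have hη1 : η ≤ 1 / 2 := min_le_left _ _
  have hη2 : η * M ≤ r / 4 := by
    have : η ≤ r / (4 * M) := (min_le_right _ _).trans (min_le_left _ _)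
    calc η * M ≤ r / (4 * M) * M := by gcongr
      _ = r / 4 := by field_simp
  have hη3 : η * M ≤ r' / 4 := by
    have : η ≤ r' / (4 * M) := (min_le_right _ _).trans (min_le_right _ _)
    calc η * M ≤ r' / (4 * M) * M := by gcongr
      _ = r' / 4 := by field_simp
  set δ : ℝ := ε / (4 * M) with hδ
  have hδpos : 0 < δ := by positivity
  have hδM : δ * M = ε / 4 := by rw [hδ]; field_simp
  -- coordinates: `z - g = x • d + y • n`
  have key : ∀ z ∈ F, ¬ (0 < ((n.2 - η * d.2) / c) * (z.1 - g.1) +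
        ((-n.1 + η * d.1) / c) * (z.2 - g.2) ∧
      0 < ((-d.2 + η * n.2) / c) * (z.1 - g.1) + ((d.1 - η * n.1) / c) * (z.2 - g.2) ∧
      0 < ((d.2 - n.2) / c) * (z.1 - g.1) + ((n.1 - d.1) / c) * (z.2 - g.2) + δ) := by
    rintro z hz ⟨i1, i2, i3⟩
    set x : ℝ := ((z.1 - g.1) * n.2 - (z.2 - g.2) * n.1) / c with hx
    set y : ℝ := (d.1 * (z.2 - g.2) - d.2 * (z.1 - g.1)) / c with hy
    have j1 : 0 < x + η * y := by
      have : ((n.2 - η * d.2) / c) * (z.1 - g.1) +
        ((-n.1 + η * d.1) / c) * (z.2 - g.2) = x + η * y := by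
        rw [hx, hy]; ring
      linarith
    have j2 : 0 < y + η * x := by
      have : ((-d.2 + η * n.2) / c) * (z.1 - g.1) + ((d.1 - η * n.1) / c) * (z.2 - g.2) =
        y + η * x := by
        rw [hx, hy]; ring
      linarith
    have j3 : x + y < δ := by
      have : ((d.2 - n.2) / c) * (z.1 - g.1) + ((n.1 - d.1) / c) * (z.2 - g.2) = -(x + y) := by
        rw [hx, hy]; ring
      linarith
    have hv : z - g = x • d + y • n := by
      have hcx : c * x = (z.1 - g.1) * n.2 - (z.2 - g.2) * n.1 := by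
        rw [hx]; exact mul_div_cancel₀ _ hcr
      have hcy : c * y = d.1 * (z.2 - g.2) - d.2 * (z.1 - g.1) := by
        rw [hy]; exact mul_div_cancel₀ _ hcr
      have hcc : c = d.1 * n.2 - d.2 * n.1 := rfl
      apply Prod.ext
      · simp only [Prod.fst_sub, Prod.fst_add, Prod.smul_fst, smul_eq_mul]
        apply mul_left_cancel₀ hcr
        linear_combination (z.1 - g.1) * hcc - d.1 * hcx - n.1 * hcy
      · simp only [Prod.snd_sub, Prod.snd_add, Prod.smul_snd, smul_eq_mul]
        apply mul_left_cancel₀ hcr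
        linear_combination (z.2 - g.2) * hcc - d.2 * hcx - n.2 * hcy
    have hxy : 0 < x + y := by nlinarith
    have hx2 : -(2 * η) * (x + y) ≤ x := by
      rcases le_or_gt 0 x with h | h
      · have : 0 ≤ η * (x + y) := by positivity
        linarith
      · have e1 : 0 < (1 - η) * x + η * (x + y) := by
          have : (1 - η) * x + η * (x + y) = x + η * y := by ring
          linarith
        have e2 : (1 - η) * x ≤ (1 / 2) * x := by nlinarith
        linarith
    have hy2 : -(2 * η) * (x + y) ≤ y := by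
      rcases le_or_gt 0 y with h | h
      · have : 0 ≤ η * (x + y) := by positivity
        linarith
      · have e1 : 0 < (1 - η) * y + η * (x + y) := by
          have : (1 - η) * y + η * (x + y) = y + η * x := by ring
          linarith
        have e2 : (1 - η) * y ≤ (1 / 2) * y := by nlinarith
        linarith
    have habsx : |x| ≤ 2 * (x + y) := by
      rw [abs_le]
      constructor <;> nlinarith
    have habsy : |y| ≤ 2 * (x + y) := by
      rw [abs_le]
      constructor <;> nlinarith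
    have hnorm : ‖z - g‖ < ε := by
      rw [hv]
      refine (norm_add_le _ _).trans_lt ?_
      rw [norm_smul, norm_smul, Real.norm_eq_abs, Real.norm_eq_abs]
      have h1 : |x| * ‖d‖ ≤ 2 * (x + y) * ‖d‖ := by gcongr
      have h2 : |y| * ‖n‖ ≤ 2 * (x + y) * ‖n‖ := by gcongr
      have h3 : 2 * (x + y) * ‖d‖ + 2 * (x + y) * ‖n‖ = 2 * (x + y) * M := by rw [hM]; ring
      have h4 : 2 * (x + y) * M < 2 * δ * M := by gcongr
      linarith
    have hzK : z - g ∈ K := (hloc z (by rw [dist_eq_norm]; exact hnorm)).1 hz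
    rcases lt_or_ge x 0 with hxneg | hxnn
    · -- near the direction of the pole
      have hypos : 0 < y := by linarith
      have e1 : z - g = y • (n + (x / y) • d) := by
        rw [hv, smul_add, smul_smul, mul_div_cancel₀ _ hypos.ne']
        abel
      rw [e1, smul_mem_iff hL hypos] at hzK
      apply hrK' _ _ hzK
      rw [add_sub_cancel_left, norm_smul, Real.norm_eq_abs, abs_div, abs_of_pos hypos,
        abs_of_neg hxneg]
      have h5 : -x / y ≤ η := by
        rw [div_le_iff₀ hypos]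
        linarith
      have h6 : -x / y * ‖d‖ ≤ η * M := by
        have : 0 ≤ -x / y := div_nonneg (by linarith) hypos.le
        gcongr
      linarith
    rcases lt_or_ge y 0 with hyneg | hynn
    · have hxpos : 0 < x := by linarith
      have e1 : z - g = x • (d + (y / x) • n) := by
        rw [hv, smul_add, smul_smul, mul_div_cancel₀ _ hxpos.ne']
      rw [e1, smul_mem_iff hL hxpos] at hzK
      apply hrK _ _ hzK
      rw [add_sub_cancel_left, norm_smul, Real.norm_eq_abs, abs_div, abs_of_pos hxpos,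
        abs_of_neg hyneg]
      have h5 : -y / x ≤ η := by
        rw [div_le_iff₀ hxpos]
        linarith
      have h6 : -y / x * ‖n‖ ≤ η * M := by
        have : 0 ≤ -y / x := div_nonneg (by linarith) hxpos.le
        gcongr
      linarith
    · -- convexity
      have h7 : x • d ∈ K := by
        have h8 : y • (-n) ∈ K := hL.smul _ hL.neg_pole y hynn
        have h9 := hL.add _ hzK _ h8
        have e : z - g + y • (-n) = x • d := by
          rw [hv, smul_neg]
          abel
        rwa [e] at h9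
      rcases hxnn.eq_or_lt with h0 | hpos
      · have hypos : 0 < y := by rw [← h0] at hxy; linarith
        rw [hv, ← h0, zero_smul, zero_add, smul_mem_iff hL hypos] at hzK
        exact pole_notMem hL hzK
      · rw [smul_mem_iff hL hpos] at h7
        exact hdK h7
  have hc' : d.1 * n.2 - d.2 * n.1 ≠ 0 := hcr
  have hcc : c = d.1 * n.2 - d.2 * n.1 := rfl
  have w1d : ((n.2 - η * d.2) / c) * d.1 + ((-n.1 + η * d.1) / c) * d.2 = 1 := by
    rw [div_mul_eq_mul_div, div_mul_eq_mul_div, ← add_div, div_eq_iff hcr]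
    linear_combination -hcc
  have w1n : ((n.2 - η * d.2) / c) * n.1 + ((-n.1 + η * d.1) / c) * n.2 = η := by
    rw [div_mul_eq_mul_div, div_mul_eq_mul_div, ← add_div, div_eq_iff hcr]
    linear_combination -η * hcc
  have w2d : ((-d.2 + η * n.2) / c) * d.1 + ((d.1 - η * n.1) / c) * d.2 = η := by
    rw [div_mul_eq_mul_div, div_mul_eq_mul_div, ← add_div, div_eq_iff hcr]
    linear_combination -η * hcc
  have w2n : ((-d.2 + η * n.2) / c) * n.1 + ((d.1 - η * n.1) / c) * n.2 = 1 := by
    rw [div_mul_eq_mul_div, div_mul_eq_mul_div, ← add_div, div_eq_iff hcr]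
    linear_combination -hcc
  have w3d : ((d.2 - n.2) / c) * d.1 + ((n.1 - d.1) / c) * d.2 = -1 := by
    rw [div_mul_eq_mul_div, div_mul_eq_mul_div, ← add_div, div_eq_iff hcr]
    linear_combination hcc
  have w3n : ((d.2 - n.2) / c) * n.1 + ((n.1 - d.1) / c) * n.2 = -1 := by
    rw [div_mul_eq_mul_div, div_mul_eq_mul_div, ← add_div, div_eq_iff hcr]
    linear_combination hcc
  refine ⟨δ, hδpos, fun a b ha haδ hb hbδ => ?_⟩
  have lin : ∀ (p q t : ℝ) (w : Pl), p * (t • w).1 + q * (t • w).2 = t * (p * w.1 + q * w.2) := by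
    intro p q t w
    simp only [Prod.smul_fst, Prod.smul_snd, smul_eq_mul]
    ring
  obtain ⟨k, hk, hid, hap⟩ := apex_map ((n.2 - η * d.2) / c) ((-n.1 + η * d.1) / c)
    ((-d.2 + η * n.2) / c) ((d.1 - η * n.1) / c) ((d.2 - n.2) / c) ((n.1 - d.1) / c) δ g
    (a • d) (b • n) hδpos
    (by rw [lin, w1d]; linarith) (by rw [lin, w2d]; positivity) (by rw [lin, w3d]; linarith)
    (by rw [lin, w1n]; positivity) (by rw [lin, w2n]; linarith) (by rw [lin, w3n]; linarith)
    F key
  refine ⟨k, hk, hid, fun s hs' => ?_⟩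
  have := hap s hs'
  rwa [smul_smul, smul_smul] at this

/-- Rotation, same direction. -/
theorem rot_dep {F : Set Pl} {g n : Pl} {K : Set Pl} (hL : Loc F g n K) {c : ℝ} (hc : 0 < c) :
    ∃ δ : ℝ, 0 < δ ∧ ∀ a b : ℝ, 0 < a → a < δ → 0 < b → b < δ →
      ∃ k : Pl ≃ₜ Pl, IsPL k ∧ (∀ z ∈ F, k z = z) ∧
        ∀ s ∈ Icc (0 : ℝ) 1, k (g + (s * a) • (c • n)) = g + (s * b) • n := by
  obtain ⟨ε, hε, hloc⟩ := hL.loc
  obtain ⟨r, hr, hrK⟩ := ball_notMem hL (pole_notMem hL)
  have hne := hL.pole_ne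
  have hN := sq_pos_of_ne hne
  have hM : 0 < ‖n‖ := norm_pos_iff.2 hne
  set η : ℝ := min (1 / 2) (r / (2 * ‖n‖)) with hη
  have hηpos : 0 < η := by positivity
  have hη1 : η ≤ 1 / 2 := min_le_left _ _
  have hη2 : η * ‖n‖ ≤ r / 2 := by
    have : η ≤ r / (2 * ‖n‖) := min_le_right _ _
    calc η * ‖n‖ ≤ r / (2 * ‖n‖) * ‖n‖ := by gcongr
      _ = r / 2 := by field_simp
  set δ : ℝ := ε / (4 * ‖n‖) with hδ
  have hδpos : 0 < δ := by positivity
  have hδM : δ * ‖n‖ = ε / 4 := by rw [hδ]; field_simp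
  set N : ℝ := n.1 ^ 2 + n.2 ^ 2 with hNdef
  have key : ∀ z ∈ F, ¬ (0 < (η * n.1 + n.2) / N * (z.1 - g.1) + (η * n.2 - n.1) / N * (z.2 - g.2) ∧
      0 < (η * n.1 - n.2) / N * (z.1 - g.1) + (η * n.2 + n.1) / N * (z.2 - g.2) ∧
      0 < (-n.1 / N) * (z.1 - g.1) + (-n.2 / N) * (z.2 - g.2) + δ) := by
    rintro z hz ⟨i1, i2, i3⟩
    set x : ℝ := (n.1 * (z.1 - g.1) + n.2 * (z.2 - g.2)) / N with hx
    set y : ℝ := (n.1 * (z.2 - g.2) - n.2 * (z.1 - g.1)) / N with hy
    have j1 : y < η * x := by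
      have : (η * n.1 + n.2) / N * (z.1 - g.1) + (η * n.2 - n.1) / N * (z.2 - g.2) = η * x - y := by
        rw [hx, hy]; ring
      linarith
    have j2 : -y < η * x := by
      have : (η * n.1 - n.2) / N * (z.1 - g.1) + (η * n.2 + n.1) / N * (z.2 - g.2) = η * x + y := by
        rw [hx, hy]; ring
      linarith
    have j3 : x < δ := by
      have : (-n.1 / N) * (z.1 - g.1) + (-n.2 / N) * (z.2 - g.2) = -x := by
        rw [hx]; ring
      linarith
    have hxpos : 0 < x := by
      by_contra hcon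
      push Not at hcon
      have : η * x ≤ 0 := mul_nonpos_of_nonneg_of_nonpos hηpos.le hcon
      linarith
    have hyabs : |y| < η * x := abs_lt.2 ⟨by linarith, j1⟩
    have hv : z - g = x • n + y • qt n := by
      have := coord_decomp hne (z - g)
      simpa [hx, hy, hNdef] using this
    have hnorm : ‖z - g‖ < ε := by
      rw [hv]
      have h1 : ‖x • n + y • qt n‖ ≤ x * ‖n‖ + |y| * ‖n‖ := by
        refine (norm_add_le _ _).trans ?_
        rw [norm_smul, norm_smul, norm_qt, Real.norm_eq_abs, Real.norm_eq_abs, abs_of_pos hxpos]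
      have h2 : |y| * ‖n‖ ≤ x * ‖n‖ := by
        gcongr
        nlinarith
      have h3 : x * ‖n‖ ≤ δ * ‖n‖ := by gcongr
      linarith
    have hzK : z - g ∈ K := (hloc z (by rw [dist_eq_norm]; exact hnorm)).1 hz
    have hxv : z - g = x • (n + (y / x) • qt n) := by
      rw [hv, smul_add, smul_smul, mul_div_cancel₀ _ hxpos.ne']
    rw [hxv, smul_mem_iff hL hxpos] at hzK
    apply hrK _ _ hzK
    rw [add_sub_cancel_left, norm_smul, norm_qt, Real.norm_eq_abs, abs_div, abs_of_pos hxpos]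
    have : |y| / x < η := by
      rw [div_lt_iff₀ hxpos]
      exact hyabs
    have h4 : |y| / x * ‖n‖ ≤ η * ‖n‖ := by gcongr
    linarith
  have v1 : ∀ c : ℝ, (η * n.1 + n.2) / N * (c * n.1) + (η * n.2 - n.1) / N * (c * n.2) = η * c := by
    intro c
    field_simp
    rw [hNdef]
    ring
  have v2 : ∀ c : ℝ, (η * n.1 - n.2) / N * (c * n.1) + (η * n.2 + n.1) / N * (c * n.2) = η * c := by
    intro c
    field_simp
    rw [hNdef]
    ring
  have v3 : ∀ c : ℝ, -n.1 / N * (c * n.1) + -n.2 / N * (c * n.2) = -c := by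
    intro c
    field_simp
    rw [hNdef]
    ring
  refine ⟨min δ (δ / c), by positivity, fun a b ha haδ hb hbδ => ?_⟩
  have hac : a * c < δ := by
    have : a < δ / c := haδ.trans_le (min_le_right _ _)
    rwa [lt_div_iff₀ hc] at this
  have hbδ' : b < δ := hbδ.trans_le (min_le_left _ _)
  have hacpos : 0 < a * c := by positivity
  obtain ⟨k, hk, hid, hap⟩ := apex_map ((η * n.1 + n.2) / N) ((η * n.2 - n.1) / N)
    ((η * n.1 - n.2) / N) ((η * n.2 + n.1) / N) (-n.1 / N) (-n.2 / N) δ g ((a * c) • n) (b • n)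
    hδpos
    (by
      have := v1 (a * c)
      simp only [Prod.smul_fst, Prod.smul_snd, smul_eq_mul]
      rw [this]; positivity)
    (by
      have := v2 (a * c)
      simp only [Prod.smul_fst, Prod.smul_snd, smul_eq_mul]
      rw [this]; positivity)
    (by
      have := v3 (a * c)
      simp only [Prod.smul_fst, Prod.smul_snd, smul_eq_mul]
      rw [this]; linarith)
    (by
      have := v1 b
      simp only [Prod.smul_fst, Prod.smul_snd, smul_eq_mul]
      rw [this]; positivity)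
    (by
      have := v2 b
      simp only [Prod.smul_fst, Prod.smul_snd, smul_eq_mul]
      rw [this]; positivity)
    (by
      have := v3 b
      simp only [Prod.smul_fst, Prod.smul_snd, smul_eq_mul]
      rw [this]; linarith) F key
  refine ⟨k, hk, hid, fun s hs' => ?_⟩
  have := hap s hs'
  rw [smul_smul, smul_smul] at this
  rw [smul_smul, mul_assoc]
  exact this

theorem rot {F : Set Pl} {g n : Pl} {K : Set Pl} (hL : Loc F g n K) {d : Pl}
    (hdK : d ∉ K) :
    ∃ δ : ℝ, 0 < δ ∧ ∀ a b : ℝ, 0 < a → a < δ → 0 < b → b < δ →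
      ∃ k : Pl ≃ₜ Pl, IsPL k ∧ (∀ z ∈ F, k z = z) ∧
        ∀ s ∈ Icc (0 : ℝ) 1, k (g + (s * a) • d) = g + (s * b) • n := by
  by_cases hcr : cr d n = 0
  · have h1 := coord_decomp hL.pole_ne d
    have h2 : n.1 * d.2 - n.2 * d.1 = 0 := by
      have : cr d n = -(n.1 * d.2 - n.2 * d.1) := by simp only [cr]; ring
      linarith
    rw [h2, zero_div, zero_smul, add_zero] at h1
    set c : ℝ := (n.1 * d.1 + n.2 * d.2) / (n.1 ^ 2 + n.2 ^ 2) with hc
    have hcpos : 0 < c := by
      by_contra hcon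
      push Not at hcon
      apply hdK
      have h3 := hL.smul _ hL.neg_pole (-c) (by linarith)
      rw [smul_neg, neg_smul, neg_neg, ← h1] at h3
      exact h3
    rw [h1]
    exact rot_dep hL hcpos
  · exact rot_indep hL hdK hcr

theorem straight_seg {F : Set Pl} {g n : Pl} {K : Set Pl} (hF : IsClosed F) (hL : Loc F g n K)
    {e : Pl} (he : e ≠ 0) (hs : ∀ s ∈ Ioc (0 : ℝ) 1, g + s • e ∉ F) :
    ∃ δ : ℝ, 0 < δ ∧ ∀ b : ℝ, 0 < b → b < δ →
      ∃ k : Pl ≃ₜ Pl, IsPL k ∧ (∀ z ∈ F, k z = z) ∧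
        ∀ s ∈ Icc (0 : ℝ) 1, k (g + s • e) = g + (s * b) • n := by
  have hM : 0 < ‖e‖ := norm_pos_iff.2 he
  have heK : e ∉ K := by
    intro h
    obtain ⟨ε, hε, hloc⟩ := hL.loc
    set s0 : ℝ := min 1 (ε / (2 * ‖e‖)) with hs0
    have hs0pos : 0 < s0 := by positivity
    have hs0le : s0 ≤ 1 := min_le_left _ _
    have hs0ε : s0 * ‖e‖ ≤ ε / 2 := by
      have : s0 ≤ ε / (2 * ‖e‖) := min_le_right _ _
      calc s0 * ‖e‖ ≤ ε / (2 * ‖e‖) * ‖e‖ := by gcongr
        _ = ε / 2 := by field_simp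
    apply hs s0 ⟨hs0pos, hs0le⟩
    rw [hloc]
    · rw [add_sub_cancel_left]
      exact hL.smul _ h _ hs0pos.le
    · rw [dist_eq_norm, add_sub_cancel_left, norm_smul, Real.norm_eq_abs, abs_of_pos hs0pos]
      linarith
  obtain ⟨δ, hδ, hrot⟩ := rot hL heK
  refine ⟨δ, hδ, fun b hb hbδ => ?_⟩
  have ha0 : 0 < min (δ / 2) (1 / 2) := by positivity
  have haδ : min (δ / 2) (1 / 2) < δ := (min_le_left _ _).trans_lt (by linarith)
  have ha1 : min (δ / 2) (1 / 2 : ℝ) < 1 := (min_le_right _ _).trans_lt (by norm_num)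
  obtain ⟨k1, hk1, hid1, hm1⟩ := shrink hF hL he heK hs ha0 ha1
  obtain ⟨k2, hk2, hid2, hm2⟩ := hrot _ b ha0 haδ hb hbδ
  refine ⟨k1.trans k2, hk1.trans hk2, fun z hz => ?_, fun s hs' => ?_⟩
  · simp [hid1 z hz, hid2 z hz]
  · change k2 (k1 (g + s • e)) = _
    rw [hm1 s hs', hm2 s hs']

/-- Near an endpoint a segment is a ray. -/
theorem loc_of_ray {F : Set Pl} (hF : IsClosed F) {g w : Pl} (hg : g ∉ F) (hw : w ≠ 0) :
    Loc (F ∪ segment ℝ g (g + w)) g (-w)
      {v : Pl | w.1 * v.2 - w.2 * v.1 = 0 ∧ 0 ≤ w.1 * v.1 + w.2 * v.2} where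
  closed := (isClosed_eq (f := fun v : Pl => w.1 * v.2 - w.2 * v.1) (g := fun _ => (0 : ℝ))
    (by fun_prop) (by fun_prop)).inter
    (isClosed_le (f := fun _ => (0 : ℝ)) (g := fun v : Pl => w.1 * v.1 + w.2 * v.2)
    (by fun_prop) (by fun_prop))
  add := by
    rintro a ⟨ha1, ha2⟩ b ⟨hb1, hb2⟩
    constructor
    · simp only [Prod.fst_add, Prod.snd_add]
      linear_combination ha1 + hb1
    · simp only [Prod.fst_add, Prod.snd_add]
      linarith
  smul := by
    rintro a ⟨ha1, ha2⟩ s hs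
    constructor
    · simp only [Prod.smul_fst, Prod.smul_snd, smul_eq_mul]
      linear_combination s * ha1
    · simp only [Prod.smul_fst, Prod.smul_snd, smul_eq_mul]
      have := mul_nonneg hs ha2
      linarith
  pointed := by
    rintro a ⟨ha1, ha2⟩ ⟨hb1, hb2⟩
    simp only [Prod.fst_neg, Prod.snd_neg] at hb2
    have h0 : w.1 * a.1 + w.2 * a.2 = 0 := le_antisymm (by linarith) ha2
    have := coord_decomp hw a
    rw [h0, ha1] at this
    simpa using this
  neg_pole := by
    constructor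
    · simp only [neg_neg]; ring
    · simp only [neg_neg]
      nlinarith [sq_nonneg w.1, sq_nonneg w.2]
  pole_ne := neg_ne_zero.2 hw
  loc := by
    obtain ⟨ε1, hε1, hb⟩ := Metric.isOpen_iff.1 hF.isOpen_compl g hg
    have hM : 0 < ‖w‖ := norm_pos_iff.2 hw
    refine ⟨min ε1 ‖w‖, by positivity, fun z hz => ?_⟩
    have hzF : z ∉ F := hb (by rw [mem_ball]; exact hz.trans_le (min_le_left _ _))
    have hzw : ‖z - g‖ < ‖w‖ := by
      rw [← dist_eq_norm]
      exact hz.trans_le (min_le_right _ _)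
    constructor
    · rintro (h | h)
      · exact absurd h hzF
      · rw [segment_eq_image'] at h
        obtain ⟨θ, hθ, rfl⟩ := h
        simp only [add_sub_cancel_left, mem_ofPred_eq, Prod.smul_fst, Prod.smul_snd, smul_eq_mul]
        refine ⟨by ring, ?_⟩
        have := mul_nonneg hθ.1 (add_nonneg (mul_self_nonneg w.1) (mul_self_nonneg w.2))
        linarith
    · rintro ⟨h1, h2⟩
      right
      have h3 := coord_decomp hw (z - g)
      rw [h1, zero_div, zero_smul, add_zero] at h3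
      set s : ℝ := (w.1 * (z - g).1 + w.2 * (z - g).2) / (w.1 ^ 2 + w.2 ^ 2) with hs
      have hs0 : 0 ≤ s := div_nonneg h2 (by positivity)
      have hs1 : s ≤ 1 := by
        have h4 : ‖z - g‖ = s * ‖w‖ := by
          conv_lhs => rw [h3]
          rw [norm_smul, Real.norm_eq_abs, abs_of_nonneg hs0]
        rw [h4] at hzw
        by_contra hcon
        push Not at hcon
        nlinarith
      rw [segment_eq_image']
      refine ⟨s, ⟨hs0, hs1⟩, ?_⟩
      simp only [add_sub_cancel_left]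
      rw [← h3]
      abel

theorem isClosed_segment (a b : Pl) : IsClosed (segment ℝ a b) := by
  rw [segment_eq_image']
  exact (isCompact_Icc.image (by fun_prop)).isClosed

theorem image_seg {k : Pl → Pl} {g e n : Pl} {b : ℝ}
    (h : ∀ s ∈ Icc (0 : ℝ) 1, k (g + s • e) = g + (s * b) • n) :
    k '' segment ℝ g (g + e) = segment ℝ g (g + b • n) := by
  rw [segment_eq_image', segment_eq_image', image_image]
  apply image_congr
  intro s hs
  simp only [add_sub_cancel_left]
  rw [h s hs, smul_smul]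

theorem straighten {g x : Pl} {E : Set Pl} (hE : PolyArc g x E) :
    ∀ (F : Set Pl) (n : Pl) (K : Set Pl), IsClosed F → Loc F g n K → E ∩ F ⊆ {g} →
    ∃ δ : ℝ, 0 < δ ∧ ∀ b : ℝ, 0 < b → b < δ → ∃ k : Pl ≃ₜ Pl, IsPL k ∧ (∀ z ∈ F, k z = z) ∧
      k '' E = segment ℝ g (g + b • n) ∧ k x = g + b • n := by
  induction hE with
  | single a x h =>
    intro F n K hF hL hEF
    have he : x - a ≠ 0 := sub_ne_zero.2 h.symm
    obtain ⟨δ, hδ, H⟩ := straight_seg hF hL he (by
      intro s hs hmem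
      have h1 : a + s • (x - a) ∈ segment ℝ a x := by
        rw [segment_eq_image']
        exact ⟨s, ⟨hs.1.le, hs.2⟩, rfl⟩
      have h2 := hEF ⟨h1, hmem⟩
      rw [mem_singleton_iff, add_eq_left, smul_eq_zero] at h2
      rcases h2 with h2 | h2
      · exact hs.1.ne' h2
      · exact he h2)
    refine ⟨δ, hδ, fun b hb hbδ => ?_⟩
    obtain ⟨k, hk, hid, hm⟩ := H b hb hbδ
    refine ⟨k, hk, hid, ?_, ?_⟩
    · have := image_seg hm
      rwa [add_sub_cancel] at this
    · have := hm 1 ⟨zero_le_one, le_rfl⟩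
      rwa [one_smul, one_mul, add_sub_cancel] at this
  | cons a v x E h hE' hm ih =>
    intro F n K hF hL hEF
    have hvE : v ∈ segment ℝ a v := right_mem_segment ℝ a v
    have hvF : v ∉ F := by
      intro hv
      have := hEF ⟨Or.inl hvE, hv⟩
      exact h (mem_singleton_iff.1 this).symm
    have hF' : IsClosed (F ∪ segment ℝ a v) := hF.union (isClosed_segment a v)
    have hw : a - v ≠ 0 := sub_ne_zero.2 h
    have hL' := loc_of_ray hF hvF hw
    rw [add_sub_cancel, segment_symm, neg_sub] at hL'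
    obtain ⟨δ', hδ', H'⟩ := ih _ _ _ hF' hL' (by
      rintro z ⟨hz1, hz2 | hz2⟩
      · have h1 := hEF ⟨Or.inr hz1, hz2⟩
        rw [mem_singleton_iff] at h1
        subst h1
        rw [← hm]
        exact ⟨left_mem_segment ℝ z v, hz1⟩
      · rw [← hm]
        exact ⟨hz2, hz1⟩)
    obtain ⟨k1, hk1, hid1, him1, hx1⟩ := H' (δ' / 2) (by positivity) (by linarith)
    have hδ2 : 0 < 1 + δ' / 2 := by positivity
    set e : Pl := (1 + δ' / 2) • (v - a) with he
    have hva : v - a ≠ 0 := sub_ne_zero.2 h.symm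
    have hene : e ≠ 0 := smul_ne_zero hδ2.ne' hva
    have hend : v + (δ' / 2) • (v - a) = a + e := by
      rw [he, add_smul, one_smul]
      abel
    have himE : k1 '' (segment ℝ a v ∪ E) = segment ℝ a (a + e) := by
      rw [image_union, him1]
      have h1 : k1 '' segment ℝ a v = segment ℝ a v := by
        have : ∀ z ∈ segment ℝ a v, k1 z = id z := fun z hz => hid1 z (Or.inr hz)
        rw [image_congr this, image_id]
      rw [h1, hend]
      have hv' : v = a + (1 + δ' / 2)⁻¹ • e := by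
        rw [he, smul_smul, inv_mul_cancel₀ hδ2.ne', one_smul, add_sub_cancel]
      have hmem : v ∈ segment ℝ a (a + e) := by
        rw [segment_eq_image']
        refine ⟨(1 + δ' / 2)⁻¹, ⟨by positivity, ?_⟩, ?_⟩
        · apply inv_le_one_of_one_le₀
          linarith
        · simp only [add_sub_cancel_left]
          exact hv'.symm
      apply Subset.antisymm
      · apply union_subset
        · exact (convex_segment a (a + e)).segment_subset (left_mem_segment ℝ _ _) hmem
        · exact (convex_segment a (a + e)).segment_subset hmem (right_mem_segment ℝ _ _)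
      · rw [segment_eq_image' ℝ a (a + e)]
        rintro _ ⟨s, hs, rfl⟩
        simp only [add_sub_cancel_left]
        rcases le_total (s * (1 + δ' / 2)) 1 with hle | hle
        · left
          rw [segment_eq_image']
          refine ⟨s * (1 + δ' / 2), ⟨mul_nonneg hs.1 hδ2.le, hle⟩, ?_⟩
          simp only [he, smul_smul]
        · right
          rw [segment_eq_image']
          have hd : 0 < δ' / 2 := by positivity
          refine ⟨(s * (1 + δ' / 2) - 1) / (δ' / 2), ⟨by
            apply div_nonneg _ hd.le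
            linarith, ?_⟩, ?_⟩
          · rw [div_le_one hd]
            nlinarith [hs.2]
          · have e1 : a + e - v = (δ' / 2) • (v - a) := by
              rw [← hend]; abel
            change v + ((s * (1 + δ' / 2) - 1) / (δ' / 2)) • (a + e - v) = a + s • e
            rw [e1, smul_smul, div_mul_cancel₀ _ hd.ne', sub_smul, one_smul, he, smul_smul]
            abel
    have hk1F : ∀ z ∈ F, k1 z = z := fun z hz => hid1 z (Or.inl hz)
    obtain ⟨δ, hδ, H⟩ := straight_seg hF hL hene (by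
      intro s hs hmem
      have h1 : a + s • e ∈ segment ℝ a (a + e) := by
        rw [segment_eq_image']
        exact ⟨s, ⟨hs.1.le, hs.2⟩, by simp⟩
      rw [← himE] at h1
      obtain ⟨z, hzE, hz⟩ := h1
      have hz2 : z = a + s • e := by
        apply k1.injective
        rw [hz, hk1F _ hmem]
      rw [hz2] at hzE
      have h2 := hEF ⟨hzE, hmem⟩
      rw [mem_singleton_iff, add_eq_left, smul_eq_zero] at h2
      rcases h2 with h2 | h2
      · exact hs.1.ne' h2
      · exact hene h2)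
    refine ⟨δ, hδ, fun b hb hbδ => ?_⟩
    obtain ⟨k2, hk2, hid2, hm2⟩ := H b hb hbδ
    refine ⟨k1.trans k2, hk1.trans hk2, fun z hz => ?_, ?_, ?_⟩
    · simp [hk1F z hz, hid2 z hz]
    · have h1 : (k1.trans k2) '' (segment ℝ a v ∪ E) = k2 '' (k1 '' (segment ℝ a v ∪ E)) := by
        rw [image_image]; rfl
      rw [h1, himE]
      exact image_seg hm2
    · have := hm2 1 ⟨zero_le_one, le_rfl⟩
      rw [one_smul, one_mul] at this
      change k2 (k1 x) = _
      rw [hx1, hend, this]

theorem move {g x : Pl} {E : Set Pl} (hE : PolyArc g x E) (R : Pl) (hR : R ≠ g) {F : Set Pl}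
    (hF : IsClosed F) {n : Pl} {K : Set Pl} (hL : Loc F g n K) (hEF : E ∩ F ⊆ {g})
    (hRF : segment ℝ g R ∩ F ⊆ {g}) :
    ∃ k : Pl ≃ₜ Pl, IsPL k ∧ (∀ z ∈ F, k z = z) ∧ k '' E = segment ℝ g R ∧ k x = R := by
  obtain ⟨δ1, hδ1, H1⟩ := straighten hE F n K hF hL hEF
  obtain ⟨δ2, hδ2, H2⟩ := straighten (PolyArc.single g R hR.symm) F n K hF hL hRF
  have hb : 0 < min δ1 δ2 / 2 := by positivity
  have hm : 0 < min δ1 δ2 := by positivity
  obtain ⟨k1, hk1, hid1, him1, hx1⟩ := H1 (min δ1 δ2 / 2) hb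
    (by linarith [min_le_left δ1 δ2])
  obtain ⟨k2, hk2, hid2, him2, hx2⟩ := H2 (min δ1 δ2 / 2) hb
    (by linarith [min_le_right δ1 δ2])
  refine ⟨k1.trans k2.symm, hk1.trans hk2.symm, fun z hz => ?_, ?_, ?_⟩
  · change k2.symm (k1 z) = z
    rw [hid1 z hz, Homeomorph.symm_apply_eq, hid2 z hz]
  · have h1 : (k1.trans k2.symm) '' E = k2.symm '' (k1 '' E) := by
      rw [image_image]; rfl
    rw [h1, him1, ← him2, image_image]
    simp
  · change k2.symm (k1 x) = R
    rw [hx1, Homeomorph.symm_apply_eq, hx2]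

/-- The first piece of a polygonal curve. -/
theorem first_piece {g x : Pl} {E : Set Pl} (hE : PolyArc g x E) :
    ∃ e : Pl, e ≠ 0 ∧ ∃ ρ : ℝ, 0 < ρ ∧ ∀ z ∈ E, ‖z - g‖ < ρ → ∃ s : ℝ, 0 ≤ s ∧ z - g = s • e := by
  cases hE with
  | single a b h =>
    refine ⟨x - g, sub_ne_zero.2 h.symm, 1, one_pos, fun z hz _ => ?_⟩
    rw [segment_eq_image'] at hz
    obtain ⟨s, hs, rfl⟩ := hz
    exact ⟨s, hs.1, by simp⟩
  | cons a v b E' h hE' hm =>
    have hgE : g ∉ E' := by
      intro hg
      have : g ∈ ({v} : Set Pl) := by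
        rw [← hm]
        exact ⟨left_mem_segment ℝ g v, hg⟩
      exact h (mem_singleton_iff.1 this)
    obtain ⟨ρ, hρ, hb⟩ := Metric.isOpen_iff.1 hE'.isCompact.isClosed.isOpen_compl g hgE
    refine ⟨v - g, sub_ne_zero.2 h.symm, ρ, hρ, fun z hz hzρ => ?_⟩
    rcases hz with hz | hz
    · rw [segment_eq_image'] at hz
      obtain ⟨s, hs, rfl⟩ := hz
      exact ⟨s, hs.1, by simp⟩
    · exact absurd hz (hb (by rw [mem_ball, dist_eq_norm]; exact hzρ))

theorem move_free {g x : Pl} {E : Set Pl} (hE : PolyArc g x E) (R : Pl) (hR : R ≠ g) {F : Set Pl}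
    (hF : IsClosed F) (hg : g ∉ F) (hEF : Disjoint E F) (hRF : Disjoint (segment ℝ g R) F) :
    ∃ k : Pl ≃ₜ Pl, IsPL k ∧ (∀ z ∈ F, k z = z) ∧ k '' E = segment ℝ g R ∧ k g = g ∧
      k x = R := by
  obtain ⟨e, he, ρ, hρ, hfp⟩ := first_piece hE
  have hu : R - g ≠ 0 := sub_ne_zero.2 hR
  -- a direction which is neither a nonnegative multiple of `e` nor of `R - g`
  obtain ⟨w, hw, hwe, hwR⟩ : ∃ w : Pl, w ≠ 0 ∧ (∀ s : ℝ, 0 ≤ s → w ≠ s • e) ∧
      (∀ s : ℝ, 0 ≤ s → w ≠ s • (R - g)) := by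
    by_cases hanti : ∃ s : ℝ, 0 ≤ s ∧ -e = s • (R - g)
    · obtain ⟨s, hs, hse⟩ := hanti
      have hqt : qt e ≠ 0 := by
        intro h
        have := norm_qt e
        rw [h, norm_zero] at this
        exact he (norm_eq_zero.1 this.symm)
      have hqe : ∀ t : ℝ, qt e ≠ t • e := by
        intro t ht
        have h1 : -e.2 = t * e.1 := by
          have := congrArg Prod.fst ht
          simpa [qt] using this
        have h2 : e.1 = t * e.2 := by
          have := congrArg Prod.snd ht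
          simpa [qt] using this
        have := sq_pos_of_ne he
        have h0 : e.1 ^ 2 + e.2 ^ 2 = 0 := by linear_combination e.1 * h2 - e.2 * h1
        exact this.ne' h0
      refine ⟨qt e, hqt, fun t _ => hqe t, fun t _ ht => ?_⟩
      have hs0 : s ≠ 0 := by
        rintro rfl
        rw [zero_smul, neg_eq_zero] at hse
        exact he hse
      have h3 : R - g = (-s⁻¹) • e := by
        rw [neg_smul, ← smul_neg, hse, smul_smul, inv_mul_cancel₀ hs0, one_smul]
      rw [h3, smul_smul] at ht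
      exact hqe _ ht
    · push Not at hanti
      refine ⟨-e, neg_ne_zero.2 he, fun s hs h => ?_, hanti⟩
      have h1 : (1 + s) • e = 0 := by
        rw [add_smul, one_smul, ← h, add_neg_cancel]
      rcases smul_eq_zero.1 h1 with h2 | h2
      · linarith
      · exact he h2
  have hM : 0 < ‖w‖ := norm_pos_iff.2 hw
  set t : ℝ := ρ / (2 * ‖w‖) with ht
  have htpos : 0 < t := by positivity
  have htρ : t * ‖w‖ = ρ / 2 := by rw [ht]; field_simp
  have htw : t • w ≠ 0 := smul_ne_zero htpos.ne' hw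
  have hL := loc_of_ray hF hg htw
  have hF' : IsClosed (F ∪ segment ℝ g (g + t • w)) := hF.union (isClosed_segment _ _)
  have hgs : g ∈ segment ℝ g (g + t • w) := left_mem_segment ℝ _ _
  obtain ⟨k, hk, hid, him, hx⟩ := move hE R hR hF' hL (by
    rintro z ⟨hz1, hz2 | hz2⟩
    · exact absurd hz2 (disjoint_left.1 hEF hz1)
    · rw [segment_eq_image'] at hz2
      obtain ⟨θ, hθ, rfl⟩ := hz2
      simp only [add_sub_cancel_left] at hz1 ⊢
      rw [mem_singleton_iff, add_eq_left]
      by_contra hne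
      have hθ0 : θ ≠ 0 := by
        rintro rfl
        exact hne (zero_smul _ _)
      have hθpos : 0 < θ := lt_of_le_of_ne hθ.1 hθ0.symm
      obtain ⟨s, hs, hse⟩ := hfp _ hz1 (by
        rw [add_sub_cancel_left, norm_smul, norm_smul, Real.norm_eq_abs, Real.norm_eq_abs,
          abs_of_pos htpos, abs_of_pos hθpos, htρ]
        nlinarith [hθ.2])
      rw [add_sub_cancel_left, smul_smul] at hse
      apply hwe ((θ * t)⁻¹ * s) (by positivity)
      rw [← smul_smul, ← hse, smul_smul, inv_mul_cancel₀ (by positivity), one_smul]) (by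
    rintro z ⟨hz1, hz2 | hz2⟩
    · exact absurd hz2 (disjoint_left.1 hRF hz1)
    · rw [segment_eq_image'] at hz2 hz1
      obtain ⟨θ, hθ, rfl⟩ := hz2
      obtain ⟨s, hs, hse⟩ := hz1
      simp only [add_sub_cancel_left] at hse ⊢
      rw [mem_singleton_iff, add_eq_left]
      by_contra hne
      have hθ0 : θ ≠ 0 := by
        rintro rfl
        exact hne (zero_smul _ _)
      have hθpos : 0 < θ := lt_of_le_of_ne hθ.1 hθ0.symm
      have h1 : s • (R - g) = (θ * t) • w := by
        rw [smul_smul] at hse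
        exact add_left_cancel hse
      apply hwR ((θ * t)⁻¹ * s) (by have := hs.1; positivity)
      rw [← smul_smul, h1, smul_smul, inv_mul_cancel₀ (by positivity), one_smul])
  exact ⟨k, hk, fun z hz => hid z (Or.inl hz), him, hid g (Or.inr hgs), hx⟩

end Pool.Agent.EDG
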