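import Pool.Agent.EDG.CLOSE
import Pool.Agent.EDG.CONN
import Pool.Agent.EDG.STR
import Pool.Agent.EDG.PUSH
import Pool.Agent.EDG.GEO1

/-! Module CONND: connectedness of the outside, floating curves. -/

set_option autoImplicit false

namespace Pool.Agent.EDG

open Set

theorem closed_sub {S : Set Pl} (hS : Marked S) {S' : Set Pl} (h : S' ⊆ S) : IsClosed S' := by
  refine isClosed_of_closure_subset fun z hz => ?_
  have h1 : z ∈ Metric.ball (0 : Pl) (dist z 0 + 1) := by
    rw [Metric.mem_ball]; linarith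
  have h2 := Metric.isOpen_ball.inter_closure (s := Metric.ball (0 : Pl) (dist z 0 + 1))
    (t := S') ⟨h1, hz⟩
  have h3 : (Metric.ball (0 : Pl) (dist z 0 + 1) ∩ S').Finite :=
    (hS.locallyFinite (dist z 0 + 1)).subset fun y hy => ⟨h hy.2, hy.1⟩
  rw [h3.isClosed.closure_eq] at h2
  exact h2.2

theorem conn (T : Set Pl) (hT : Convex ℝ T) (hTc : IsCompact T) (𝓔 : List (Set Pl))
    (harc : ∀ E ∈ 𝓔, ∃ a b, PolyArc a b E) (hdis : 𝓔.Pairwise Disjoint)
    (hdT : ∀ E ∈ 𝓔, Disjoint E T) (S : Set Pl) (hS : ∀ R : ℝ, (S ∩ Metric.ball 0 R).Finite) :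
    IsPreconnected (T ∪ (⋃ E ∈ 𝓔, E) ∪ S)ᶜ :=
  conn_of (fun hE R hR _ hF hg hEF hRF => move_free hE R hR hF hg hEF hRF)
    T hT hTc 𝓔 harc hdis hdT S hS

/-- the last disc is the preimage of a compact convex set -/
theorem Inv.exists_convex {S : Set Pl} {L : List Curve} {n : ℕ} {D : ℕ → Set Pl}
    (hI : Inv S L n D) :
    ∃ (h : Pl ≃ₜ Pl) (T : Set Pl), IsPL h ∧ Convex ℝ T ∧ IsCompact T ∧ D n = h ⁻¹' T := by
  rcases hI.last with h0 | ⟨h, A, B, C, hh, -, hD, -⟩
  · subst h0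
    exact ⟨Homeomorph.refl Pl, ∅, IsPL.refl, convex_empty, isCompact_empty, by
      rw [hI.zero, preimage_empty]⟩
  · exact ⟨h, tri A B C, hh, convex_convexHull ℝ _, tri_compact A B C, hD⟩

theorem Inv.compact {S : Set Pl} {L : List Curve} {n : ℕ} {D : ℕ → Set Pl} (hI : Inv S L n D) :
    IsCompact (D n) := by
  obtain ⟨h, T, -, -, hT, hD⟩ := hI.exists_convex
  rw [hD]
  exact h.isCompact_preimage.2 hT

theorem connD {S : Set Pl} (hS : Marked S) {L : List Curve} {n : ℕ} {D : ℕ → Set Pl}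
    (hI : Inv S L n D) (L' : List Curve) (hL' : ∀ e ∈ L', e ∈ L ∧ Disjoint e.carrier (D n))
    (S' : Set Pl) (hS' : S' ⊆ S) :
    IsPreconnected (D n ∪ (⋃ e ∈ L', e.carrier) ∪ S')ᶜ := by
  classical
  obtain ⟨h, T, hh, hTc, hT, hD⟩ := hI.exists_convex
  have key := conn T hTc hT (L'.dedup.map fun e => h '' e.carrier)
    (by
      intro E hE
      obtain ⟨e, _, rfl⟩ := List.mem_map.1 hE
      exact ⟨_, _, e.isArc.image hh⟩)
    (by
      rw [List.pairwise_map]
      refine (L'.nodup_dedup).imp_of_mem ?_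
      intro a b ha hb hab
      have ha' := hL' a (List.mem_dedup.1 ha)
      have hb' := hL' b (List.mem_dedup.1 hb)
      rcases hI.float a ha'.1 b hb'.1 ha'.2 hb'.2 with h1 | h1
      · exact absurd h1 hab
      · exact (disjoint_image_iff h.injective).2 h1)
    (by
      intro E hE
      obtain ⟨e, he, rfl⟩ := List.mem_map.1 hE
      have he' := (hL' e (List.mem_dedup.1 he)).2
      rw [hD] at he'
      rw [disjoint_left]
      rintro _ ⟨y, hy, rfl⟩ hyT
      exact disjoint_left.1 he' hy hyT)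
    (h '' S')
    (by
      intro R
      have h1 : IsCompact (h ⁻¹' Metric.closedBall (0 : Pl) R) :=
        h.isCompact_preimage.2 (isCompact_closedBall 0 R)
      obtain ⟨R', hR'⟩ := h1.isBounded.subset_ball (0 : Pl)
      refine ((hS.locallyFinite R').image h).subset ?_
      rintro _ ⟨⟨y, hy, rfl⟩, hyR⟩
      exact ⟨y, ⟨hS' hy, hR' (Metric.ball_subset_closedBall hyR)⟩, rfl⟩)
  have h2 : (D n ∪ (⋃ e ∈ L', e.carrier) ∪ S')ᶜ
      = h.symm '' (T ∪ (⋃ E ∈ L'.dedup.map fun e => h '' e.carrier, E) ∪ h '' S')ᶜ := by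
    rw [h.image_symm, preimage_compl, preimage_union, preimage_union, ← hD,
      preimage_image_eq _ h.injective]
    congr 3
    ext z
    simp only [mem_iUnion, exists_prop, mem_preimage, List.mem_map, List.mem_dedup]
    constructor
    · rintro ⟨e, he, hz⟩
      exact ⟨_, ⟨e, he, rfl⟩, mem_image_of_mem _ hz⟩
    · rintro ⟨_, ⟨e, he, rfl⟩, hz⟩
      exact ⟨e, he, (h.injective.mem_set_image).1 hz⟩
  rw [h2]
  exact key.image _ h.symm.continuous.continuousOn

/-- Two isolated marked points outside can be joined by a floating curve. -/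
theorem add_float {S : Set Pl} (hS : Marked S) {L : List Curve} {n : ℕ} {D : ℕ → Set Pl}
    (hI : Inv S L n D) : ∃ c' : Curve, Legal S L c' ∧ Inv S (c' :: L) n D := by
  classical
  -- two isolated marked points outside
  have hfin1 : (S ∩ D n).Finite := by
    obtain ⟨R, hR⟩ := hI.compact.isBounded.subset_ball (0 : Pl)
    exact (hS.locallyFinite R).subset fun z hz => ⟨hz.1, hR hz.2⟩
  set P : Set Pl := (⋃ e ∈ L, ({e.a, e.b} : Set Pl)) with hP
  have hfin2 : P.Finite := by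
    have h1 : P = ⋃ e ∈ {e | e ∈ L}, ({e.a, e.b} : Set Pl) := rfl
    rw [h1]
    exact (List.finite_toSet L).biUnion fun e _ => (Set.finite_singleton e.b).insert e.a
  have hinf : (S \ ((S ∩ D n) ∪ P)).Infinite := hS.infinite.sdiff (hfin1.union hfin2)
  obtain ⟨z1, hz1⟩ := hinf.nonempty
  obtain ⟨z2, hz2, hne⟩ : ∃ z2 ∈ S \ ((S ∩ D n) ∪ P), z2 ≠ z1 := by
    obtain ⟨z2, hz2⟩ := (hinf.sdiff (Set.finite_singleton z1)).nonempty
    exact ⟨z2, hz2.1, hz2.2⟩
  have hz1D : z1 ∉ D n := fun h => hz1.2 (Or.inl ⟨hz1.1, h⟩)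
  have hz2D : z2 ∉ D n := fun h => hz2.2 (Or.inl ⟨hz2.1, h⟩)
  have hend : ∀ z ∈ S \ ((S ∩ D n) ∪ P), ∀ e ∈ L, z ≠ e.a ∧ z ≠ e.b := by
    intro z hz e he
    constructor
    · rintro rfl
      exact hz.2 (Or.inr (mem_iUnion₂.2 ⟨e, he, Or.inl rfl⟩))
    · rintro rfl
      exact hz.2 (Or.inr (mem_iUnion₂.2 ⟨e, he, Or.inr rfl⟩))
  have hoff : ∀ z ∈ S \ ((S ∩ D n) ∪ P), ∀ e ∈ L, z ∉ e.carrier := by
    intro z hz e he hze
    rcases hI.marked e he z hz.1 hze with h | h
    · exact (hend z hz e he).1 h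
    · exact (hend z hz e he).2 h
  -- closedness of the union of the curves
  have hclU : ∀ L1 : List Curve, IsClosed (⋃ e ∈ L1, e.carrier) := by
    intro L1
    have h1 : (⋃ e ∈ L1, e.carrier) = ⋃ e ∈ {e | e ∈ L1}, e.carrier := rfl
    rw [h1]
    exact (List.finite_toSet L1).isClosed_biUnion fun e _ => e.isArc.isCompact.isClosed
  set L' : List Curve := L.filter fun e => Disjoint e.carrier (D n) with hL'
  have hL'mem : ∀ e ∈ L', e ∈ L ∧ Disjoint e.carrier (D n) := by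
    intro e he
    rw [hL', List.mem_filter] at he
    exact ⟨he.1, by simpa using he.2⟩
  set W : Set Pl := (D n ∪ (⋃ e ∈ L', e.carrier) ∪ (S \ {z2}))ᶜ with hW
  have hWc : IsPreconnected W := connD hS hI L' hL'mem (S \ {z2}) sdiff_subset
  have hWo : IsOpen W :=
    (((hI.closed n).union (hclU L')).union (closed_sub hS sdiff_subset)).isOpen_compl
  have hmemW : ∀ z, z ∈ W ↔ z ∉ D n ∧ (∀ e ∈ L', z ∉ e.carrier) ∧ (z ∈ S → z = z2) := by
    intro z
    rw [hW, mem_compl_iff, mem_union, mem_union, not_or, not_or, mem_iUnion₂, mem_sdiff,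
      mem_singleton_iff]
    push Not
    tauto
  -- a small ball around `z1`
  set U : Set Pl := (D n ∪ (⋃ e ∈ L, e.carrier) ∪ (S \ {z1}))ᶜ with hU
  have hUo : IsOpen U :=
    (((hI.closed n).union (hclU L)).union (closed_sub hS sdiff_subset)).isOpen_compl
  have hmemU : ∀ z, z ∈ U ↔ z ∉ D n ∧ (∀ e ∈ L, z ∉ e.carrier) ∧ (z ∈ S → z = z1) := by
    intro z
    rw [hU, mem_compl_iff, mem_union, mem_union, not_or, not_or, mem_iUnion₂, mem_sdiff,
      mem_singleton_iff]
    push Not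
    tauto
  have hz1U : z1 ∈ U := (hmemU z1).2 ⟨hz1D, hoff z1 hz1, fun _ => rfl⟩
  obtain ⟨ε, hε, hball⟩ := Metric.isOpen_iff.1 hUo z1 hz1U
  set z1' : Pl := z1 + (ε / 2, 0) with hz1'
  have hz1'ne : z1' ≠ z1 := by
    intro h
    have h1 : ((ε / 2, 0) : Pl) = 0 := by
      rw [hz1'] at h
      exact left_eq_add.1 h.symm
    have h2 : ε / 2 = 0 := congrArg Prod.fst h1
    linarith
  have hz1'b : z1' ∈ Metric.ball z1 ε := by
    rw [Metric.mem_ball, hz1', dist_eq_norm, add_sub_cancel_left, Prod.norm_def]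
    simp only [norm_zero, Real.norm_eq_abs]
    rw [abs_of_pos (by linarith : 0 < ε / 2)]
    exact max_lt (by linarith) hε
  have hseg : segment ℝ z1 z1' ⊆ U :=
    ((convex_ball z1 ε).segment_subset (Metric.mem_ball_self hε) hz1'b).trans hball
  have hUW : ∀ z ∈ U, z ≠ z1 → z ∈ W := by
    intro z hz hzne
    obtain ⟨h1, h2, h3⟩ := (hmemU z).1 hz
    exact (hmemW z).2 ⟨h1, fun e he => h2 e (hL'mem e he).1, fun h4 => absurd (h3 h4) hzne⟩
  have hz1'W : z1' ∈ W := hUW z1' (hball hz1'b) hz1'ne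
  have hz2W : z2 ∈ W := (hmemW z2).2 ⟨hz2D, fun e he => hoff z2 hz2 e (hL'mem e he).1, fun _ => rfl⟩
  obtain ⟨k, hk, hkid, hk1⟩ := push W hWo hWc z1' z2 hz1'W hz2W
  have hkz1 : k z1 = z1 := hkid z1 fun h => hne (((hmemW z1).1 h).2.2 hz1.1).symm
  have harc : PolyArc z1 z2 (k '' segment ℝ z1 z1') := by
    have h1 := (PolyArc.single z1 z1' hz1'ne.symm).image hk
    rwa [hkz1, hk1] at h1
  -- the new curve lies in `W`, except for `z1`
  have hcW : ∀ z ∈ k '' segment ℝ z1 z1', z ≠ z1 → z ∈ W := by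
    rintro _ ⟨w, hw, rfl⟩ hne1
    have hwne : w ≠ z1 := fun h => hne1 (by rw [h, hkz1])
    have hwW := hUW w (hseg hw) hwne
    by_contra hcon
    have h1 := hkid _ hcon
    have h2 := k.injective h1
    exact hcon (by rw [h2]; exact hwW)
  have hcD : Disjoint (k '' segment ℝ z1 z1') (D n) := by
    rw [disjoint_left]
    intro z hz hzD
    by_cases h : z = z1
    · exact hz1D (h ▸ hzD)
    · exact ((hmemW z).1 (hcW z hz h)).1 hzD
  have hcL : ∀ e ∈ L, Disjoint e.carrier (k '' segment ℝ z1 z1') := by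
    intro e he
    rcases hI.out e he with h | h
    · exact (hcD.mono_right h).symm
    · rw [disjoint_left]
      intro z hz hzc
      by_cases hzz : z = z1
      · exact hoff z1 hz1 e he (hzz ▸ hz)
      · refine ((hmemW z).1 (hcW z hzc hzz)).2.1 e ?_ hz
        rw [hL', List.mem_filter]
        exact ⟨he, by simpa using h⟩
  set c' : Curve := ⟨z1, z2, k '' segment ℝ z1 z1', harc⟩ with hc'
  have hlegal : Legal S L c' := by
    refine ⟨hz1.1, hz2.1, ?_, ?_, ?_⟩
    · intro e he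
      rintro (⟨h1, -⟩ | ⟨-, h1⟩)
      · exact (hend z1 hz1 e he).1 h1.symm
      · exact (hend z1 hz1 e he).2 h1.symm
    · intro z hz hzc
      by_cases h : z = z1
      · exact Or.inl h
      · exact Or.inr (((hmemW z).1 (hcW z hzc h)).2.2 hz)
    · intro e he z hz
      exact absurd hz.2 (disjoint_left.1 (hcL e he) hz.1)
  exact ⟨c', hlegal, hI.cons hlegal (Or.inr ⟨hcD, fun e he _ => hcL e he⟩)⟩

end Pool.Agent.EDG
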