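import Pool.Agent.EDG.STR

/-! The trivial case of dense marked sets: Builder extends the tree greedily. -/

set_option autoImplicit false

namespace Pool.Agent.EDG

open Set Metric MeasureTheory

theorem line_null (v : Pl) {d : Pl} (hd : d ≠ 0) : volume {z : Pl | cr (z - v) d = 0} = 0 := by
  have hsub : {z : Pl | cr (z - v) d = 0} ⊆
      (AffineSubspace.mk' v (Submodule.span ℝ {d}) : Set Pl) := by
    intro z hz
    rw [SetLike.mem_coe, AffineSubspace.mem_mk']
    have h := coord_decomp hd (z - v)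
    have h2 : d.1 * (z - v).2 - d.2 * (z - v).1 = 0 := by
      have h3 : cr (z - v) d = 0 := hz
      simp only [cr] at h3
      linarith
    rw [h2, zero_div, zero_smul, add_zero] at h
    rw [vsub_eq_sub, h]
    exact Submodule.smul_mem _ _ (Submodule.mem_span_singleton_self d)
  refine measure_mono_null hsub (Measure.addHaar_affineSubspace volume _ ?_)
  intro htop
  have h1 : (AffineSubspace.mk' v (Submodule.span ℝ {d})).direction = ⊤ := by
    rw [htop]
    exact AffineSubspace.direction_top ℝ Pl Pl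
  rw [AffineSubspace.direction_mk'] at h1
  have h2 : qt d ∈ Submodule.span ℝ {d} := by
    rw [h1]
    trivial
  obtain ⟨c, hc⟩ := Submodule.mem_span_singleton.1 h2
  have e1 : c * d.1 = -d.2 := by
    have := congrArg Prod.fst hc
    simpa [qt] using this
  have e2 : c * d.2 = d.1 := by
    have := congrArg Prod.snd hc
    simpa [qt] using this
  have := sq_pos_of_ne hd
  have h0 : d.1 ^ 2 + d.2 ^ 2 = 0 := by linear_combination d.2 * e1 - d.1 * e2
  exact this.ne' h0

theorem exists_good {v : Pl} {r : ℝ} (hr : 0 < r) {N : Set Pl} (hN : volume N = 0) :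
    ∃ z ∈ ball v r, z ∉ N := by
  by_contra hcon
  push Not at hcon
  have h1 : volume (ball v r) = 0 := measure_mono_null hcon hN
  exact (measure_ball_pos volume v hr).ne' h1

theorem near_directions (S : Set Pl) (L : List Curve)
    (hm : ∀ e ∈ L, ∀ z ∈ S, z ∈ e.carrier → z = e.a ∨ z = e.b) {v : Pl} (hv : v ∈ S) :
    ∃ ρ : ℝ, 0 < ρ ∧ ∃ Dd : Set Pl, Dd.Countable ∧ (∀ d ∈ Dd, d ≠ 0) ∧
      ∀ e ∈ L, ∀ z ∈ e.carrier, ‖z - v‖ < ρ → ∃ d ∈ Dd, ∃ s : ℝ, z - v = s • d := by
  induction L with
  | nil => exact ⟨1, one_pos, ∅, countable_empty, by simp, by simp⟩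
  | cons e L ih =>
    obtain ⟨ρ, hρ, Dd, hDc, hD0, hD⟩ := ih (fun e he => hm e (List.mem_cons_of_mem _ he))
    by_cases hve : v ∈ e.carrier
    · have : ∃ d : Pl, d ≠ 0 ∧ ∃ ρ : ℝ, 0 < ρ ∧ ∀ z ∈ e.carrier, ‖z - v‖ < ρ →
          ∃ s : ℝ, 0 ≤ s ∧ z - v = s • d := by
        rcases hm e List.mem_cons_self v hv hve with rfl | rfl
        · exact first_piece e.isArc
        · exact first_piece e.isArc.symm
      obtain ⟨d, hd, ρ', hρ', h'⟩ := this
      refine ⟨min ρ ρ', by positivity, insert d Dd, hDc.insert d, ?_, ?_⟩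
      · rintro d' (rfl | hd')
        · exact hd
        · exact hD0 d' hd'
      · intro e' he' z hz hzρ
        rcases List.mem_cons.1 he' with rfl | he'
        · obtain ⟨s, -, hs⟩ := h' z hz (hzρ.trans_le (min_le_right _ _))
          exact ⟨d, mem_insert _ _, s, hs⟩
        · obtain ⟨d', hd', s, hs⟩ := hD e' he' z hz (hzρ.trans_le (min_le_left _ _))
          exact ⟨d', mem_insert_of_mem _ hd', s, hs⟩
    · obtain ⟨ρ', hρ', h'⟩ := Metric.isOpen_iff.1 e.isArc.isCompact.isClosed.isOpen_compl v hve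
      refine ⟨min ρ ρ', by positivity, Dd, hDc, hD0, ?_⟩
      intro e' he' z hz hzρ
      rcases List.mem_cons.1 he' with rfl | he'
      · exact absurd hz (h' (by
          rw [mem_ball, dist_eq_norm]
          exact hzρ.trans_le (min_le_right _ _)))
      · exact hD e' he' z hz (hzρ.trans_le (min_le_left _ _))

theorem cr_smul_left (s : ℝ) (u v : Pl) : cr (s • u) v = s * cr u v := by
  simp [cr]; ring

theorem cr_smul_right (s : ℝ) (u v : Pl) : cr u (s • v) = s * cr u v := by
  simp [cr]; ring

theorem cr_self (u : Pl) : cr u u = 0 := by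
  simp [cr]; ring

/-- In a dense countable set of marked points every marked point can be joined to a new one. -/
theorem extend {S : Set Pl} (hSc : S.Countable) (hSd : Dense S) (L : List Curve)
    (hm : ∀ e ∈ L, ∀ z ∈ S, z ∈ e.carrier → z = e.a ∨ z = e.b)
    {v : Pl} (hv : v ∈ S) (Z : Set Pl) (hZ : Z.Finite) :
    ∃ c : Curve, Legal S L c ∧ c.a = v ∧ c.b ∉ Z := by
  classical
  obtain ⟨ρ, hρ, Dd, hDc, hD0, hD⟩ := near_directions S L hm hv
  have hne0 : ((1, 0) : Pl) ≠ 0 := by
    intro h
    have := congrArg Prod.fst h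
    norm_num at this
  have nullD : volume (⋃ d ∈ Dd, {z : Pl | cr (z - v) d = 0}) = 0 :=
    (measure_biUnion_null_iff hDc).2 (fun d hd => line_null v (hD0 d hd))
  obtain ⟨m, hmball, hmN⟩ := exists_good (v := v) (half_pos hρ)
    (measure_union_null nullD (line_null v hne0))
  have hmv : m ≠ v := by
    rintro rfl
    apply hmN
    right
    simp [cr]
  have hUc : IsClosed (⋃ e ∈ L, e.carrier) := by
    have : (⋃ e ∈ L, e.carrier) = ⋃ e ∈ L.toFinset, e.carrier := by
      ext z
      simp
    rw [this]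
    exact L.toFinset.finite_toSet.isClosed_biUnion (fun e _ => e.isArc.isCompact.isClosed)
  have hmU : m ∉ ⋃ e ∈ L, e.carrier := by
    intro h
    rw [mem_iUnion₂] at h
    obtain ⟨e, he, hme⟩ := h
    rw [mem_ball, dist_eq_norm] at hmball
    obtain ⟨d, hd, s, hs⟩ := hD e he m hme (by linarith)
    apply hmN
    left
    rw [mem_iUnion₂]
    refine ⟨d, hd, ?_⟩
    change cr (m - v) d = 0
    rw [hs, cr_smul_left, cr_self, mul_zero]
  obtain ⟨r1, hr1, hb1⟩ := Metric.isOpen_iff.1 hUc.isOpen_compl m hmU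
  have hmv' : 0 < ‖m - v‖ := norm_pos_iff.2 (sub_ne_zero.2 hmv)
  set r : ℝ := min r1 (min (ρ / 2) ‖m - v‖) with hr
  have hrpos : 0 < r := by positivity
  have hbU : ∀ z ∈ ball m r, z ∉ ⋃ e ∈ L, e.carrier := fun z hz =>
    hb1 (ball_subset_ball (min_le_left _ _) hz)
  have hbρ : ∀ z ∈ ball m r, ‖z - v‖ < ρ := by
    intro z hz
    rw [mem_ball, dist_eq_norm] at hz hmball
    have h1 : r ≤ ρ / 2 := (min_le_right _ _).trans (min_le_left _ _)
    have h2 : ‖z - v‖ ≤ ‖z - m‖ + ‖m - v‖ := by
      have : z - v = (z - m) + (m - v) := by abel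
      rw [this]
      exact norm_add_le _ _
    linarith
  have hbv : v ∉ ball m r := by
    intro h
    rw [mem_ball, dist_eq_norm, norm_sub_rev] at h
    have h1 : r ≤ ‖m - v‖ := (min_le_right _ _).trans (min_le_right _ _)
    linarith
  -- the new marked point
  have hopen : IsOpen (ball m r \ Z) := isOpen_ball.sdiff hZ.isClosed
  obtain ⟨x0, hx0, hx0Z⟩ := exists_good (v := m) hrpos (hZ.measure_zero volume)
  obtain ⟨x, hxU, hxS⟩ := hSd.inter_open_nonempty _ hopen ⟨x0, hx0, hx0Z⟩
  have hxb : x ∈ ball m r := hxU.1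
  have hxv : x ≠ v := fun h => hbv (h ▸ hxb)
  -- the turning point
  have null1 : volume (⋃ s ∈ S \ {v}, {z : Pl | cr (z - v) (s - v) = 0}) = 0 :=
    (measure_biUnion_null_iff (hSc.mono sdiff_subset)).2
      (fun s hs => line_null v (sub_ne_zero.2 hs.2))
  have null2 : volume (⋃ s ∈ S \ {x}, {z : Pl | cr (z - x) (s - x) = 0}) = 0 :=
    (measure_biUnion_null_iff (hSc.mono sdiff_subset)).2
      (fun s hs => line_null x (sub_ne_zero.2 hs.2))
  obtain ⟨m', hm'b, hm'N⟩ := exists_good (v := m) hrpos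
    (measure_union_null nullD (measure_union_null null1 null2))
  have hN1 : ∀ d ∈ Dd, cr (m' - v) d ≠ 0 := by
    intro d hd h
    apply hm'N
    left
    rw [mem_iUnion₂]
    exact ⟨d, hd, h⟩
  have hN2 : ∀ s ∈ S, s ≠ v → cr (m' - v) (s - v) ≠ 0 := by
    intro s hs hsv h
    apply hm'N
    right; left
    rw [mem_iUnion₂]
    exact ⟨s, ⟨hs, hsv⟩, h⟩
  have hN3 : ∀ s ∈ S, s ≠ x → cr (m' - x) (s - x) ≠ 0 := by
    intro s hs hsx h
    apply hm'N
    right; right
    rw [mem_iUnion₂]
    exact ⟨s, ⟨hs, hsx⟩, h⟩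
  have hvm' : v ≠ m' := by
    rintro rfl
    apply hN2 x hxS hxv
    rw [sub_self]
    simp [cr]
  have hm'x : m' ≠ x := by
    rintro rfl
    apply hN3 v hv hxv.symm
    rw [sub_self]
    simp [cr]
  have hinter : segment ℝ v m' ∩ segment ℝ m' x = {m'} := by
    apply Subset.antisymm
    · rintro z ⟨hz1, hz2⟩
      rw [segment_symm, segment_eq_image'] at hz1
      rw [segment_eq_image'] at hz2
      obtain ⟨a, ha, rfl⟩ := hz1
      obtain ⟨b, hb, hab⟩ := hz2
      rw [mem_singleton_iff, add_eq_left]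
      by_contra hne
      have ha0 : a ≠ 0 := by
        rintro rfl
        exact hne (zero_smul _ _)
      have h1 : b • (x - m') = a • (v - m') := add_left_cancel hab
      apply hN2 x hxS hxv
      have h2 : a * cr (m' - v) (x - v) = 0 := by
        have h3 := congrArg Prod.fst h1
        have h4 := congrArg Prod.snd h1
        simp only [Prod.smul_fst, Prod.smul_snd, Prod.fst_sub, Prod.snd_sub, smul_eq_mul] at h3 h4
        simp only [cr, Prod.fst_sub, Prod.snd_sub]
        linear_combination (x.2 - m'.2) * h3 - (x.1 - m'.1) * h4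
      exact (mul_eq_zero.1 h2).resolve_left ha0
    · rintro _ rfl
      exact ⟨right_mem_segment ℝ _ _, left_mem_segment ℝ _ _⟩
  have hseg1 : ∀ z ∈ segment ℝ v m', z ≠ v → ∃ θ : ℝ, 0 < θ ∧ θ ≤ 1 ∧ z - v = θ • (m' - v) := by
    intro z hz hzv
    rw [segment_eq_image'] at hz
    obtain ⟨θ, hθ, rfl⟩ := hz
    have hθ0 : θ ≠ 0 := by
      rintro rfl
      exact hzv (by simp)
    exact ⟨θ, lt_of_le_of_ne hθ.1 hθ0.symm, hθ.2, by simp⟩
  have hseg2 : ∀ z ∈ segment ℝ m' x, z ≠ x → ∃ θ : ℝ, 0 < θ ∧ z - x = θ • (m' - x) := by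
    intro z hz hzx
    rw [segment_symm, segment_eq_image'] at hz
    obtain ⟨θ, hθ, rfl⟩ := hz
    have hθ0 : θ ≠ 0 := by
      rintro rfl
      exact hzx (by simp)
    exact ⟨θ, lt_of_le_of_ne hθ.1 hθ0.symm, by simp⟩
  have hsegb : segment ℝ m' x ⊆ ball m r := (convex_ball m r).segment_subset hm'b hxb
  refine ⟨⟨v, x, _, PolyArc.cons v m' x _ hvm' (PolyArc.single m' x hm'x) hinter⟩,
    ⟨hv, hxS, ?_, ?_, ?_⟩, rfl, hxU.2⟩
  · rintro e he (⟨h1, h2⟩ | ⟨h1, h2⟩)
    · apply hbU x hxb
      rw [mem_iUnion₂]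
      exact ⟨e, he, by rw [← show e.b = x from h2]; exact e.isArc.right_mem⟩
    · apply hbU x hxb
      rw [mem_iUnion₂]
      exact ⟨e, he, by rw [← show e.a = x from h1]; exact e.isArc.left_mem⟩
  · rintro z hzS (hz | hz)
    · left
      by_contra hzv
      obtain ⟨θ, hθ, -, hzθ⟩ := hseg1 z hz hzv
      apply hN2 z hzS hzv
      rw [hzθ, cr_smul_right, cr_self, mul_zero]
    · right
      by_contra hzx
      obtain ⟨θ, hθ, hzθ⟩ := hseg2 z hz hzx
      apply hN3 z hzS hzx
      rw [hzθ, cr_smul_right, cr_self, mul_zero]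
  · rintro e he z ⟨hze, hz | hz⟩
    · left
      by_contra hzv
      obtain ⟨θ, hθ, hθ1, hzθ⟩ := hseg1 z hz hzv
      have hzρ : ‖z - v‖ < ρ := by
        rw [hzθ, norm_smul, Real.norm_eq_abs, abs_of_pos hθ]
        have := hbρ m' hm'b
        nlinarith [norm_nonneg (m' - v)]
      obtain ⟨d, hd, s, hs⟩ := hD e he z hze hzρ
      apply hN1 d hd
      have h1 : θ * cr (m' - v) d = 0 := by
        rw [← cr_smul_left, ← hzθ, hs, cr_smul_left, cr_self, mul_zero]
      exact (mul_eq_zero.1 h1).resolve_left hθ.ne'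
    · exfalso
      apply hbU z (hsegb hz)
      rw [mem_iUnion₂]
      exact ⟨e, he, hze⟩

/-- The words of length at most `d`. -/
noncomputable def allWords (d : ℕ) : Finset (List Bool) :=
  (List.finite_length_le Bool d).toFinset

theorem mem_allWords {d : ℕ} {w : List Bool} : w ∈ allWords d ↔ w.length ≤ d := by
  simp [allWords]

/-- A part `W` of the tree is embedded in the drawn graph. -/
def Part (S : Set Pl) (d : ℕ) (L : List Curve) (m : ℕ) : Prop :=
  ∃ (W : Finset (List Bool)) (f : List Bool → Pl), W ⊆ allWords d ∧ [] ∈ W ∧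
    (∀ x u, (x :: u) ∈ W → u ∈ W) ∧ (∀ w ∈ W, f w ∈ S) ∧ (∀ w ∈ W, ∀ w' ∈ W, f w = f w' → w = w') ∧
    (∀ x u, (x :: u) ∈ W → ∃ e ∈ L, e.a = f u ∧ e.b = f (x :: u)) ∧
    (m + 1 ≤ W.card ∨ W = allWords d)

theorem Part.cons {S : Set Pl} {d : ℕ} {L : List Curve} {m : ℕ} (h : Part S d L m) (c : Curve) :
    Part S d (c :: L) m := by
  obtain ⟨W, f, h1, h2, h3, h4, h5, h6, h7⟩ := h
  refine ⟨W, f, h1, h2, h3, h4, h5, fun x u hx => ?_, h7⟩
  obtain ⟨e, he, he'⟩ := h6 x u hx
  exact ⟨e, List.mem_cons_of_mem _ he, he'⟩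

theorem Part.step {S : Set Pl} (hSc : S.Countable) (hSd : Dense S) {d : ℕ} {L : List Curve}
    {m : ℕ} (hm : ∀ e ∈ L, ∀ z ∈ S, z ∈ e.carrier → z = e.a ∨ z = e.b) (h : Part S d L m) :
    ∃ c : Curve, Legal S L c ∧ Part S d (c :: L) (m + 1) := by
  classical
  obtain ⟨W, f, h1, h2, h3, h4, h5, h6, h7⟩ := h
  by_cases hall : W = allWords d
  · obtain ⟨c, hc, -, -⟩ := extend hSc hSd L hm (h4 _ h2) ∅ finite_empty
    refine ⟨c, hc, W, f, h1, h2, h3, h4, h5, fun x u hx => ?_, Or.inr hall⟩
    obtain ⟨e, he, he'⟩ := h6 x u hx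
    exact ⟨e, List.mem_cons_of_mem _ he, he'⟩
  · have hcard : m + 1 ≤ W.card := h7.resolve_right hall
    -- a shortest missing word
    have hne : (allWords d \ W).Nonempty := by
      rw [Finset.sdiff_nonempty]
      exact fun hsub => hall (Finset.Subset.antisymm h1 hsub)
    obtain ⟨w, hw, hmin⟩ := Finset.exists_min_image _ List.length hne
    rw [Finset.mem_sdiff] at hw
    obtain ⟨x, u, rfl⟩ : ∃ x u, w = x :: u := by
      cases w with
      | nil => exact absurd h2 hw.2
      | cons x u => exact ⟨x, u, rfl⟩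
    have huW : u ∈ W := by
      by_contra hu
      have hul : u ∈ allWords d := by
        have := mem_allWords.1 hw.1
        rw [mem_allWords]
        simp at this
        omega
      have := hmin u (Finset.mem_sdiff.2 ⟨hul, hu⟩)
      simp at this
    obtain ⟨c, hc, hca, hcb⟩ := extend hSc hSd L hm (h4 u huW) (f '' W)
      (W.finite_toSet.image f)
    have hnew : ∀ w' ∈ W, f w' ≠ c.b := fun w' hw' he => hcb ⟨w', hw', he⟩
    have hneW : ∀ w' ∈ W, w' ≠ x :: u := fun w' hw' he => hw.2 (he ▸ hw')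
    refine ⟨c, hc, insert (x :: u) W, Function.update f (x :: u) c.b, ?_, ?_, ?_, ?_, ?_, ?_, ?_⟩
    · exact Finset.insert_subset hw.1 h1
    · exact Finset.mem_insert_of_mem h2
    · intro y v hv
      rcases Finset.mem_insert.1 hv with hv | hv
      · obtain ⟨-, rfl⟩ := List.cons.inj hv
        exact Finset.mem_insert_of_mem huW
      · exact Finset.mem_insert_of_mem (h3 y v hv)
    · intro w' hw'
      rcases Finset.mem_insert.1 hw' with rfl | hw'
      · rw [Function.update_self]
        exact hc.mem_b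
      · rw [Function.update_of_ne (hneW _ hw')]
        exact h4 w' hw'
    · intro w1 hw1 w2 hw2 he
      rcases Finset.mem_insert.1 hw1 with rfl | hw1 <;>
        rcases Finset.mem_insert.1 hw2 with rfl | hw2
      · rfl
      · rw [Function.update_self, Function.update_of_ne (hneW _ hw2)] at he
        exact absurd he.symm (hnew w2 hw2)
      · rw [Function.update_self, Function.update_of_ne (hneW _ hw1)] at he
        exact absurd he (hnew w1 hw1)
      · rw [Function.update_of_ne (hneW _ hw1),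
          Function.update_of_ne (hneW _ hw2)] at he
        exact h5 w1 hw1 w2 hw2 he
    · intro y v hv
      rcases Finset.mem_insert.1 hv with hv | hv
      · obtain ⟨rfl, rfl⟩ := List.cons.inj hv
        refine ⟨c, List.mem_cons_self, ?_, ?_⟩
        · rw [Function.update_of_ne (hneW _ huW)]
          exact hca
        · rw [Function.update_self]
      · obtain ⟨e, he, he1, he2⟩ := h6 y v hv
        refine ⟨e, List.mem_cons_of_mem _ he, ?_, ?_⟩
        · rw [Function.update_of_ne (hneW _ (h3 y v hv))]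
          exact he1
        · rw [Function.update_of_ne (hneW _ hv)]
          exact he2
    · left
      rw [Finset.card_insert_of_notMem hw.2]
      omega

theorem builder_wins_dense {S : Set Pl} (hSc : S.Countable) (hSd : Dense S) (d : ℕ) :
    BuilderWins S (binTree d) := by
  classical
  obtain ⟨s0, hs0⟩ := hSd.nonempty
  obtain ⟨c0, -, -, -⟩ := extend hSc hSd [] (by simp) hs0 ∅ finite_empty
  have hNe : Nonempty Curve := ⟨c0⟩
  let β : List Curve → Curve := fun L =>
    if h : ∃ c, Legal S L c ∧ Part S d (c :: L) (L.length / 2 + 1) then h.choose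
    else Classical.arbitrary Curve
  have hβ : ∀ L, (∃ c, Legal S L c ∧ Part S d (c :: L) (L.length / 2 + 1)) →
      Legal S L (β L) ∧ Part S d (β L :: L) (L.length / 2 + 1) := by
    intro L h
    have e : β L = h.choose := dif_pos h
    rw [e]
    exact h.choose_spec
  have key : ∀ L, ReachB S β L → (∀ e ∈ L, ∀ z ∈ S, z ∈ e.carrier → z = e.a ∨ z = e.b) ∧
      Part S d L ((L.length + 1) / 2) := by
    intro L hL
    induction hL with
    | nil =>
      refine ⟨by simp, {[]}, fun _ => s0, ?_, by simp, ?_, ?_, ?_, ?_, ?_⟩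
      · intro w hw
        rw [Finset.mem_singleton] at hw
        rw [hw, mem_allWords]
        simp
      · intro x u hx
        simp at hx
      · intro w _
        exact hs0
      · intro w hw w' hw' _
        rw [Finset.mem_singleton] at hw hw'
        rw [hw, hw']
      · intro x u hx
        simp at hx
      · left
        simp
    | builder L h hL ih =>
      have h2 : (L.length + 1) / 2 = L.length / 2 := by
        obtain ⟨k, hk⟩ := hL
        omega
      have hex := ih.2.step hSc hSd ih.1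
      rw [h2] at hex
      have hb := hβ L hex
      constructor
      · intro e he
        rcases List.mem_cons.1 he with rfl | he
        · exact hb.1.marked
        · exact ih.1 e he
      · rw [List.length_cons]
        have h3 : (L.length + 1 + 1) / 2 = L.length / 2 + 1 := by omega
        rw [h3]
        exact hb.2
    | spoiler L c h hL hc ih =>
      constructor
      · intro e he
        rcases List.mem_cons.1 he with rfl | he
        · exact hc.marked
        · exact ih.1 e he
      · rw [List.length_cons]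
        have h3 : (L.length + 1 + 1) / 2 = (L.length + 1) / 2 := by
          obtain ⟨k, hk⟩ := hL
          omega
        rw [h3]
        exact ih.2.cons c
  refine ⟨β, fun L hL hev => ?_, fun P hP0 hPr hPs => ?_⟩
  · have h2 : (L.length + 1) / 2 = L.length / 2 := by
      obtain ⟨k, hk⟩ := hev
      omega
    have hex := (key L hL).2.step hSc hSd (key L hL).1
    rw [h2] at hex
    exact (hβ L hex).1
  · have hlen : ∀ n, (P n).length = n := by
      intro n
      induction n with
      | zero => rw [hP0]; rfl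
      | succ n ih =>
        obtain ⟨c, hc⟩ := hPs n
        rw [hc, List.length_cons, ih]
    set N := (allWords d).card with hN
    refine ⟨2 * N, ?_⟩
    obtain ⟨W, f, h1, h2, h3, h4, h5, h6, h7⟩ := (key _ (hPr (2 * N))).2
    have hW : W = allWords d := by
      rcases h7 with h7 | h7
      · apply Finset.eq_of_subset_of_card_le h1
        rw [hlen] at h7
        omega
      · exact h7
    have hmem : ∀ w : {w : List Bool // w.length ≤ d}, w.1 ∈ W := by
      intro w
      rw [hW, mem_allWords]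
      exact w.2
    have hadj : ∀ u v : {w : List Bool // w.length ≤ d}, (∃ x : Bool, v.1 = x :: u.1) →
        ∃ e ∈ P (2 * N), e.a = f u.1 ∧ e.b = f v.1 := by
      rintro u v ⟨x, hx⟩
      have := h6 x u.1 (by rw [← hx]; exact hmem v)
      rw [← hx] at this
      exact this
    refine ⟨⟨⟨fun w => ⟨f w.1, h4 _ (hmem w)⟩, ?_⟩, ?_⟩⟩
    · intro u v huv
      rw [binTree, SimpleGraph.fromRel_adj] at huv
      rw [drawnGraph, SimpleGraph.fromRel_adj]
      refine ⟨fun he => huv.1 ?_, ?_⟩
      · apply Subtype.ext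
        exact h5 _ (hmem u) _ (hmem v) (congrArg Subtype.val he)
      · rcases huv.2 with h | h
        · exact Or.inl (hadj u v h)
        · exact Or.inr (hadj v u h)
    · intro u v huv
      apply Subtype.ext
      exact h5 _ (hmem u) _ (hmem v) (congrArg Subtype.val huv)

end Pool.Agent.EDG
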