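import Mathlib

/-!
# The edge drawing game

Definitions for the edge drawing game with polygonal curves: the plane, simple polygonal arcs,
positions, legal moves, the drawn graph, strategies, the balanced binary tree.
-/

set_option autoImplicit false

namespace Pool.Agent.EDG

/-- The plane. -/
abbrev Pl : Type := ℝ × ℝ

/-- `PolyArc a b E`: the set `E` is a simple (non-self-intersecting) polygonal curve from `a` to
`b`.  It is a segment, or a segment followed by a simple polygonal curve which meets the segment
only in their common endpoint. -/
inductive PolyArc : Pl → Pl → Set Pl → Prop
  | single (a b : Pl) (h : a ≠ b) : PolyArc a b (segment ℝ a b)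
  | cons (a v b : Pl) (E : Set Pl) (h : a ≠ v) (hE : PolyArc v b E)
      (hm : segment ℝ a v ∩ E = {v}) : PolyArc a b (segment ℝ a v ∪ E)

/-- A curve that can be drawn: a simple polygonal curve with its two endpoints. -/
structure Curve where
  /-- first endpoint -/
  a : Pl
  /-- second endpoint -/
  b : Pl
  /-- the set of points of the curve -/
  carrier : Set Pl
  isArc : PolyArc a b carrier

/-- A new curve `c` may be drawn when the curves of the list `L` have been drawn: its endpoints are
marked points which are not yet joined, it passes through no other marked point and meets the
curves of `L` at most in its own endpoints. -/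
structure Legal (S : Set Pl) (L : List Curve) (c : Curve) : Prop where
  mem_a : c.a ∈ S
  mem_b : c.b ∈ S
  not_joined : ∀ e ∈ L, ¬ ((e.a = c.a ∧ e.b = c.b) ∨ (e.a = c.b ∧ e.b = c.a))
  marked : ∀ z ∈ S, z ∈ c.carrier → z = c.a ∨ z = c.b
  meets : ∀ e ∈ L, e.carrier ∩ c.carrier ⊆ {c.a, c.b}

/-- The graph on the marked points formed by the drawn curves. -/
def drawnGraph (S : Set Pl) (L : List Curve) : SimpleGraph S :=
  SimpleGraph.fromRel (fun u v => ∃ e ∈ L, e.a = u.1 ∧ e.b = v.1)

/-- The balanced binary tree of depth `d`: the vertices are the words of length at most `d` over a
two-letter alphabet, and every nonempty word is joined to the word without its first letter. -/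
def binTree (d : ℕ) : SimpleGraph {w : List Bool // w.length ≤ d} :=
  SimpleGraph.fromRel (fun u v => ∃ x : Bool, v.1 = x :: u.1)

/-- The positions (lists of drawn curves, the last one first) which can occur when Builder, who
moves first, plays arbitrary legal moves and Spoiler plays according to `σ`. -/
inductive ReachS (S : Set Pl) (σ : List Curve → Curve) : List Curve → Prop
  | nil : ReachS S σ []
  | builder (L : List Curve) (c : Curve) (h : ReachS S σ L) (hL : Even L.length)
      (hc : Legal S L c) : ReachS S σ (c :: L)
  | spoiler (L : List Curve) (h : ReachS S σ L) (hL : Odd L.length) : ReachS S σ (σ L :: L)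

/-- The positions which can occur when Builder plays according to `β` and Spoiler plays arbitrary
legal moves. -/
inductive ReachB (S : Set Pl) (β : List Curve → Curve) : List Curve → Prop
  | nil : ReachB S β []
  | builder (L : List Curve) (h : ReachB S β L) (hL : Even L.length) : ReachB S β (β L :: L)
  | spoiler (L : List Curve) (c : Curve) (h : ReachB S β L) (hL : Odd L.length)
      (hc : Legal S L c) : ReachB S β (c :: L)

/-- Spoiler has a strategy for the `H`-subgraph game on the marked points `S`: all its moves are
legal and `H` never appears as a subgraph. -/
def SpoilerWins {V : Type} (S : Set Pl) (H : SimpleGraph V) : Prop :=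
  ∃ σ : List Curve → Curve, ∀ L : List Curve, ReachS S σ L →
    (Odd L.length → Legal S L (σ L)) ∧ ¬ H.IsContained (drawnGraph S L)

/-- Builder has a winning strategy for the `H`-subgraph game on the marked points `S`: a strategy
all of whose moves are legal such that every infinite play consistent with it contains a position
in which `H` is a subgraph of the drawn graph. -/
def BuilderWins {V : Type} (S : Set Pl) (H : SimpleGraph V) : Prop :=
  ∃ β : List Curve → Curve,
    (∀ L : List Curve, ReachB S β L → Even L.length → Legal S L (β L)) ∧
    ∀ P : ℕ → List Curve, P 0 = [] → (∀ n, ReachB S β (P n)) → (∀ n, ∃ c, P (n + 1) = c :: P n) →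
      ∃ n, H.IsContained (drawnGraph S (P n))

/-- Marked points: infinitely many, only finitely many in every bounded part of the plane. -/
structure Marked (S : Set Pl) : Prop where
  infinite : S.Infinite
  locallyFinite : ∀ R : ℝ, (S ∩ Metric.ball 0 R).Finite

end Pool.Agent.EDG
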