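import Pool.Agent.EDG.Pre

/-! Path decompositions of the balanced binary tree: some bag has at least `k + 1` vertices. -/

set_option autoImplicit false

namespace Pool.Agent.EDG

open Set

namespace TreeAux

theorem mid (k : ℕ) {V : Type} (bag : ℕ → Set V)
    (hint : ∀ i j l v, i ≤ j → j ≤ l → v ∈ bag i → v ∈ bag l → v ∈ bag j)
    (F : List Bool → V)
    (h0 : ∀ u : List Bool, u.length ≤ 2 * k + 2 → ∃ i, F u ∈ bag i)
    (hedge : ∀ (u : List Bool) (x : Bool), (x :: u).length ≤ 2 * k + 2 →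
      ∃ i, F u ∈ bag i ∧ F (x :: u) ∈ bag i)
    (s1 s2 s3 : List Bool) (l1 : s1.length = 2) (l2 : s2.length = 2) (l3 : s3.length = 2)
    (n12 : s1 ≠ s2) (n32 : s3 ≠ s2) (i1 i2 i3 : ℕ) (h12 : i1 ≤ i2) (h23 : i2 ≤ i3)
    (w1 w3 : List Bool) (hw1 : w1.length ≤ 2 * k) (hw3 : w3.length ≤ 2 * k)
    (hb1 : F (w1 ++ s1) ∈ bag i1) (hb3 : F (w3 ++ s3) ∈ bag i3)
    (t : Finset (List Bool)) (htc : t.card = k + 1)
    (ht : ∀ w ∈ t, w.length ≤ 2 * k ∧ F (w ++ s2) ∈ bag i2) :
    ∃ i, ∃ t : Finset (List Bool), t.card = k + 2 ∧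
      ∀ w ∈ t, w.length ≤ 2 * k + 2 ∧ F w ∈ bag i := by
  classical
  -- a word outside the middle copy in the middle bag suffices
  have key : ∀ u : List Bool, u.length ≤ 2 * k + 2 → (∀ w : List Bool, w ++ s2 ≠ u) →
      F u ∈ bag i2 → ∃ i, ∃ t : Finset (List Bool), t.card = k + 2 ∧
        ∀ w ∈ t, w.length ≤ 2 * k + 2 ∧ F w ∈ bag i := by
    intro u hu hne hbu
    refine ⟨i2, insert u (t.image (fun w => w ++ s2)), ?_, ?_⟩
    · rw [Finset.card_insert_of_notMem, Finset.card_image_of_injective, htc]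
      · intro a b hab
        exact List.append_cancel_right hab
      · intro hmem
        rw [Finset.mem_image] at hmem
        obtain ⟨w, _, hw⟩ := hmem
        exact hne w hw
    · intro w hw
      rw [Finset.mem_insert, Finset.mem_image] at hw
      rcases hw with rfl | ⟨w', hw', rfl⟩
      · exact ⟨hu, hbu⟩
      · refine ⟨?_, (ht w' hw').2⟩
        have := (ht w' hw').1
        rw [List.length_append, l2]
        omega
  by_contra hcon
  have hno : ∀ u : List Bool, u.length ≤ 2 * k + 2 → (∀ w : List Bool, w ++ s2 ≠ u) →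
      F u ∉ bag i2 := fun u hu hne hbu => hcon (key u hu hne hbu)
  -- the words of the copies 1 and 3 and short words are not in copy 2
  have ne1 : ∀ v w : List Bool, w ++ s2 ≠ v ++ s1 := by
    intro v w h
    have := List.append_inj_right' h (by rw [l1, l2])
    exact n12 this.symm
  have ne3 : ∀ v w : List Bool, w ++ s2 ≠ v ++ s3 := by
    intro v w h
    have := List.append_inj_right' h (by rw [l3, l2])
    exact n32 this.symm
  have nes : ∀ v : List Bool, v.length ≤ 1 → ∀ w : List Bool, w ++ s2 ≠ v := by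
    intro v hv w h
    have := congrArg List.length h
    rw [List.length_append, l2] at this
    omega
  -- left side
  let P : List Bool → Prop := fun u => ∃ i, i < i2 ∧ F u ∈ bag i
  have hP : ∀ u : List Bool, u.length ≤ 2 * k + 2 → (∀ w : List Bool, w ++ s2 ≠ u) →
      ∀ i, F u ∈ bag i → (P u ↔ i < i2) := by
    intro u hu hne i hi
    constructor
    · rintro ⟨j, hj, hbj⟩
      by_contra hlt
      push Not at hlt
      exact hno u hu hne (hint j i2 i _ hj.le hlt hbj hi)
    · intro hlt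
      exact ⟨i, hlt, hi⟩
  have step : ∀ (u : List Bool) (x : Bool), (x :: u).length ≤ 2 * k + 2 →
      (∀ w : List Bool, w ++ s2 ≠ u) → (∀ w : List Bool, w ++ s2 ≠ x :: u) →
      (P (x :: u) ↔ P u) := by
    intro u x hl hne hne'
    obtain ⟨i, hi1, hi2⟩ := hedge u x hl
    have hl' : u.length ≤ 2 * k + 2 := by
      rw [List.length_cons] at hl
      omega
    rw [hP u hl' hne i hi1, hP (x :: u) hl hne' i hi2]
  have copy : ∀ s : List Bool, s.length = 2 → (∀ v w : List Bool, w ++ s2 ≠ v ++ s) →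
      ∀ w : List Bool, w.length ≤ 2 * k → (P (w ++ s) ↔ P s) := by
    intro s hs hne w
    induction w with
    | nil => intro _; rfl
    | cons x w ih =>
      intro hl
      rw [List.length_cons] at hl
      have h1 := step (w ++ s) x (by rw [List.length_cons, List.length_append, hs]; omega)
        (hne w) (hne (x :: w))
      rw [List.cons_append, h1]
      exact ih (by omega)
  have root : ∀ s : List Bool, s.length = 2 → (∀ v w : List Bool, w ++ s2 ≠ v ++ s) →
      (P s ↔ P []) := by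
    intro s hs hne
    obtain ⟨x, y, rfl⟩ := List.length_eq_two.mp hs
    rw [step [y] x (by simp only [List.length_cons, List.length_nil]; omega)
      (nes _ (by simp)) (hne []),
      step [] y (by simp only [List.length_cons, List.length_nil]; omega)
      (nes _ (by simp)) (nes _ (by simp))]
  have hA : P (w1 ++ s1) ↔ P [] := (copy s1 l1 ne1 w1 hw1).trans (root s1 l1 ne1)
  have hB : P (w3 ++ s3) ↔ P [] := (copy s3 l3 ne3 w3 hw3).trans (root s3 l3 ne3)
  have len1 : (w1 ++ s1).length ≤ 2 * k + 2 := by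
    rw [List.length_append, l1]; omega
  have len3 : (w3 ++ s3).length ≤ 2 * k + 2 := by
    rw [List.length_append, l3]; omega
  have h1 : i1 < i2 := by
    rcases Nat.lt_or_ge i1 i2 with h | h
    · exact h
    · exfalso
      have : i1 = i2 := le_antisymm h12 h
      rw [this] at hb1
      exact hno _ len1 (ne1 w1) hb1
  have hPl : P (w1 ++ s1) := ⟨i1, h1, hb1⟩
  have hPr := (hP (w3 ++ s3) len3 (ne3 w3) i3 hb3).mp (hB.mpr (hA.mp hPl))
  omega

theorem aux (k : ℕ) {V : Type} (bag : ℕ → Set V)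
    (hint : ∀ i j l v, i ≤ j → j ≤ l → v ∈ bag i → v ∈ bag l → v ∈ bag j) :
    ∀ F : List Bool → V, (∀ u : List Bool, u.length ≤ 2 * k → ∃ i, F u ∈ bag i) →
    (∀ (u : List Bool) (x : Bool), (x :: u).length ≤ 2 * k →
      ∃ i, F u ∈ bag i ∧ F (x :: u) ∈ bag i) →
    ∃ i, ∃ t : Finset (List Bool), t.card = k + 1 ∧
      ∀ w ∈ t, w.length ≤ 2 * k ∧ F w ∈ bag i := by
  induction k with
  | zero =>
    intro F h0 _
    obtain ⟨i, hi⟩ := h0 [] (by simp)
    refine ⟨i, {[]}, by simp, ?_⟩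
    intro w hw
    rw [Finset.mem_singleton] at hw
    subst hw
    exact ⟨by simp, hi⟩
  | succ k ih =>
    intro F h0 hedge
    have h0' : ∀ u : List Bool, u.length ≤ 2 * k + 2 → ∃ i, F u ∈ bag i :=
      fun u hu => h0 u (by omega)
    have hedge' : ∀ (u : List Bool) (x : Bool), (x :: u).length ≤ 2 * k + 2 →
        ∃ i, F u ∈ bag i ∧ F (x :: u) ∈ bag i := fun u x hu => hedge u x (by omega)
    have get : ∀ s : List Bool, s.length = 2 → ∃ i, ∃ t : Finset (List Bool), t.card = k + 1 ∧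
        ∀ w ∈ t, w.length ≤ 2 * k ∧ F (w ++ s) ∈ bag i := by
      intro s hs
      refine ih (fun w => F (w ++ s)) ?_ ?_
      · intro u hu
        exact h0' _ (by rw [List.length_append, hs]; omega)
      · intro u x hu
        rw [List.length_cons] at hu
        have := hedge' (u ++ s) x (by rw [List.length_cons, List.length_append, hs]; omega)
        exact this
    have pick : ∀ (i : ℕ) (s : List Bool) (t : Finset (List Bool)), t.card = k + 1 →
        (∀ w ∈ t, w.length ≤ 2 * k ∧ F (w ++ s) ∈ bag i) →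
        ∃ w : List Bool, w.length ≤ 2 * k ∧ F (w ++ s) ∈ bag i := by
      intro i s t htc ht
      have : t.Nonempty := by
        rw [← Finset.card_pos, htc]
        omega
      obtain ⟨w, hw⟩ := this
      exact ⟨w, ht w hw⟩
    have fin : ∀ s1 s2 s3 : List Bool, s1.length = 2 → s2.length = 2 → s3.length = 2 →
        s1 ≠ s2 → s3 ≠ s2 → ∀ i1 i2 i3 : ℕ, i1 ≤ i2 → i2 ≤ i3 →
        ∀ t1 t2 t3 : Finset (List Bool), t1.card = k + 1 → t2.card = k + 1 → t3.card = k + 1 →
        (∀ w ∈ t1, w.length ≤ 2 * k ∧ F (w ++ s1) ∈ bag i1) →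
        (∀ w ∈ t2, w.length ≤ 2 * k ∧ F (w ++ s2) ∈ bag i2) →
        (∀ w ∈ t3, w.length ≤ 2 * k ∧ F (w ++ s3) ∈ bag i3) →
        ∃ i, ∃ t : Finset (List Bool), t.card = k + 1 + 1 ∧
          ∀ w ∈ t, w.length ≤ 2 * (k + 1) ∧ F w ∈ bag i := by
      intro s1 s2 s3 l1 l2 l3 n12 n32 i1 i2 i3 h12 h23 t1 t2 t3 c1 c2 c3 q1 q2 q3
      obtain ⟨w1, hw1, hb1⟩ := pick i1 s1 t1 c1 q1
      obtain ⟨w3, hw3, hb3⟩ := pick i3 s3 t3 c3 q3
      obtain ⟨i, t, htc, ht⟩ := mid k bag hint F h0' hedge' s1 s2 s3 l1 l2 l3 n12 n32 i1 i2 i3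
        h12 h23 w1 w3 hw1 hw3 hb1 hb3 t2 c2 q2
      exact ⟨i, t, htc, fun w hw => ⟨by have := (ht w hw).1; omega, (ht w hw).2⟩⟩
    obtain ⟨i1, t1, c1, q1⟩ := get [false, false] rfl
    obtain ⟨i2, t2, c2, q2⟩ := get [false, true] rfl
    obtain ⟨i3, t3, c3, q3⟩ := get [true, false] rfl
    rcases le_total i1 i2 with h12 | h12 <;> rcases le_total i2 i3 with h23 | h23 <;>
      rcases le_total i1 i3 with h13 | h13
    · exact fin _ _ _ rfl rfl rfl (by decide) (by decide) i1 i2 i3 h12 h23 t1 t2 t3 c1 c2 c3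
        q1 q2 q3
    · exact fin _ _ _ rfl rfl rfl (by decide) (by decide) i1 i2 i3 h12 h23 t1 t2 t3 c1 c2 c3
        q1 q2 q3
    · exact fin _ _ _ rfl rfl rfl (by decide) (by decide) i1 i3 i2 h13 h23 t1 t3 t2 c1 c3 c2
        q1 q3 q2
    · exact fin _ _ _ rfl rfl rfl (by decide) (by decide) i3 i1 i2 h13 h12 t3 t1 t2 c3 c1 c2
        q3 q1 q2
    · exact fin _ _ _ rfl rfl rfl (by decide) (by decide) i2 i1 i3 h12 h13 t2 t1 t3 c2 c1 c3
        q2 q1 q3
    · exact fin _ _ _ rfl rfl rfl (by decide) (by decide) i2 i3 i1 h23 h13 t2 t3 t1 c2 c3 c1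
        q2 q3 q1
    · exact fin _ _ _ rfl rfl rfl (by decide) (by decide) i3 i2 i1 h23 h12 t3 t2 t1 c3 c2 c1
        q3 q2 q1
    · exact fin _ _ _ rfl rfl rfl (by decide) (by decide) i3 i2 i1 h23 h12 t3 t2 t1 c3 c2 c1
        q3 q2 q1

end TreeAux

theorem tree_bag (k : ℕ) {V : Type} (bag : ℕ → Set V)
    (hint : ∀ i j l v, i ≤ j → j ≤ l → v ∈ bag i → v ∈ bag l → v ∈ bag j)
    (f : {w : List Bool // w.length ≤ 2 * k} → V) (hf : Function.Injective f)
    (h0 : ∀ u, ∃ i, f u ∈ bag i)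
    (hedge : ∀ u v, (binTree (2 * k)).Adj u v → ∃ i, f u ∈ bag i ∧ f v ∈ bag i) :
    ∃ i, ∃ t : Finset V, t.card = k + 1 ∧ (t : Set V) ⊆ bag i := by
  classical
  let F : List Bool → V := fun w => if h : w.length ≤ 2 * k then f ⟨w, h⟩ else f ⟨[], by simp⟩
  have hF : ∀ (w : List Bool) (h : w.length ≤ 2 * k), F w = f ⟨w, h⟩ := fun w h => by
    simp only [F, dif_pos h]
  obtain ⟨i, t, htc, ht⟩ := TreeAux.aux k bag hint F (fun u hu => by
      obtain ⟨i, hi⟩ := h0 ⟨u, hu⟩
      exact ⟨i, by rw [hF u hu]; exact hi⟩) (fun u x hu => by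
      have hu' : u.length ≤ 2 * k := by
        rw [List.length_cons] at hu
        omega
      obtain ⟨i, h1, h2⟩ := hedge ⟨u, hu'⟩ ⟨x :: u, hu⟩ (by
        unfold binTree
        rw [SimpleGraph.fromRel_adj]
        refine ⟨?_, Or.inl ⟨x, rfl⟩⟩
        intro h
        have := congrArg (fun z => z.1.length) h
        simp at this)
      exact ⟨i, by rw [hF u hu']; exact h1, by rw [hF _ hu]; exact h2⟩)
  refine ⟨i, t.image F, ?_, ?_⟩
  · rw [Finset.card_image_of_injOn, htc]
    intro a ha b hb hab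
    have ha' := (ht a ha).1
    have hb' := (ht b hb).1
    rw [hF a ha', hF b hb'] at hab
    exact congrArg Subtype.val (hf hab)
  · intro v hv
    rw [Finset.coe_image] at hv
    obtain ⟨w, hw, rfl⟩ := hv
    exact (ht w hw).2

end Pool.Agent.EDG
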