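import Pool.Agent.EDG.Pre
import Pool.Agent.EDG.PLB
import Pool.Agent.EDG.TREE

/-! The invariant excludes the binary tree of depth 14. -/

set_option autoImplicit false

namespace Pool.Agent.EDG

open Set

/-- the bags -/
def ntBag (S : Set Pl) (n : ℕ) (D : ℕ → Set Pl) (i : ℕ) : Set S :=
  {v | i < n ∧ v.1 ∈ D (i + 1) ∧ v.1 ∉ interior (D i)}

theorem nt_mono {D : ℕ → Set Pl} (h : ∀ i, D i ⊆ D (i + 1)) {i j : ℕ} (hij : i ≤ j) :
    D i ⊆ D j := by
  induction j, hij using Nat.le_induction with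
  | base => exact subset_rfl
  | succ k _ ih => exact ih.trans (h k)

theorem nt_interval {S : Set Pl} {n : ℕ} {D : ℕ → Set Pl} (hm : ∀ i, D i ⊆ D (i + 1))
    (i j l : ℕ) (v : S) (hij : i ≤ j) (hjl : j ≤ l) (hi : v ∈ ntBag S n D i)
    (hl : v ∈ ntBag S n D l) : v ∈ ntBag S n D j := by
  refine ⟨lt_of_le_of_lt hjl hl.1, nt_mono hm (Nat.succ_le_succ hij) hi.2.1, fun h => hl.2.2 ?_⟩
  exact interior_mono (nt_mono hm hjl) h

/-- endpoints of a curve inside `D n` are in a common bag -/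
theorem nt_curve {S : Set Pl} {L : List Curve} {n : ℕ} {D : ℕ → Set Pl} (hI : Inv S L n D)
    (e : Curve) (he : e ∈ L) (hin : e.carrier ⊆ D n) (u v : S) (hu : u.1 ∈ e.carrier)
    (hv : v.1 ∈ e.carrier) : ∃ i, u ∈ ntBag S n D i ∧ v ∈ ntBag S n D i := by
  classical
  have hex : ∃ k, e.carrier ⊆ D k := ⟨n, hin⟩
  have h1 := Nat.find_spec hex
  have h2 : Nat.find hex ≤ n := Nat.find_min' hex hin
  have h0 : Nat.find hex ≠ 0 := by
    intro h0
    rw [h0, hI.zero] at h1
    exact h1 hu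
  obtain ⟨i, hi⟩ := Nat.exists_eq_succ_of_ne_zero h0
  have h3 : ¬ e.carrier ⊆ D i := Nat.find_min hex (by omega)
  have h4 : Disjoint e.carrier (interior (D i)) := (hI.sep i (by omega) e he).resolve_left h3
  rw [hi] at h1
  have hin' : i < n := by omega
  refine ⟨i, ⟨hin', h1 hu, fun h => ?_⟩, ⟨hin', h1 hv, fun h => ?_⟩⟩
  · exact Set.disjoint_left.1 h4 hu h
  · exact Set.disjoint_left.1 h4 hv h

/-- adjacency in the drawn graph -/
theorem nt_adj {S : Set Pl} {L : List Curve} {u v : S} (h : (drawnGraph S L).Adj u v) :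
    ∃ e ∈ L, ((e.a = u.1 ∧ e.b = v.1) ∨ (e.a = v.1 ∧ e.b = u.1)) ∧ u.1 ∈ e.carrier ∧
      v.1 ∈ e.carrier := by
  rw [drawnGraph, SimpleGraph.fromRel_adj] at h
  rcases h.2 with ⟨e, he, ha, hb⟩ | ⟨e, he, ha, hb⟩
  · exact ⟨e, he, Or.inl ⟨ha, hb⟩, ha ▸ e.isArc.left_mem, hb ▸ e.isArc.right_mem⟩
  · exact ⟨e, he, Or.inr ⟨ha, hb⟩, hb ▸ e.isArc.right_mem, ha ▸ e.isArc.left_mem⟩

theorem nt_tree_adj {d : ℕ} {u v : {w : List Bool // w.length ≤ d}}
    (h : (binTree d).Adj u v) : (∃ x : Bool, v.1 = x :: u.1) ∨ ∃ x : Bool, u.1 = x :: v.1 := by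
  rw [binTree, SimpleGraph.fromRel_adj] at h
  exact h.2

theorem nt_child_adj {d : ℕ} (u v : {w : List Bool // w.length ≤ d}) (x : Bool)
    (h : v.1 = x :: u.1) : (binTree d).Adj u v := by
  rw [binTree, SimpleGraph.fromRel_adj]
  refine ⟨fun he => ?_, Or.inl ⟨x, h⟩⟩
  rw [he] at h
  have := congrArg List.length h
  simp at this

theorem no_tree (S : Set Pl) (L : List Curve) (n : ℕ) (D : ℕ → Set Pl) (hI : Inv S L n D) :
    ¬ (binTree 14).IsContained (drawnGraph S L) := by
  rintro ⟨φ⟩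
  have hinj : Function.Injective φ := φ.injective
  -- the curve of a parent-child edge is inside `D n`
  have key : ∀ (u v : {w : List Bool // w.length ≤ 14}) (x : Bool), v.1 = x :: u.1 →
      ∃ i, φ u ∈ ntBag S n D i ∧ φ v ∈ ntBag S n D i := by
    intro u v x hx
    have hadj : (drawnGraph S L).Adj (φ u) (φ v) := φ.toHom.map_adj (nt_child_adj u v x hx)
    obtain ⟨e, he, hends, hu, hv⟩ := nt_adj hadj
    rcases hI.out e he with hin | hout
    · exact nt_curve hI e he hin _ _ hu hv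
    · exfalso
      have hlen : ((!x) :: u.1).length ≤ 14 := by
        have h1 := v.2
        rw [hx] at h1
        simpa using h1
      let v' : {w : List Bool // w.length ≤ 14} := ⟨(!x) :: u.1, hlen⟩
      have hadj' : (drawnGraph S L).Adj (φ u) (φ v') := φ.toHom.map_adj (nt_child_adj u v' (!x) rfl)
      obtain ⟨e', he', hends', hu', hv'⟩ := nt_adj hadj'
      have hout' : Disjoint e'.carrier (D n) := by
        refine (hI.out e' he').resolve_left (fun h => ?_)
        exact Set.disjoint_left.1 hout hu (h hu')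
      rcases hI.float e he e' he' hout hout' with heq | hdis
      · subst heq
        have hne : φ v ≠ φ v' := by
          intro h
          have h1 := hinj h
          have h2 : v.1 = v'.1 := congrArg Subtype.val h1
          rw [hx] at h2
          have h3 : x = !x := (List.cons.inj h2).1
          cases x <;> simp at h3
        have huv : φ u ≠ φ v := hadj.ne
        have huv' : φ u ≠ φ v' := hadj'.ne
        apply hne
        apply Subtype.ext
        rcases hends with ⟨h1, h2⟩ | ⟨h1, h2⟩ <;> rcases hends' with ⟨h3, h4⟩ | ⟨h3, h4⟩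
        · rw [← h2, h4]
        · exact absurd (Subtype.ext (h1.symm.trans h3)) huv'
        · exact absurd (Subtype.ext (h3.symm.trans h1)) huv
        · rw [← h1, h3]
      · exact Set.disjoint_left.1 hdis hu hu'
  have hedge : ∀ u v : {w : List Bool // w.length ≤ 14}, (binTree 14).Adj u v →
      ∃ i, φ u ∈ ntBag S n D i ∧ φ v ∈ ntBag S n D i := by
    intro u v h
    rcases nt_tree_adj h with ⟨x, hx⟩ | ⟨x, hx⟩
    · exact key u v x hx
    · obtain ⟨i, h1, h2⟩ := key v u x hx
      exact ⟨i, h2, h1⟩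
  have h0 : ∀ u : {w : List Bool // w.length ≤ 14}, ∃ i, φ u ∈ ntBag S n D i := by
    intro u
    obtain ⟨w, hw⟩ := u
    cases w with
    | nil =>
      obtain ⟨i, h1, _⟩ := key ⟨[], hw⟩ ⟨[true], by simp⟩ true rfl
      exact ⟨i, h1⟩
    | cons x w =>
      have hw' : w.length ≤ 14 := by
        simp at hw
        omega
      obtain ⟨i, _, h2⟩ := key ⟨w, hw'⟩ ⟨x :: w, hw⟩ x rfl
      exact ⟨i, h2⟩
  obtain ⟨i, t, ht, hsub⟩ := tree_bag 7 (ntBag S n D) (nt_interval hI.mono) φ hinj h0 hedge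
  have hne : t.Nonempty := by
    rw [← Finset.card_pos, ht]
    norm_num
  obtain ⟨v, hv⟩ := hne
  have hin : i < n := (hsub hv).1
  have hb := hI.bag i hin
  have h1 : ((t.map (Function.Embedding.subtype _) : Finset Pl) : Set Pl) ⊆
      S ∩ (D (i + 1) \ interior (D i)) := by
    intro z hz
    rw [Finset.mem_coe, Finset.mem_map] at hz
    obtain ⟨y, hy, rfl⟩ := hz
    exact ⟨y.2, (hsub hy).2.1, (hsub hy).2.2⟩
  have h2 := Set.encard_le_encard h1
  rw [Set.encard_coe_eq_coe_finsetCard, Finset.card_map, ht] at h2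
  have h3 := h2.trans hb
  norm_num at h3

end Pool.Agent.EDG
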