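import Pool.Agent.EDG.GAME
import Pool.Agent.EDG.NOTREE
import Pool.Agent.EDG.CASES

/-! Spoiler prevents the balanced binary tree of depth 14. -/

set_option autoImplicit false

namespace Pool.Agent.EDG

theorem spoiler_wins (S : Set Pl) (hS : Marked S) : SpoilerWins S (binTree 14) :=
  spoiler_wins_of S (fun L n D hI c hc => step S hS L n D hI c hc)
    (fun L n D hI => no_tree S L n D hI)

end Pool.Agent.EDG
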