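import Pool.Agent.EDG.Pre

/-! The game part: from the main step to a strategy of Spoiler. -/

set_option autoImplicit false

namespace Pool.Agent.EDG

open Set

theorem inv_nil (S : Set Pl) : Inv S [] 0 (fun _ => ∅) where
  mem_a := by intro e he; simp at he
  mem_b := by intro e he; simp at he
  marked := by intro e he; simp at he
  closed := fun _ => isClosed_empty
  zero := rfl
  mono := fun _ => subset_rfl
  cover := by intro i _; simp
  sep := by intro i _ e he; simp at he
  bag := by intro i hi; omega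
  out := by intro e he; simp at he
  float := by intro e he; simp at he
  last := Or.inl rfl

theorem game_curve_nonempty : Nonempty Curve :=
  ⟨⟨(0, 0), (1, 0), segment ℝ (0, 0) (1, 0), PolyArc.single _ _ (by
    intro h
    have := congrArg Prod.fst h
    norm_num at this)⟩⟩

theorem drawnGraph_mono (S : Set Pl) (L : List Curve) (c : Curve) :
    drawnGraph S L ≤ drawnGraph S (c :: L) := by
  intro u v h
  unfold drawnGraph at h ⊢
  rw [SimpleGraph.fromRel_adj] at h ⊢
  refine ⟨h.1, ?_⟩
  rcases h.2 with ⟨e, he, h1⟩ | ⟨e, he, h1⟩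
  · exact Or.inl ⟨e, List.mem_cons_of_mem _ he, h1⟩
  · exact Or.inr ⟨e, List.mem_cons_of_mem _ he, h1⟩

/-- Spoiler wins, given the main step and the absence of the tree in good positions. -/
theorem spoiler_wins_of (S : Set Pl)
    (hstep : ∀ (L : List Curve) (n : ℕ) (D : ℕ → Set Pl), Inv S L n D → ∀ c : Curve, Legal S L c →
      ∃ c' : Curve, Legal S (c :: L) c' ∧
        ∃ (m : ℕ) (D' : ℕ → Set Pl), Inv S (c' :: c :: L) m D')
    (hno : ∀ (L : List Curve) (n : ℕ) (D : ℕ → Set Pl), Inv S L n D →
      ¬ (binTree 14).IsContained (drawnGraph S L)) : SpoilerWins S (binTree 14) := by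
  classical
  have := game_curve_nonempty
  let σ : List Curve → Curve := fun L =>
    if h : ∃ c', Legal S L c' ∧ ∃ (m : ℕ) (D' : ℕ → Set Pl), Inv S (c' :: L) m D' then h.choose
    else Classical.arbitrary Curve
  have hσ : ∀ L, (∃ c', Legal S L c' ∧ ∃ (m : ℕ) (D' : ℕ → Set Pl), Inv S (c' :: L) m D') →
      Legal S L (σ L) ∧ ∃ (m : ℕ) (D' : ℕ → Set Pl), Inv S (σ L :: L) m D' := by
    intro L h
    have e : σ L = h.choose := dif_pos h
    rw [e]
    exact h.choose_spec
  have key : ∀ L, ReachS S σ L →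
      (Even L.length → ∃ (n : ℕ) (D : ℕ → Set Pl), Inv S L n D) ∧
      (Odd L.length → ∃ c', Legal S L c' ∧ ∃ (m : ℕ) (D' : ℕ → Set Pl), Inv S (c' :: L) m D') := by
    intro L hL
    induction hL with
    | nil =>
      refine ⟨fun _ => ⟨0, _, inv_nil S⟩, fun h => ?_⟩
      simp at h
    | builder L c h hL hc ih =>
      refine ⟨fun h1 => ?_, fun _ => ?_⟩
      · rw [List.length_cons] at h1
        exact absurd hL (by rw [Nat.even_add_one] at h1; exact h1)
      · obtain ⟨n, D, hI⟩ := ih.1 hL
        exact hstep L n D hI c hc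
    | spoiler L h hL ih =>
      refine ⟨fun _ => (hσ L (ih.2 hL)).2, fun h1 => ?_⟩
      rw [List.length_cons] at h1
      have h2 : Even (L.length + 1) := hL.add_one
      exact absurd h1 (Nat.not_odd_iff_even.2 h2)
  refine ⟨σ, fun L hL => ⟨fun h => (hσ L ((key L hL).2 h)).1, ?_⟩⟩
  rcases Nat.even_or_odd L.length with h | h
  · obtain ⟨n, D, hI⟩ := (key L hL).1 h
    exact hno L n D hI
  · obtain ⟨m, D', hI⟩ := (hσ L ((key L hL).2 h)).2
    intro hc
    exact hno _ m D' hI (hc.mono_right (drawnGraph_mono S L _))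

theorem not_builder_wins {V : Type} (S : Set Pl) (H : SimpleGraph V) (h : SpoilerWins S H) :
    ¬ BuilderWins S H := by
  classical
  obtain ⟨σ, hσ⟩ := h
  rintro ⟨β, hβ, hwin⟩
  let P : ℕ → List Curve := fun n => Nat.rec [] (fun n L => (if Even n then β L else σ L) :: L) n
  have hP : ∀ n, P (n + 1) = (if Even n then β (P n) else σ (P n)) :: P n := fun _ => rfl
  have hlen : ∀ n, (P n).length = n := by
    intro n
    induction n with
    | zero => rfl
    | succ n ih => rw [hP, List.length_cons, ih]
  have key : ∀ n, ReachB S β (P n) ∧ ReachS S σ (P n) := by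
    intro n
    induction n with
    | zero => exact ⟨ReachB.nil, ReachS.nil⟩
    | succ n ih =>
      rw [hP]
      split_ifs with hn
      · have he : Even (P n).length := by rw [hlen]; exact hn
        exact ⟨ReachB.builder _ ih.1 he, ReachS.builder _ _ ih.2 he (hβ _ ih.1 he)⟩
      · have ho : Odd (P n).length := by rw [hlen]; exact Nat.not_even_iff_odd.1 hn
        exact ⟨ReachB.spoiler _ _ ih.1 ho ((hσ _ ih.2).1 ho), ReachS.spoiler _ ih.2 ho⟩
  obtain ⟨n, hn⟩ := hwin P rfl (fun n => (key n).1) (fun n => ⟨_, hP n⟩)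
  exact (hσ _ (key n).2).2 hn

end Pool.Agent.EDG
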