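import Pool.Agent.EDG.Defs

/-! Auxiliary definitions for the proof. -/

set_option autoImplicit false

namespace Pool.Agent.EDG

open Set

/-- Piecewise linear homeomorphisms (of the kind we need). -/
def IsPL (h : Pl ≃ₜ Pl) : Prop :=
  (∀ u v, u ≠ v → PolyArc (h u) (h v) (h '' segment ℝ u v)) ∧
  (∀ u v, u ≠ v → PolyArc (h.symm u) (h.symm v) (h.symm '' segment ℝ u v))

/-- Near `g` the closed set `F` is the cone `g + K`; `-n ∈ K`. -/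
structure Loc (F : Set Pl) (g n : Pl) (K : Set Pl) : Prop where
  closed : IsClosed K
  add : ∀ a ∈ K, ∀ b ∈ K, a + b ∈ K
  smul : ∀ a ∈ K, ∀ s : ℝ, 0 ≤ s → s • a ∈ K
  pointed : ∀ a, a ∈ K → -a ∈ K → a = 0
  neg_pole : -n ∈ K
  pole_ne : n ≠ 0
  loc : ∃ ε : ℝ, 0 < ε ∧ ∀ z, dist z g < ε → (z ∈ F ↔ z - g ∈ K)

/-- closed triangle -/
def tri (A B C : Pl) : Set Pl := convexHull ℝ {A, B, C}

/-- cross product -/
def cr (u v : Pl) : ℝ := u.1 * v.2 - u.2 * v.1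

/-- nondegenerate -/
def ND (A B C : Pl) : Prop := cr (B - A) (C - A) ≠ 0

/-- Invariant. -/
structure Inv (S : Set Pl) (L : List Curve) (n : ℕ) (D : ℕ → Set Pl) : Prop where
  mem_a : ∀ e ∈ L, e.a ∈ S
  mem_b : ∀ e ∈ L, e.b ∈ S
  marked : ∀ e ∈ L, ∀ z ∈ S, z ∈ e.carrier → z = e.a ∨ z = e.b
  closed : ∀ i, IsClosed (D i)
  zero : D 0 = ∅
  mono : ∀ i, D i ⊆ D (i + 1)
  cover : ∀ i ≤ n, frontier (D i) ⊆ ⋃ e ∈ L, e.carrier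
  sep : ∀ i ≤ n, ∀ e ∈ L, e.carrier ⊆ D i ∨ Disjoint e.carrier (interior (D i))
  bag : ∀ i < n, (S ∩ (D (i + 1) \ interior (D i))).encard ≤ 7
  out : ∀ e ∈ L, e.carrier ⊆ D n ∨ Disjoint e.carrier (D n)
  float : ∀ e ∈ L, ∀ e' ∈ L, Disjoint e.carrier (D n) → Disjoint e'.carrier (D n) →
    e = e' ∨ Disjoint e.carrier e'.carrier
  last : n = 0 ∨ ∃ (h : Pl ≃ₜ Pl) (A B C : Pl), IsPL h ∧ ND A B C ∧ D n = h ⁻¹' tri A B C ∧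
    (∃ e ∈ L, ((e.a = h.symm A ∧ e.b = h.symm B) ∨ (e.a = h.symm B ∧ e.b = h.symm A)) ∧
      e.carrier = h ⁻¹' segment ℝ A B) ∧
    (∃ e ∈ L, ((e.a = h.symm B ∧ e.b = h.symm C) ∨ (e.a = h.symm C ∧ e.b = h.symm B)) ∧
      e.carrier = h ⁻¹' segment ℝ B C) ∧
    (∃ e ∈ L, ((e.a = h.symm C ∧ e.b = h.symm A) ∨ (e.a = h.symm A ∧ e.b = h.symm C)) ∧
      e.carrier = h ⁻¹' segment ℝ C A)

end Pool.Agent.EDG
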