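import Pool.Agent.EDG.PLB

/-! Transport of positions by piecewise linear homeomorphisms. -/

set_option autoImplicit false

namespace Pool.Agent.EDG

open Set

/-- Transport of a curve. -/
def Curve.map (k : Pl ≃ₜ Pl) (hk : IsPL k) (e : Curve) : Curve where
  a := k e.a
  b := k e.b
  carrier := k '' e.carrier
  isArc := e.isArc.image hk

/-- The goal of the main step. -/
def Goal (S : Set Pl) (L : List Curve) (c : Curve) : Prop :=
  ∃ c' : Curve, Legal S (c :: L) c' ∧ ∃ (m : ℕ) (D' : ℕ → Set Pl), Inv S (c' :: c :: L) m D'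

theorem Curve.ext' {e f : Curve} (h1 : e.a = f.a) (h2 : e.b = f.b)
    (h3 : e.carrier = f.carrier) : e = f := by
  cases e with
  | mk ea eb ec he =>
    cases f with
    | mk fa fb fc hf =>
      simp only at h1 h2 h3
      subst h1
      subst h2
      subst h3
      rfl

theorem Curve.map_map_symm (k : Pl ≃ₜ Pl) (hk : IsPL k) (e : Curve) :
    (e.map k hk).map k.symm hk.symm = e := by
  apply Curve.ext'
  · show k.symm (k e.a) = e.a
    exact k.symm_apply_apply _
  · show k.symm (k e.b) = e.b
    exact k.symm_apply_apply _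
  · show k.symm '' (k '' e.carrier) = e.carrier
    rw [image_image]
    simp

theorem map_list_symm (k : Pl ≃ₜ Pl) (hk : IsPL k) (L : List Curve) :
    (L.map (Curve.map k hk)).map (Curve.map k.symm hk.symm) = L := by
  rw [List.map_map]
  conv_rhs => rw [← List.map_id L]
  apply List.map_congr_left
  intro e he
  exact Curve.map_map_symm k hk e

theorem image_symm_image (k : Pl ≃ₜ Pl) (S : Set Pl) : k.symm '' (k '' S) = S := by
  rw [image_image]
  simp

theorem Marked.map {S : Set Pl} (hS : Marked S) (k : Pl ≃ₜ Pl) : Marked (k '' S) := by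
  constructor
  · exact hS.infinite.image k.injective.injOn
  · intro R
    have hc : IsCompact (k.symm '' Metric.closedBall (0 : Pl) R) :=
      (isCompact_closedBall 0 R).image k.symm.continuous
    obtain ⟨R', hR'⟩ := hc.isBounded.subset_ball (0 : Pl)
    refine ((hS.locallyFinite R').image k).subset ?_
    rintro z ⟨⟨w, hw, rfl⟩, hz⟩
    refine ⟨w, ⟨hw, ?_⟩, rfl⟩
    apply hR'
    exact ⟨k w, Metric.ball_subset_closedBall hz, k.symm_apply_apply w⟩

theorem Legal.map {S : Set Pl} {L : List Curve} {c : Curve} (h : Legal S L c) (k : Pl ≃ₜ Pl)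
    (hk : IsPL k) : Legal (k '' S) (L.map (Curve.map k hk)) (c.map k hk) := by
  constructor
  · exact ⟨c.a, h.mem_a, rfl⟩
  · exact ⟨c.b, h.mem_b, rfl⟩
  · intro e he
    rw [List.mem_map] at he
    obtain ⟨e', he', rfl⟩ := he
    intro h1
    apply h.not_joined e' he'
    rcases h1 with ⟨h1, h2⟩ | ⟨h1, h2⟩
    · exact Or.inl ⟨k.injective h1, k.injective h2⟩
    · exact Or.inr ⟨k.injective h1, k.injective h2⟩
  · rintro z ⟨w, hw, rfl⟩ hz
    have hz' : k w ∈ k '' c.carrier := hz
    rw [k.injective.mem_set_image] at hz'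
    rcases h.marked w hw hz' with h1 | h1
    · left
      rw [h1]
      rfl
    · right
      rw [h1]
      rfl
  · intro e he
    rw [List.mem_map] at he
    obtain ⟨e', he', rfl⟩ := he
    show k '' e'.carrier ∩ k '' c.carrier ⊆ {k c.a, k c.b}
    rw [← image_inter k.injective]
    rintro z ⟨w, hw, rfl⟩
    rcases h.meets e' he' hw with h1 | h1
    · left
      rw [h1]
    · right
      rw [mem_singleton_iff] at h1 ⊢
      rw [h1]

theorem image_preimage_trans (k h : Pl ≃ₜ Pl) (T : Set Pl) :
    k '' (h ⁻¹' T) = (k.symm.trans h) ⁻¹' T := by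
  rw [k.image_eq_preimage_symm, ← preimage_comp]
  rfl

theorem Inv.map {S : Set Pl} {L : List Curve} {n : ℕ} {D : ℕ → Set Pl} (h : Inv S L n D)
    (k : Pl ≃ₜ Pl) (hk : IsPL k) :
    Inv (k '' S) (L.map (Curve.map k hk)) n (fun i => k '' D i) := by
  have hdis : ∀ A B : Set Pl, Disjoint (k '' A) (k '' B) ↔ Disjoint A B := by
    intro A B
    exact disjoint_image_iff k.injective
  constructor
  · intro e he
    rw [List.mem_map] at he
    obtain ⟨e', he', rfl⟩ := he
    exact ⟨e'.a, h.mem_a e' he', rfl⟩
  · intro e he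
    rw [List.mem_map] at he
    obtain ⟨e', he', rfl⟩ := he
    exact ⟨e'.b, h.mem_b e' he', rfl⟩
  · intro e he
    rw [List.mem_map] at he
    obtain ⟨e', he', rfl⟩ := he
    rintro z ⟨w, hw, rfl⟩ hz
    have hz' : k w ∈ k '' e'.carrier := hz
    rw [k.injective.mem_set_image] at hz'
    rcases h.marked e' he' w hw hz' with h1 | h1
    · left
      rw [h1]
      rfl
    · right
      rw [h1]
      rfl
  · intro i
    exact k.isClosedMap _ (h.closed i)
  · simp only [h.zero, image_empty]
  · intro i
    exact image_mono (h.mono i)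
  · intro i hi
    show frontier (k '' D i) ⊆ _
    rw [← k.image_frontier]
    rintro z ⟨w, hw, rfl⟩
    have h1 := h.cover i hi hw
    rw [mem_iUnion₂] at h1
    obtain ⟨e, he, hwe⟩ := h1
    rw [mem_iUnion₂]
    exact ⟨e.map k hk, List.mem_map_of_mem he, ⟨w, hwe, rfl⟩⟩
  · intro i hi e he
    rw [List.mem_map] at he
    obtain ⟨e', he', rfl⟩ := he
    show k '' e'.carrier ⊆ k '' D i ∨ Disjoint (k '' e'.carrier) (interior (k '' D i))
    rw [← k.image_interior, hdis]
    rcases h.sep i hi e' he' with h1 | h1
    · exact Or.inl (image_mono h1)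
    · exact Or.inr h1
  · intro i hi
    show (k '' S ∩ (k '' D (i + 1) \ interior (k '' D i))).encard ≤ 7
    rw [← k.image_interior, ← image_sdiff k.injective, ← image_inter k.injective,
      k.injective.encard_image]
    exact h.bag i hi
  · intro e he
    rw [List.mem_map] at he
    obtain ⟨e', he', rfl⟩ := he
    show k '' e'.carrier ⊆ k '' D n ∨ Disjoint (k '' e'.carrier) (k '' D n)
    rw [hdis]
    rcases h.out e' he' with h1 | h1
    · exact Or.inl (image_mono h1)
    · exact Or.inr h1
  · intro e he f hf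
    rw [List.mem_map] at he hf
    obtain ⟨e', he', rfl⟩ := he
    obtain ⟨f', hf', rfl⟩ := hf
    show Disjoint (k '' e'.carrier) (k '' D n) → Disjoint (k '' f'.carrier) (k '' D n) →
      e'.map k hk = f'.map k hk ∨ Disjoint (k '' e'.carrier) (k '' f'.carrier)
    rw [hdis, hdis, hdis]
    intro h1 h2
    rcases h.float e' he' f' hf' h1 h2 with h3 | h3
    · left
      rw [h3]
    · exact Or.inr h3
  · rcases h.last with h1 | ⟨g, A, B, C, hg, hnd, hD, hAB, hBC, hCA⟩
    · exact Or.inl h1
    · right
      refine ⟨k.symm.trans g, A, B, C, hk.symm.trans hg, hnd, ?_, ?_, ?_, ?_⟩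
      · show k '' D n = _
        rw [hD]
        exact image_preimage_trans k g _
      · obtain ⟨e, he, hab, hc⟩ := hAB
        refine ⟨e.map k hk, List.mem_map_of_mem he, ?_, ?_⟩
        · show (k e.a = k (g.symm A) ∧ k e.b = k (g.symm B)) ∨
            (k e.a = k (g.symm B) ∧ k e.b = k (g.symm A))
          rcases hab with ⟨h1, h2⟩ | ⟨h1, h2⟩
          · left
            rw [h1, h2]
            exact ⟨rfl, rfl⟩
          · right
            rw [h1, h2]
            exact ⟨rfl, rfl⟩
        · show k '' e.carrier = _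
          rw [hc]
          exact image_preimage_trans k g _
      · obtain ⟨e, he, hab, hc⟩ := hBC
        refine ⟨e.map k hk, List.mem_map_of_mem he, ?_, ?_⟩
        · show (k e.a = k (g.symm B) ∧ k e.b = k (g.symm C)) ∨
            (k e.a = k (g.symm C) ∧ k e.b = k (g.symm B))
          rcases hab with ⟨h1, h2⟩ | ⟨h1, h2⟩
          · left
            rw [h1, h2]
            exact ⟨rfl, rfl⟩
          · right
            rw [h1, h2]
            exact ⟨rfl, rfl⟩
        · show k '' e.carrier = _
          rw [hc]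
          exact image_preimage_trans k g _
      · obtain ⟨e, he, hab, hc⟩ := hCA
        refine ⟨e.map k hk, List.mem_map_of_mem he, ?_, ?_⟩
        · show (k e.a = k (g.symm C) ∧ k e.b = k (g.symm A)) ∨
            (k e.a = k (g.symm A) ∧ k e.b = k (g.symm C))
          rcases hab with ⟨h1, h2⟩ | ⟨h1, h2⟩
          · left
            rw [h1, h2]
            exact ⟨rfl, rfl⟩
          · right
            rw [h1, h2]
            exact ⟨rfl, rfl⟩
        · show k '' e.carrier = _
          rw [hc]
          exact image_preimage_trans k g _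

theorem Goal.of_map {S : Set Pl} {L : List Curve} {c : Curve} (k : Pl ≃ₜ Pl) (hk : IsPL k)
    (h : Goal (k '' S) (L.map (Curve.map k hk)) (c.map k hk)) : Goal S L c := by
  obtain ⟨c', hc', m, D', hI⟩ := h
  have h1 := hc'.map k.symm hk.symm
  have h2 := hI.map k.symm hk.symm
  rw [image_symm_image, List.map_cons, map_list_symm, Curve.map_map_symm] at h1
  rw [image_symm_image, List.map_cons, List.map_cons, map_list_symm, Curve.map_map_symm] at h2
  exact ⟨c'.map k.symm hk.symm, h1, m, _, h2⟩

end Pool.Agent.EDG
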